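import Pool.Agent.Lib.Helper54.Growth.Struct

/-!
# The density of the indices of the record units
-/

set_option autoImplicit false

namespace Pool.Agent.Helper54.Growth

open Filter

open Classical in
lemma count_le_of_iff {S P : ℕ → Prop} {m : ℕ} (h : ∀ n, m ≤ n → (S n ↔ P n)) (L : ℕ) :
    Nat.count S L ≤ Nat.count P L + m := by
  have key : ∀ d, Nat.count S (m + d) ≤ Nat.count P (m + d) + m := by
    intro d
    induction d with
    | zero =>
      have : Nat.count S m ≤ m := Nat.count_le S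
      simp only [add_zero]; omega
    | succ d ih =>
      rw [← add_assoc, Nat.count_succ, Nat.count_succ]
      by_cases h1 : S (m + d)
      · rw [if_pos h1, if_pos ((h _ (by omega)).1 h1)]; omega
      · rw [if_neg h1]; omega
  rcases Nat.lt_or_ge L m with h1 | h1
  · have : Nat.count S L ≤ L := Nat.count_le S
    omega
  · obtain ⟨d, rfl⟩ := Nat.exists_eq_add_of_le h1
    exact key d

lemma sin_prod_iff {β : ℝ} (hβ0 : 0 < β) (hβ1 : β < Real.pi) (x : ℝ) :
    0 < Real.sin (x * Real.pi) * Real.sin (x * Real.pi + β) ↔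
      0 < Int.fract x ∧ Int.fract x < 1 - β / Real.pi := by
  have hπ := Real.pi_pos
  set f := Int.fract x with hf
  have hf0 : 0 ≤ f := Int.fract_nonneg x
  have hf1 : f < 1 := Int.fract_lt_one x
  have hx : x = f + ⌊x⌋ := by rw [hf, Int.fract]; ring
  have e1 : x * Real.pi = f * Real.pi + ⌊x⌋ * Real.pi := by
    calc x * Real.pi = (f + ⌊x⌋) * Real.pi := by rw [← hx]
      _ = _ := by ring
  have e2 : x * Real.pi + β = (f * Real.pi + β) + ⌊x⌋ * Real.pi := by rw [e1]; ring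
  have s1 : Real.sin (x * Real.pi) = (-1) ^ ⌊x⌋ * Real.sin (f * Real.pi) := by
    rw [e1, Real.sin_add_int_mul_pi]
  have s2 : Real.sin (x * Real.pi + β) = (-1) ^ ⌊x⌋ * Real.sin (f * Real.pi + β) := by
    rw [e2, Real.sin_add_int_mul_pi]
  have hsq : ((-1 : ℝ) ^ ⌊x⌋) * ((-1 : ℝ) ^ ⌊x⌋) = 1 := by
    rw [← mul_zpow]; norm_num
  rw [s1, s2]
  have e3 : (-1) ^ ⌊x⌋ * Real.sin (f * Real.pi) * ((-1) ^ ⌊x⌋ * Real.sin (f * Real.pi + β))
      = Real.sin (f * Real.pi) * Real.sin (f * Real.pi + β) := by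
    calc _ = (((-1 : ℝ) ^ ⌊x⌋) * ((-1 : ℝ) ^ ⌊x⌋)) * (Real.sin (f * Real.pi) * Real.sin (f * Real.pi + β)) := by ring
      _ = _ := by rw [hsq, one_mul]
  rw [e3]
  have hfπ : f * Real.pi < Real.pi := by nlinarith
  have hs0 : 0 ≤ Real.sin (f * Real.pi) :=
    Real.sin_nonneg_of_nonneg_of_le_pi (by positivity) hfπ.le
  constructor
  · intro h
    have hpos : 0 < Real.sin (f * Real.pi) := by
      rcases lt_or_eq_of_le hs0 with h1 | h1
      · exact h1
      · rw [← h1, zero_mul] at h; exact absurd h (lt_irrefl _)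
    have hf0' : 0 < f := by
      rcases lt_or_eq_of_le hf0 with h1 | h1
      · exact h1
      · rw [← h1, zero_mul, Real.sin_zero] at hpos; exact absurd hpos (lt_irrefl _)
    refine ⟨hf0', ?_⟩
    have h2 : 0 < Real.sin (f * Real.pi + β) := (mul_pos_iff_of_pos_left hpos).1 h
    by_contra hcon
    have hcon := not_lt.1 hcon
    have h3 : Real.pi ≤ f * Real.pi + β := by
      have : (1 - β / Real.pi) * Real.pi ≤ f * Real.pi := mul_le_mul_of_nonneg_right hcon hπ.le
      have e : (1 - β / Real.pi) * Real.pi = Real.pi - β := by field_simp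
      linarith
    have h4 : Real.sin (f * Real.pi + β) ≤ 0 := by
      have h5 : Real.sin (f * Real.pi + β) = -Real.sin (f * Real.pi + β - Real.pi) := by
        rw [Real.sin_sub_pi, neg_neg]
      rw [h5]
      have := Real.sin_nonneg_of_nonneg_of_le_pi (x := f * Real.pi + β - Real.pi) (by linarith)
        (by linarith)
      linarith
    linarith
  · rintro ⟨h1, h2⟩
    have h3 : f * Real.pi + β < Real.pi := by
      have : f * Real.pi < (1 - β / Real.pi) * Real.pi := mul_lt_mul_of_pos_right h2 hπ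
      have e : (1 - β / Real.pi) * Real.pi = Real.pi - β := by field_simp
      linarith
    exact mul_pos (Real.sin_pos_of_pos_of_lt_pi (by positivity) hfπ)
      (Real.sin_pos_of_pos_of_lt_pi (by positivity) h3)

section

variable {φ : ℝ} (hφ : φ ^ 3 = φ + 1)
include hφ

/-- No positive power of the complex conjugate is real. -/
lemma pc_pow_im_ne (k : ℕ) (hk : 0 < k) : ((pc φ) ^ k).im ≠ 0 := by
  intro h
  rw [← Wc_U hφ, Wc_im hφ] at h
  have h1 : ((U k).2.1 : ℝ) - (U k).2.2 * φ = 0 := by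
    rcases mul_eq_zero.1 h with h | h
    · exact h
    · exact absurd h (sI_pos hφ).ne'
  have hC : (U k).2.2 = 0 := by
    by_contra hC
    exact phi_irr hφ (U k).2.2 (U k).2.1 hC (by linarith)
  have hB : (U k).2.1 = 0 := by
    rw [hC] at h1
    have : ((U k).2.1 : ℝ) = 0 := by simpa using h1
    exact_mod_cast this
  have hR := Rr_U hφ k
  have hW := Wc_U hφ k
  rw [hB, hC, Rr] at hR
  rw [hB, hC, Wc] at hW
  have hR' : ((U k).1 : ℝ) = φ ^ k := by simpa using hR
  have hW' : (((U k).1 : ℤ) : ℂ) = (pc φ) ^ k := by simpa using hW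
  have h3 : ‖(((U k).1 : ℤ) : ℂ)‖ = ‖pc φ‖ ^ k := by rw [hW', norm_pow]
  have h4 : ‖(((U k).1 : ℤ) : ℂ)‖ = φ ^ k := by
    have e : (((U k).1 : ℤ) : ℂ) = ((((U k).1 : ℤ) : ℝ) : ℂ) := by push_cast; rfl
    rw [e, Complex.norm_real, hR', Real.norm_eq_abs, abs_of_pos]
    have := phi_gt_one hφ
    positivity
  have h5 : ‖pc φ‖ ^ k < 1 := pow_lt_one₀ (norm_nonneg _) (norm_pc_lt_one hφ) hk.ne'
  have h6 : 1 ≤ φ ^ k := one_le_pow₀ (phi_gt_one hφ).le
  linarith

omit hφ in
lemma pc_pow_im (k : ℕ) : ((pc φ) ^ k).im = ‖pc φ‖ ^ k * Real.sin (k * Complex.arg (pc φ)) := by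
  have h := Complex.norm_mul_exp_arg_mul_I (pc φ)
  have e : (pc φ) ^ k = ((‖pc φ‖ ^ k : ℝ) : ℂ) * Complex.exp (((k * Complex.arg (pc φ) : ℝ) : ℂ) * Complex.I) := by
    conv_lhs => rw [← h]
    rw [mul_pow, ← Complex.exp_nat_mul]
    push_cast
    congr 2
    ring
  rw [e, Complex.im_ofReal_mul, Complex.exp_ofReal_mul_I_im]

omit hφ in
lemma pc_pow_mul_im (k : ℕ) (γ : ℂ) : ((pc φ) ^ k * γ).im
    = ‖pc φ‖ ^ k * ‖γ‖ * Real.sin (k * Complex.arg (pc φ) + Complex.arg γ) := by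
  have h := Complex.norm_mul_exp_arg_mul_I (pc φ)
  have h' := Complex.norm_mul_exp_arg_mul_I γ
  have e : (pc φ) ^ k * γ = ((‖pc φ‖ ^ k * ‖γ‖ : ℝ) : ℂ)
      * Complex.exp (((k * Complex.arg (pc φ) + Complex.arg γ : ℝ) : ℂ) * Complex.I) := by
    conv_lhs => rw [← h, ← h']
    rw [mul_pow, ← Complex.exp_nat_mul]
    push_cast
    rw [add_mul, Complex.exp_add]
    have e2 : (k : ℂ) * (↑(Complex.arg (pc φ)) * Complex.I) = ↑k * ↑(Complex.arg (pc φ)) * Complex.I := by ring
    rw [e2]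
    ring
  rw [e, Complex.im_ofReal_mul, Complex.exp_ofReal_mul_I_im]

lemma irrational_arg : Irrational (Complex.arg (pc φ) / Real.pi) := by
  rintro ⟨r, hr⟩
  have hπ := Real.pi_pos
  have h1 : Complex.arg (pc φ) = r * Real.pi := by
    rw [hr]; field_simp
  have hd : (r.den : ℝ) ≠ 0 := by exact_mod_cast r.den_nz
  have h2 : (r.den : ℝ) * Complex.arg (pc φ) = (r.num : ℝ) * Real.pi := by
    rw [h1]
    have : (r : ℝ) = r.num / r.den := by exact_mod_cast (Rat.num_div_den r).symm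
    rw [this]; field_simp
  have h3 := pc_pow_im (φ := φ) r.den
  rw [h2, Real.sin_int_mul_pi, mul_zero] at h3
  exact pc_pow_im_ne hφ r.den r.den_pos h3

/-- The number whose argument describes the cone. -/
lemma EC_iff (tR : ℝ) (k : ℕ) : EC tR (vU φ (k + 2)) ↔
    0 < ((pc φ) ^ k).im * ((pc φ) ^ k * ⟨tR - φ ^ 2 / 2, φ * sI φ⟩).im := by
  have hs0 := sI_pos hφ
  have hs := sI_sq hφ
  have hφ1 := phi_gt_one hφ
  have h1 := Wc_vE hφ (U (k + 2)).1 (U (k + 2)).2.1 (U (k + 2)).2.2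
  rw [Wc_U hφ] at h1
  have h1' : (pc φ) ^ (k + 2) = -(pc φ) * (((vU φ (k + 2) 1 : ℝ) : ℂ) + (vU φ (k + 2) 0 : ℝ) * pc φ) := h1
  set v := vU φ (k + 2) with hv
  have hp0 : pc φ ≠ 0 := by
    intro h0
    have := norm_pc_pos hφ
    rw [h0, norm_zero] at this
    exact lt_irrefl _ this
  have h2 : ((v 1 : ℝ) : ℂ) + (v 0 : ℝ) * pc φ = -((pc φ) ^ k * pc φ) := by
    have e : (pc φ) * (((v 1 : ℝ) : ℂ) + (v 0 : ℝ) * pc φ) = (pc φ) * (-((pc φ) ^ k * pc φ)) := by
      linear_combination h1'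
    exact mul_left_cancel₀ hp0 e
  set P := (pc φ) ^ k with hP
  have hre := congrArg Complex.re h2
  have him := congrArg Complex.im h2
  simp only [pc, Complex.add_re, Complex.add_im, Complex.mul_re, Complex.mul_im,
    Complex.ofReal_re, Complex.ofReal_im, Complex.neg_re, Complex.neg_im] at hre him
  have k0 : v 0 * sI φ = -(P.re * sI φ) + P.im * φ / 2 := by linarith
  have k1 : v 1 * (φ * sI φ) = P.im := by
    have h3 : v 1 = P.re * φ / 2 + P.im * sI φ + φ / 2 * v 0 := by linarith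
    rw [h3]
    linear_combination (φ ^ 2 / 2) * k0 + (P.im * φ) * hs + P.im * hφ
  have k2 : (tR * v 1 - v 0) * (φ * sI φ) = (P * ⟨tR - φ ^ 2 / 2, φ * sI φ⟩ : ℂ).im := by
    rw [Complex.mul_im]
    linear_combination tR * k1 - φ * k0
  have e : (v 1 * (tR * v 1 - v 0)) * (φ * sI φ) ^ 2
      = P.im * (P * ⟨tR - φ ^ 2 / 2, φ * sI φ⟩ : ℂ).im := by
    rw [← k1, ← k2]; ring
  rw [← e, EC]
  have hpos : 0 < (φ * sI φ) ^ 2 := by positivity
  constructor
  · intro h; exact mul_pos h hpos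
  · intro h; exact (mul_pos_iff_of_pos_right hpos).1 h

open Classical in
/-- The density of the indices `n` with `vU n` in the cone. -/
theorem density {tR : ℝ} (htR : tR < φ ^ 2 / 2) :
    ∃ c : ℝ, c = Real.arctan (φ * Real.sqrt (3 * φ ^ 2 - 4) / (φ ^ 2 - 2 * tR)) / Real.pi ∧
      0 < c ∧ c < 1 / 2 ∧
      (∀ ε : ℝ, 0 < ε → ∃ C : ℝ, ∀ L : ℕ,
        (Nat.count (fun n => EC tR (vU φ n)) L : ℝ) ≤ (c + ε) * L + C) ∧
      (∀ ε : ℝ, 0 < ε → ∃ C : ℝ, ∀ L : ℕ,
        (c - ε) * L - C ≤ (Nat.count (fun n => EC tR (vU φ n)) L : ℝ)) := by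
  have hπ := Real.pi_pos
  have hs0 := sI_pos hφ
  have hφ1 := phi_gt_one hφ
  have hφ0 : 0 < φ := by linarith
  set γ : ℂ := ⟨tR - φ ^ 2 / 2, φ * sI φ⟩ with hγ
  have hγim : 0 < γ.im := by rw [hγ]; positivity
  have hγre : γ.re < 0 := by rw [hγ]; show tR - φ ^ 2 / 2 < 0; linarith
  have hγ0 : γ ≠ 0 := by intro h; rw [h] at hγim; simp at hγim
  set β := Complex.arg γ with hβ
  have hβ0 : 0 < β := by
    have h1 : 0 ≤ β := Complex.arg_nonneg_iff.2 hγim.le
    rcases lt_or_eq_of_le h1 with h | h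
    · exact h
    · exfalso
      have := (Complex.arg_eq_zero_iff.1 h.symm).1
      linarith
  have hβ2 : Real.pi / 2 < β := by
    by_contra hcon
    have hcon := not_lt.1 hcon
    have h1 : |Complex.arg γ| ≤ Real.pi / 2 := by rw [← hβ, abs_of_pos hβ0]; exact hcon
    rw [Complex.abs_arg_le_pi_div_two_iff] at h1
    linarith
  have hβ1 : β < Real.pi := by
    have h1 : β ≤ Real.pi := Complex.arg_le_pi γ
    rcases lt_or_eq_of_le h1 with h | h
    · exact h
    · exfalso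
      have := (Complex.arg_eq_pi_iff.1 h).2
      linarith
  set c : ℝ := 1 - β / Real.pi with hc
  have hcπ : c * Real.pi = Real.pi - β := by rw [hc]; field_simp
  have hc0 : 0 < c := by
    rw [hc, sub_pos, div_lt_one hπ]; exact hβ1
  have hc1 : c < 1 / 2 := by
    rw [hc]
    have : 1 / 2 < β / Real.pi := by rw [lt_div_iff₀ hπ]; linarith
    linarith
  have harctan : c = Real.arctan (φ * Real.sqrt (3 * φ ^ 2 - 4) / (φ ^ 2 - 2 * tR)) / Real.pi := by
    rw [eq_div_iff hπ.ne', hcπ]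
    have h1 : Real.tan β = γ.im / γ.re := Complex.tan_arg γ
    have h2 : Real.tan (Real.pi - β) = φ * Real.sqrt (3 * φ ^ 2 - 4) / (φ ^ 2 - 2 * tR) := by
      rw [Real.tan_pi_sub, h1, hγ]
      show -(φ * sI φ / (tR - φ ^ 2 / 2)) = _
      rw [sI]
      have hne2 : φ ^ 2 - 2 * tR ≠ 0 := by linarith
      have hne3 : tR - φ ^ 2 / 2 = -(φ ^ 2 - 2 * tR) / 2 := by ring
      rw [hne3]
      field_simp
    rw [← h2, Real.arctan_tan (by linarith) (by linarith)]
  -- the comparison with arcs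
  set a : ℝ := Complex.arg (pc φ) / Real.pi with ha
  have hirr : Irrational a := irrational_arg hφ
  have haπ : a * Real.pi = Complex.arg (pc φ) := by rw [ha]; field_simp
  have hiff : ∀ n, 3 ≤ n → (EC tR (vU φ n) ↔ Int.fract ((n : ℝ) * a + (-2 * a)) < c) := by
    intro n hn
    obtain ⟨k, rfl⟩ := Nat.exists_eq_add_of_le' (show 2 ≤ n by omega)
    have hk : 0 < k := by omega
    rw [EC_iff hφ, pc_pow_im, pc_pow_mul_im]
    have hq := norm_pc_pos hφ
    have hγn : 0 < ‖γ‖ := norm_pos_iff.2 hγ0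
    have e1 : ‖pc φ‖ ^ k * Real.sin (k * Complex.arg (pc φ)) *
        (‖pc φ‖ ^ k * ‖γ‖ * Real.sin (k * Complex.arg (pc φ) + Complex.arg γ))
        = (‖pc φ‖ ^ k * (‖pc φ‖ ^ k * ‖γ‖)) * (Real.sin ((k * a) * Real.pi)
          * Real.sin ((k * a) * Real.pi + β)) := by
      rw [mul_assoc (k : ℝ) a, haπ]; ring
    rw [e1, mul_pos_iff_of_pos_left (by positivity), sin_prod_iff hβ0 hβ1]
    have e2 : ((k + 2 : ℕ) : ℝ) * a + (-2 * a) = k * a := by push_cast; ring
    rw [e2]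
    constructor
    · exact fun h => h.2
    · intro h
      refine ⟨?_, h⟩
      rcases lt_or_eq_of_le (Int.fract_nonneg ((k : ℝ) * a)) with h1 | h1
      · exact h1
      · exfalso
        have h2 : ((⌊(k : ℝ) * a⌋ : ℤ) : ℝ) = k * a := by
          have := Int.fract_add_floor ((k : ℝ) * a)
          rw [← h1, zero_add] at this
          exact this
        exact (hirr.natCast_mul hk.ne').ne_int _ h2.symm
  refine ⟨c, harctan, hc0, hc1, ?_, ?_⟩
  · intro ε hε
    obtain ⟨C, hC⟩ := count_arc_le hirr hc0 hε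
    refine ⟨C + 3, fun L => ?_⟩
    have h1 := hC (-2 * a) L
    have h2 := count_le_of_iff (S := fun n => EC tR (vU φ n))
      (P := fun n : ℕ => Int.fract ((n : ℝ) * a + (-2 * a)) < c) hiff L
    have h3 : (Nat.count (fun n => EC tR (vU φ n)) L : ℝ)
        ≤ Nat.count (fun n : ℕ => Int.fract ((n : ℝ) * a + (-2 * a)) < c) L + 3 := by
      have h4 : Nat.count (fun n => EC tR (vU φ n)) L
        ≤ Nat.count (fun n : ℕ => Int.fract ((n : ℝ) * a + (-2 * a)) < c) L + 3 := by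
        convert h2
      exact_mod_cast h4
    linarith
  · intro ε hε
    obtain ⟨C, hC⟩ := le_count_arc hirr hc0 (by linarith) hε
    refine ⟨C + 3, fun L => ?_⟩
    have h1 := hC (-2 * a) L
    have h2 := count_le_of_iff (S := fun n : ℕ => Int.fract ((n : ℝ) * a + (-2 * a)) < c)
      (P := fun n => EC tR (vU φ n)) (fun n hn => (hiff n hn).symm) L
    have h3 : (Nat.count (fun n : ℕ => Int.fract ((n : ℝ) * a + (-2 * a)) < c) L : ℝ)
        ≤ Nat.count (fun n => EC tR (vU φ n)) L + 3 := by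
      have h4 : Nat.count (fun n : ℕ => Int.fract ((n : ℝ) * a + (-2 * a)) < c) L
        ≤ Nat.count (fun n => EC tR (vU φ n)) L + 3 := by
        convert h2
      exact_mod_cast h4
    linarith

end

/-- The value of `G` for a good norm. -/
theorem Good.G_value {φ : ℝ} {N : (Fin 2 → ℝ) → ℝ} {tR K1 K2 : ℝ} (hG : Good φ N tR K1 K2)
    (hφ : φ ^ 3 = φ + 1) (htR : tR < φ ^ 2 / 2) :
    G N (eθ φ) = ((φ ^ (Real.pi /
      Real.arctan (φ * Real.sqrt (3 * φ ^ 2 - 4) / (φ ^ 2 - 2 * tR))) : ℝ) : EReal) ∧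
    ((φ ^ 2 : ℝ) : EReal) < G N (eθ φ) := by
  have hφ1 := phi_gt_one hφ
  obtain ⟨c, hc, hc0, hc1, hd1, hd2⟩ := density hφ htR
  obtain ⟨n0, hX, hden⟩ := hG.main hφ
  obtain ⟨n1, hn1⟩ := heights hφ
  have hval : G N (eθ φ) = ((φ ^ (1 / c) : ℝ) : EReal) := by
    have hX' : ∀ n, max n0 n1 ≤ n → XU n < XU (n + 1) := fun n hn =>
      hX n ((le_max_left _ _).trans hn)
    have hmono : ∀ {i j : ℕ}, n0 ≤ i → i < j → XU i < XU j := fun hi hij => X_mono hX hi hij
    have hden' : ∀ k, XU (max n0 n1) ≤ k →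
        (IsDen N (eθ φ) k ↔ ∃ n, max n0 n1 ≤ n ∧ XU n = k ∧ EC tR (vU φ n)) := by
      intro k hk
      have hle : XU n0 ≤ XU (max n0 n1) := by
        rcases lt_or_eq_of_le (le_max_left n0 n1) with h | h
        · exact (hmono le_rfl h).le
        · rw [← h]
      rw [hden k (hle.trans hk)]
      constructor
      · rintro ⟨n, hn, rfl, hE⟩
        refine ⟨n, ?_, rfl, hE⟩
        by_contra hcon
        have := hmono hn (not_le.1 hcon)
        omega
      · rintro ⟨n, hn, rfl, hE⟩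
        exact ⟨n, (le_max_left _ _).trans hn, rfl, hE⟩
    refine G_eq hG.norm (eθ_adm hφ) hX' hden' hφ1 (c := c) (c1 := 1 / 10) (c2 := 1) hc0
      (by norm_num) one_pos ?_ ?_ hd1 hd2
    · intro n hn
      obtain ⟨-, -, -, h1, h2⟩ := hn1 n ((le_max_right _ _).trans hn)
      have h3 := (abs_le.1 h2).1
      obtain ⟨p1, p2⟩ := phi_bounds hφ
      have h4 : (2 * φ + 3) * (XU n : ℝ) ≤ 6 * XU n :=
        mul_le_mul_of_nonneg_right (by linarith) (by positivity)
      linarith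
    · intro n hn
      obtain ⟨-, -, -, h1, h2⟩ := hn1 n ((le_max_right _ _).trans hn)
      have h3 := (abs_le.1 h2).2
      have h4 : 5 * (XU n : ℝ) ≤ (2 * φ + 3) * XU n :=
        mul_le_mul_of_nonneg_right (by linarith) (by positivity)
      linarith
  constructor
  · rw [hval, hc, one_div_div]
  · rw [hval]
    have : φ ^ 2 < φ ^ (1 / c) := by
      rw [← Real.rpow_natCast φ 2]
      apply Real.rpow_lt_rpow_of_exponent_lt hφ1
      rw [lt_div_iff₀ hc0]; push_cast; linarith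
    exact_mod_cast this

end Pool.Agent.Helper54.Growth
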