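import Pool.Agent.Lib.Helper54.Growth.Defs

set_option autoImplicit false

namespace Pool.Agent.Helper54.Growth

open Filter

section

variable {N : (Fin 2 → ℝ) → ℝ} (hN : IsNorm2 N) {θ : Fin 2 → ℝ}
include hN

lemma N_errV_neg (x : ℤ) (y : Fin 2 → ℤ) : N (errV θ (-x) (-y)) = N (errV θ x y) := by
  have : errV θ (-x) (-y) = -(errV θ x y) := by
    ext i; simp only [errV, Pi.neg_apply]; push_cast; ring
  rw [this, hN.neg]

lemma latDist_le_errV_nat (k : ℕ) (y : Fin 2 → ℤ) : latDist N θ k ≤ N (errV θ (k : ℤ) y) := by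
  have := latDist_le hN (θ := θ) k y
  have e : errV θ (k : ℤ) y = fun i => (k : ℝ) * θ i - (y i : ℝ) := by ext i; simp [errV]
  rwa [e]

lemma latDist_le_errV (x : ℤ) (y : Fin 2 → ℤ) : latDist N θ x.natAbs ≤ N (errV θ x y) := by
  rcases Int.natAbs_eq x with h | h
  · have := latDist_le_errV_nat hN (θ := θ) x.natAbs y
    rwa [← h] at this
  · have := latDist_le_errV_nat hN (θ := θ) x.natAbs (-y)
    rw [← N_errV_neg hN] at this
    rwa [← h, neg_neg] at this

lemma latDist_errV_attained (k : ℕ) : ∃ y : Fin 2 → ℤ, N (errV θ (k : ℤ) y) = latDist N θ k := by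
  obtain ⟨a, ha⟩ := latDist_attained hN (θ := θ) k
  have e : errV θ (k : ℤ) a = fun i => (k : ℝ) * θ i - (a i : ℝ) := by ext i; simp [errV]
  exact ⟨a, by rw [e, ha]⟩

/-- Every denominator is a record time. -/
lemma isRec_of_isDen {k : ℕ} (hk : IsDen N θ k) : isRec N θ k := by
  obtain ⟨x, y, ⟨hx, hb⟩, rfl⟩ := hk
  refine ⟨Int.natAbs_pos.2 hx, ?_⟩
  intro j hj hjk
  by_contra hcon
  have hcon := not_lt.1 hcon
  obtain ⟨a, ha⟩ := latDist_errV_attained hN (θ := θ) j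
  have h1 := latDist_le_errV hN (θ := θ) x y
  have h2 : N (errV θ (j : ℤ) a) ≤ N (errV θ x y) := by rw [ha]; exact hcon.trans h1
  have h3 : |(j : ℤ)| ≤ |x| := by
    rw [Int.abs_eq_natAbs x, abs_of_nonneg (by positivity)]; exact_mod_cast hjk.le
  rcases hb (j : ℤ) a h3 h2 with h | h | h
  · omega
  · have := h.1; omega
  · have := h.1; omega

omit hN in
lemma err_ne_zero (hN : IsNorm2 N) : ∃ κ : ℝ, 0 < κ ∧ ∀ y : Fin 2 → ℤ, y ≠ 0 → κ ≤ N (errV θ 0 y) := by
  obtain ⟨κ, hκ, hlow⟩ := hN.exists_lower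
  refine ⟨κ, hκ, ?_⟩
  intro y hy
  obtain ⟨i, hi⟩ : ∃ i : Fin 2, y i ≠ 0 := by
    by_contra hcon
    push Not at hcon
    exact hy (funext hcon)
  have h1 : (1:ℝ) ≤ ‖errV θ 0 y‖ := by
    have h2 : |errV θ 0 y i| ≤ ‖errV θ 0 y‖ := norm_le_pi_norm (errV θ 0 y) i
    have h3 : errV θ 0 y i = -(y i : ℝ) := by simp [errV]
    rw [h3, abs_neg] at h2
    have h4 : (1:ℝ) ≤ |(y i : ℝ)| := by
      rw [← Int.cast_abs]
      exact_mod_cast Int.one_le_abs hi
    linarith
  have h2 := hlow (errV θ 0 y)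
  nlinarith

/-- Records with small distance are denominators. -/
lemma isDen_of_isRec {κ : ℝ} (hκ : ∀ y : Fin 2 → ℤ, y ≠ 0 → κ ≤ N (errV θ 0 y)) {k : ℕ}
    (hk : isRec N θ k) (hs : 2 * latDist N θ k < κ) : IsDen N θ k := by
  obtain ⟨y, hy⟩ := latDist_errV_attained hN (θ := θ) k
  have hk0 := hk.1
  have hd0 : 0 ≤ latDist N θ k := by rw [← hy]; exact hN.nonneg _
  refine ⟨k, y, ⟨by exact_mod_cast hk0.ne', ?_⟩, by simp⟩
  intro x' y' hx hle
  rw [hy] at hle
  rw [abs_of_nonneg (by positivity : (0:ℤ) ≤ (k : ℤ))] at hx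
  by_cases hx0 : x' = 0
  · left
    refine ⟨hx0, ?_⟩
    by_contra hy0
    have := hκ y' hy0
    rw [hx0] at hle
    linarith
  right
  rcases lt_or_eq_of_le hx with h | h
  · exfalso
    have h1 := latDist_le_errV hN (θ := θ) x' y'
    have h2 := hk.2 x'.natAbs (Int.natAbs_pos.2 hx0) (by rw [Int.abs_eq_natAbs] at h; exact_mod_cast h)
    linarith
  · rcases abs_eq (by positivity : (0:ℤ) ≤ (k : ℤ)) |>.1 h with h' | h'
    · left
      refine ⟨h', ?_⟩
      by_contra hyy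
      have h1 := hκ (y - y') (sub_ne_zero.2 (Ne.symm hyy))
      have h2 : errV θ 0 (y - y') = errV θ k y - errV θ x' y' := by
        ext i; simp only [errV, Pi.sub_apply, h']; push_cast; ring
      rw [h2] at h1
      have h3 := hN.sub_le (errV θ k y) (errV θ x' y')
      rw [hy] at h3
      linarith
    · right
      refine ⟨h', ?_⟩
      by_contra hyy
      have h1 := hκ (-y - y') (sub_ne_zero.2 (Ne.symm hyy))
      have h2 : errV θ 0 (-y - y') = -(errV θ k y) - errV θ x' y' := by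
        ext i; simp only [errV, Pi.sub_apply, Pi.neg_apply, h']; push_cast; ring
      rw [h2] at h1
      have h3 := hN.sub_le (-(errV θ k y)) (errV θ x' y')
      rw [hN.neg, hy] at h3
      linarith

/-- All large record times are denominators. -/
lemma exists_isDen_of_isRec : ∃ K : ℕ, ∀ k, K ≤ k → isRec N θ k → IsDen N θ k := by
  obtain ⟨κ, hκ, hlow⟩ := err_ne_zero (N := N) (θ := θ) hN
  obtain ⟨K, hK0, hK⟩ := exists_small hN (θ := θ) (κ / 2) (by positivity)
  refine ⟨K, ?_⟩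
  intro k hk hrec
  apply isDen_of_isRec hN hlow hrec
  rcases lt_or_eq_of_le hk with h | h
  · have := hrec.2 K hK0 h
    linarith
  · rw [← h]; linarith

lemma isDen_infinite (hθ : Adm θ) : {k : ℕ | IsDen N θ k}.Infinite := by
  obtain ⟨K, hK⟩ := exists_isDen_of_isRec hN (θ := θ)
  rw [← Nat.frequently_atTop_iff_infinite, frequently_atTop]
  intro L
  obtain ⟨k, h1, h2, -⟩ := exists_rec_gt hN hθ (max K L) 1 one_pos
  exact ⟨k, (le_max_right K L).trans h1.le, hK k ((le_max_left K L).trans h1.le) h2⟩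

lemma nth_isRec_le (hθ : Adm θ) (n : ℕ) :
    Nat.nth (isRec N θ) n ≤ Nat.nth (IsDen N θ) n := by
  classical
  rw [← Nat.count_le_iff_le_nth (isDen_infinite hN hθ)]
  calc Nat.count (IsDen N θ) (Nat.nth (isRec N θ) n)
      ≤ Nat.count (isRec N θ) (Nat.nth (isRec N θ) n) :=
        Nat.count_mono_left (fun k _ hk => isRec_of_isDen hN hk)
    _ = n := Nat.count_nth_of_infinite (rec_infinite hN hθ) n

lemma M_pos (hθ : Adm θ) (ν : ℕ) : 1 ≤ M N θ ν := by
  have := isRec_of_isDen hN (Nat.nth_mem_of_infinite (isDen_infinite hN hθ) (ν - 1))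
  exact this.1

end

/-- Lower bounds for `G`. -/
lemma le_G {N : (Fin 2 → ℝ) → ℝ} {θ : Fin 2 → ℝ} (β : ℝ)
    (h : ∀ c : ℝ, 0 < c → c < β → ∀ᶠ ν in atTop, c ^ ν < (M N θ ν : ℝ)) :
    (β : EReal) ≤ G N θ := by
  rw [← EReal.ge_of_forall_gt_iff_ge]
  intro z hz
  have hz : z < β := by exact_mod_cast hz
  apply le_liminf_of_le
  · isBoundedDefault
  by_cases hz0 : 0 < z
  · filter_upwards [h z hz0 hz, eventually_gt_atTop 0] with ν h1 h2
    have h3 : z = (z ^ ν) ^ (1 / (ν : ℝ)) := by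
      rw [one_div, Real.pow_rpow_inv_natCast hz0.le (by omega)]
    have h4 : z ≤ (M N θ ν : ℝ) ^ (1 / (ν : ℝ)) := by
      rw [h3]
      exact Real.rpow_le_rpow (by positivity) h1.le (by positivity)
    exact_mod_cast h4
  · filter_upwards with ν
    have : z ≤ (M N θ ν : ℝ) ^ (1 / (ν : ℝ)) :=
      (not_lt.1 hz0).trans (Real.rpow_nonneg (by positivity) _)
    exact_mod_cast this

lemma tendsto_const_rpow (C : ℝ) (hC : 0 < C) :
    Tendsto (fun ν : ℕ => C ^ (1 / (ν : ℝ))) atTop (nhds 1) := by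
  have h1 : Tendsto (fun ν : ℕ => 1 / (ν : ℝ)) atTop (nhds 0) := tendsto_one_div_atTop_nhds_zero_nat
  have h2 : ContinuousAt (fun x : ℝ => C ^ x) 0 := Real.continuousAt_const_rpow hC.ne'
  have h3 := h2.tendsto.comp h1
  simpa [Function.comp_def] using h3

/-- Upper bounds for `G`. -/
lemma G_le {N : (Fin 2 → ℝ) → ℝ} {θ : Fin 2 → ℝ} (β C : ℝ) (hβ : 0 < β) (hC : 0 < C)
    (h : ∀ᶠ ν in atTop, (M N θ ν : ℝ) ≤ C * β ^ ν) :
    G N θ ≤ (β : EReal) := by
  have hlim : Tendsto (fun ν : ℕ => ((C ^ (1 / (ν : ℝ)) * β : ℝ) : EReal)) atTop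
      (nhds (β : EReal)) := by
    have := (tendsto_const_rpow C hC).mul_const β
    rw [one_mul] at this
    exact (continuous_coe_real_ereal.tendsto β).comp this
  rw [← hlim.liminf_eq]
  refine liminf_le_liminf ?_
  filter_upwards [h, eventually_gt_atTop 0] with ν h1 h2
  have h3 : (M N θ ν : ℝ) ^ (1 / (ν : ℝ)) ≤ C ^ (1 / (ν : ℝ)) * β := by
    calc (M N θ ν : ℝ) ^ (1 / (ν : ℝ)) ≤ (C * β ^ ν) ^ (1 / (ν : ℝ)) :=
          Real.rpow_le_rpow (by positivity) h1 (by positivity)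
      _ = C ^ (1 / (ν : ℝ)) * β := by
          rw [Real.mul_rpow hC.le (by positivity)]
          congr 1
          rw [one_div, Real.pow_rpow_inv_natCast hβ.le (by omega)]
  exact_mod_cast h3

end Pool.Agent.Helper54.Growth
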