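import Pool.Agent.Lib.Helper54.Growth.Phi2

/-!
# The elements of `ℤ[φ]` of small size
-/

set_option autoImplicit false

namespace Pool.Agent.Helper54.Growth

section

variable {φ : ℝ} (hφ : φ ^ 3 = φ + 1)
include hφ

lemma phi_fine : 132471 / 100000 < φ ∧ φ < 132472 / 100000 := by
  obtain ⟨h1, h2⟩ := phi_bounds hφ
  constructor
  · by_contra hcon
    have hcon := not_lt.1 hcon
    have e : (φ - 132471 / 100000) * (φ ^ 2 + φ * (132471 / 100000) + (132471 / 100000) ^ 2 - 1)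
        = 1 - ((132471 / 100000) ^ 3 - 132471 / 100000) := by
      linear_combination hφ
    have h3 : 0 < φ ^ 2 + φ * (132471 / 100000) + (132471 / 100000) ^ 2 - 1 := by nlinarith
    have h4 : (φ - 132471 / 100000) * (φ ^ 2 + φ * (132471 / 100000) + (132471 / 100000) ^ 2 - 1) ≤ 0 :=
      mul_nonpos_of_nonpos_of_nonneg (by linarith) h3.le
    rw [e] at h4
    norm_num at h4
  · by_contra hcon
    have hcon := not_lt.1 hcon
    have e : (φ - 132472 / 100000) * (φ ^ 2 + φ * (132472 / 100000) + (132472 / 100000) ^ 2 - 1)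
        = 1 - ((132472 / 100000) ^ 3 - 132472 / 100000) := by
      linear_combination hφ
    have h3 : 0 < φ ^ 2 + φ * (132472 / 100000) + (132472 / 100000) ^ 2 - 1 := by nlinarith
    have h4 : 0 ≤ (φ - 132472 / 100000) * (φ ^ 2 + φ * (132472 / 100000) + (132472 / 100000) ^ 2 - 1) :=
      mul_nonneg (by linarith) h3.le
    rw [e] at h4
    norm_num at h4

lemma phi_sq_fine : 175485 / 100000 < φ ^ 2 ∧ φ ^ 2 < 175489 / 100000 := by
  obtain ⟨h1, h2⟩ := phi_fine hφ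
  constructor <;> nlinarith

end

/-- Lower bound for `k * x` from bounds for `100000 * x`. -/
def mlo (k lo hi : ℤ) : ℤ := if 0 ≤ k then k * lo else k * hi

/-- Upper bound for `k * x` from bounds for `100000 * x`. -/
def mhi (k lo hi : ℤ) : ℤ := if 0 ≤ k then k * hi else k * lo

lemma mlo_le {k lo hi : ℤ} {x : ℝ} (h1 : (lo : ℝ) ≤ 100000 * x) (h2 : 100000 * x ≤ (hi : ℝ)) :
    ((mlo k lo hi : ℤ) : ℝ) ≤ 100000 * (k * x) := by
  rw [mlo]
  split_ifs with h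
  · have : (0:ℝ) ≤ k := by exact_mod_cast h
    push_cast; nlinarith
  · have : (k:ℝ) ≤ 0 := by exact_mod_cast (not_le.1 h).le
    push_cast; nlinarith

lemma le_mhi {k lo hi : ℤ} {x : ℝ} (h1 : (lo : ℝ) ≤ 100000 * x) (h2 : 100000 * x ≤ (hi : ℝ)) :
    100000 * (k * x) ≤ ((mhi k lo hi : ℤ) : ℝ) := by
  rw [mhi]
  split_ifs with h
  · have : (0:ℝ) ≤ k := by exact_mod_cast h
    push_cast; nlinarith
  · have : (k:ℝ) ≤ 0 := by exact_mod_cast (not_le.1 h).le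
    push_cast; nlinarith

/-- Lower bound for the real embedding. -/
def Rlo (a b c : ℤ) : ℤ := 100000 * a + mlo b 132471 132472 + mlo c 175485 175489

/-- Upper bound for the real embedding. -/
def Rhi (a b c : ℤ) : ℤ := 100000 * a + mhi b 132471 132472 + mhi c 175485 175489

/-- Lower bound for the squared complex embedding. -/
def Wlo (a b c : ℤ) : ℤ :=
  100000 * (a ^ 2 - b * c) + mlo (b ^ 2) 75485 75489 + mlo (c ^ 2) 56982 56987
    - mhi (a * b) 132471 132472 + mlo (a * c) 24511 24515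

/-- The exceptional elements. -/
def InList (a b c : ℤ) : Prop :=
  (a = 1 ∧ b = 0 ∧ c = 0) ∨ (a = 0 ∧ b = 1 ∧ c = 0) ∨ (a = -1 ∧ b = -1 ∧ c = 2) ∨
  (a = -2 ∧ b = 1 ∧ c = 1) ∨ (a = 2 ∧ b = 2 ∧ c = -2) ∨ (a = 3 ∧ b = 0 ∧ c = -1)

instance (a b c : ℤ) : Decidable (InList a b c) := by unfold InList; infer_instance

set_option maxRecDepth 100000 in
theorem chk_all : ∀ a ∈ Finset.Icc (-11 : ℤ) 11, ∀ b ∈ Finset.Icc (-3 : ℤ) 3,
    ∀ c ∈ Finset.Icc (-3 : ℤ) 3,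
    99900 ≤ Rhi a b c → Rlo a b c ≤ 132572 → Wlo a b c < 980000 → InList a b c := by
  decide +kernel

section

variable {φ : ℝ} (hφ : φ ^ 3 = φ + 1)
include hφ

lemma norm_Wc_expand (a b c : ℤ) : ‖Wc φ a b c‖ ^ 2 = (a : ℝ) ^ 2 - b * c + b ^ 2 * (φ ^ 2 - 1)
    + c ^ 2 * (1 + φ - φ ^ 2) - a * b * φ + a * c * (2 - φ ^ 2) := by
  have h := sI_sq hφ
  rw [Complex.sq_norm, Complex.normSq_apply, Wc_re hφ, Wc_im hφ]
  have e : ((b - c * φ) * sI φ) * ((b - c * φ) * sI φ) = (b - c * φ) ^ 2 * ((3 * φ ^ 2 - 4) / 4) := by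
    rw [← h]; ring
  rw [e]
  linear_combination (-(3 / 2) * (b : ℝ) * c + (c : ℝ) ^ 2 * φ + (1 / 2 : ℝ) * b * c) * hφ

/-- Bounds for the coordinates. -/
lemma coord_bounds (a b c : ℤ) (h1 : 999 / 1000 ≤ Rr φ a b c) (h2 : Rr φ a b c ≤ φ + 1 / 1000)
    (h3 : ‖Wc φ a b c‖ ^ 2 < 98 / 10) :
    (-4 < (b : ℝ) ∧ (b : ℝ) < 4) ∧ (-4 < (c : ℝ) ∧ (c : ℝ) < 4) := by
  obtain ⟨p1, p2⟩ := phi_fine hφ
  obtain ⟨q1, q2⟩ := phi_sq_fine hφ
  have hs := sI_sq hφ
  have hW : ‖Wc φ a b c‖ ^ 2 = (Wc φ a b c).re ^ 2 + (Wc φ a b c).im ^ 2 := by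
    rw [Complex.sq_norm, Complex.normSq_apply]; ring
  rw [hW] at h3
  have hre' := Wc_re hφ a b c
  have him' := Wc_im hφ a b c
  generalize (Wc φ a b c).re = re at *
  generalize (Wc φ a b c).im = im at *
  clear hW
  obtain ⟨J, hJ⟩ : ∃ J : ℝ, J = b - c * φ := ⟨_, rfl⟩
  rw [← hJ] at him'
  have hJ2 : J ^ 2 * ((3 * φ ^ 2 - 4) / 4) = im ^ 2 := by rw [him', ← hs]; ring
  have hJb : -5.58 < J ∧ J < 5.58 := by
    have : J ^ 2 < 5.58 ^ 2 := by
      by_contra hcon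
      have hcon := not_lt.1 hcon
      have h5 : (5.58 : ℝ) ^ 2 * ((3 * φ ^ 2 - 4) / 4) ≤ J ^ 2 * ((3 * φ ^ 2 - 4) / 4) :=
        mul_le_mul_of_nonneg_right hcon (by linarith)
      have h6 := sq_nonneg re
      linarith
    exact abs_lt.1 (abs_lt_of_sq_lt_sq this (by norm_num))
  have hreb : -3.14 < re ∧ re < 3.14 := by
    have : re ^ 2 < 3.14 ^ 2 := by
      have h6 := sq_nonneg im
      linarith
    exact abs_lt.1 (abs_lt_of_sq_lt_sq this (by norm_num))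
  obtain ⟨j1, j2⟩ := hJb
  obtain ⟨r1, r2⟩ := hreb
  rw [Rr] at h1 h2
  have ediff : (a : ℝ) + b * φ + c * φ ^ 2 - re = 3 / 2 * φ * b + (3 / 2 * φ ^ 2 - 1) * c := by
    rw [hre']; ring
  obtain ⟨Δ, hΔ⟩ : ∃ Δ : ℝ, Δ = (a : ℝ) + b * φ + c * φ ^ 2 - re := ⟨_, rfl⟩
  rw [← hΔ] at ediff
  have d1 : -2.15 < Δ := by linarith
  have d2 : Δ < 4.47 := by linarith
  have ec : (3 * φ ^ 2 - 1) * c = Δ - 3 / 2 * (φ * J) := by rw [ediff, hJ]; ring
  have eb : (3 * φ ^ 2 - 1) * b = φ * Δ + (3 / 2 * φ ^ 2 - 1) * J := by rw [ediff, hJ]; ring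
  have f0 : 0 < φ := by linarith
  have f1 : φ * J < 7.4 := by
    have : φ * J ≤ φ * 5.58 := mul_le_mul_of_nonneg_left j2.le f0.le
    linarith
  have f2 : -7.4 < φ * J := by
    have : φ * (-5.58) ≤ φ * J := mul_le_mul_of_nonneg_left j1.le f0.le
    linarith
  have g0 : 0 < 3 / 2 * φ ^ 2 - 1 := by linarith
  have f3 : (3 / 2 * φ ^ 2 - 1) * J < 9.2 := by
    have : (3 / 2 * φ ^ 2 - 1) * J ≤ (3 / 2 * φ ^ 2 - 1) * 5.58 :=
      mul_le_mul_of_nonneg_left j2.le g0.le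
    linarith
  have f4 : -9.2 < (3 / 2 * φ ^ 2 - 1) * J := by
    have : (3 / 2 * φ ^ 2 - 1) * (-5.58) ≤ (3 / 2 * φ ^ 2 - 1) * J :=
      mul_le_mul_of_nonneg_left j1.le g0.le
    linarith
  have f5 : φ * Δ < 6 := by
    have : φ * Δ ≤ φ * 4.47 := mul_le_mul_of_nonneg_left d2.le f0.le
    linarith
  have f6 : -3 < φ * Δ := by
    have : φ * (-2.15) ≤ φ * Δ := mul_le_mul_of_nonneg_left d1.le f0.le
    linarith
  have g1 : 0 < 3 * φ ^ 2 - 1 := by linarith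
  refine ⟨⟨?_, ?_⟩, ?_, ?_⟩
  · by_contra hcon
    have hcon := not_lt.1 hcon
    have : (3 * φ ^ 2 - 1) * b ≤ (3 * φ ^ 2 - 1) * (-4) := mul_le_mul_of_nonneg_left hcon g1.le
    linarith
  · by_contra hcon
    have hcon := not_lt.1 hcon
    have : (3 * φ ^ 2 - 1) * 4 ≤ (3 * φ ^ 2 - 1) * b := mul_le_mul_of_nonneg_left hcon g1.le
    linarith
  · by_contra hcon
    have hcon := not_lt.1 hcon
    have : (3 * φ ^ 2 - 1) * c ≤ (3 * φ ^ 2 - 1) * (-4) := mul_le_mul_of_nonneg_left hcon g1.le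
    linarith
  · by_contra hcon
    have hcon := not_lt.1 hcon
    have : (3 * φ ^ 2 - 1) * 4 ≤ (3 * φ ^ 2 - 1) * c := mul_le_mul_of_nonneg_left hcon g1.le
    linarith

/-- Elements with real embedding about `[1, φ]` and small complex embedding. -/
theorem classify (a b c : ℤ) (h1 : 999 / 1000 ≤ Rr φ a b c) (h2 : Rr φ a b c ≤ φ + 1 / 1000)
    (h3 : ‖Wc φ a b c‖ ^ 2 < 98 / 10) : InList a b c := by
  obtain ⟨p1, p2⟩ := phi_fine hφ
  obtain ⟨q1, q2⟩ := phi_sq_fine hφ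
  obtain ⟨⟨hb2, hb1⟩, hc2, hc1⟩ := coord_bounds hφ a b c h1 h2 h3
  rw [Rr] at h1 h2
  have hc1' : c ≤ 3 := by have : c < 4 := by exact_mod_cast hc1
                          omega
  have hc2' : -3 ≤ c := by have : -4 < c := by exact_mod_cast hc2
                           omega
  have hb1' : b ≤ 3 := by have : b < 4 := by exact_mod_cast hb1
                          omega
  have hb2' : -3 ≤ b := by have : -4 < b := by exact_mod_cast hb2
                           omega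
  have hb1r : (b : ℝ) ≤ 3 := by exact_mod_cast hb1'
  have hb2r : (-3 : ℝ) ≤ b := by exact_mod_cast hb2'
  have hc1r : (c : ℝ) ≤ 3 := by exact_mod_cast hc1'
  have hc2r : (-3 : ℝ) ≤ c := by exact_mod_cast hc2'
  have f0 : 0 < φ := by linarith
  have e1 : φ * b ≤ φ * 3 := mul_le_mul_of_nonneg_left hb1r f0.le
  have e2 : φ * (-3) ≤ φ * b := mul_le_mul_of_nonneg_left hb2r f0.le
  have e3 : φ ^ 2 * c ≤ φ ^ 2 * 3 := mul_le_mul_of_nonneg_left hc1r (sq_nonneg φ)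
  have e4 : φ ^ 2 * (-3) ≤ φ ^ 2 * c := mul_le_mul_of_nonneg_left hc2r (sq_nonneg φ)
  have ha1 : (a : ℝ) < 12 := by linarith
  have ha2 : (-12 : ℝ) < a := by linarith
  have ha1' : a ≤ 11 := by have : a < 12 := by exact_mod_cast ha1
                           omega
  have ha2' : -11 ≤ a := by have : -12 < a := by exact_mod_cast ha2
                            omega
  -- the finite check
  have k1 : ((132471 : ℤ) : ℝ) ≤ 100000 * φ := by push_cast; linarith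
  have k2 : 100000 * φ ≤ ((132472 : ℤ) : ℝ) := by push_cast; linarith
  have k3 : ((175485 : ℤ) : ℝ) ≤ 100000 * φ ^ 2 := by push_cast; linarith
  have k4 : 100000 * φ ^ 2 ≤ ((175489 : ℤ) : ℝ) := by push_cast; linarith
  have k5 : ((75485 : ℤ) : ℝ) ≤ 100000 * (φ ^ 2 - 1) := by push_cast; linarith
  have k6 : 100000 * (φ ^ 2 - 1) ≤ ((75489 : ℤ) : ℝ) := by push_cast; linarith
  have k7 : ((56982 : ℤ) : ℝ) ≤ 100000 * (1 + φ - φ ^ 2) := by push_cast; linarith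
  have k8 : 100000 * (1 + φ - φ ^ 2) ≤ ((56987 : ℤ) : ℝ) := by push_cast; linarith
  have k9 : ((24511 : ℤ) : ℝ) ≤ 100000 * (2 - φ ^ 2) := by push_cast; linarith
  have k10 : 100000 * (2 - φ ^ 2) ≤ ((24515 : ℤ) : ℝ) := by push_cast; linarith
  apply chk_all a (Finset.mem_Icc.2 ⟨ha2', ha1'⟩) b (Finset.mem_Icc.2 ⟨hb2', hb1'⟩) c
    (Finset.mem_Icc.2 ⟨hc2', hc1'⟩)
  · have m1 := le_mhi (k := b) k1 k2
    have m2 := le_mhi (k := c) k3 k4
    have : ((99900 : ℤ) : ℝ) ≤ ((Rhi a b c : ℤ) : ℝ) := by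
      rw [Rhi]; push_cast; linarith
    exact_mod_cast this
  · have m1 := mlo_le (k := b) k1 k2
    have m2 := mlo_le (k := c) k3 k4
    have : ((Rlo a b c : ℤ) : ℝ) < ((132573 : ℤ) : ℝ) := by
      rw [Rlo]; push_cast; linarith
    have h : Rlo a b c < 132573 := by exact_mod_cast this
    omega
  · have m1 := mlo_le (k := b ^ 2) k5 k6
    have m2 := mlo_le (k := c ^ 2) k7 k8
    have m3 := le_mhi (k := a * b) k1 k2
    have m4 := mlo_le (k := a * c) k9 k10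
    rw [norm_Wc_expand hφ a b c] at h3
    have : ((Wlo a b c : ℤ) : ℝ) < ((980000 : ℤ) : ℝ) := by
      rw [Wlo]
      push_cast at m1 m2 m3 m4 ⊢
      linarith
    exact_mod_cast this

end

end Pool.Agent.Helper54.Growth
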