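import Mathlib

/-!
# Equidistribution of an irrational rotation, elementary proof with counting functions
-/

set_option autoImplicit false

namespace Pool.Agent.Helper54.Growth

open Filter Finset

/-- Pairwise exclusive shifts: `K` times the count is at most `L + Σ j i`. -/
lemma mul_count_le (P : ℕ → Prop) [DecidablePred P] (K : ℕ) (j : ℕ → ℕ)
    (hdisj : ∀ n i k, i < k → k < K → P (n + j i) → ¬ P (n + j k)) (L : ℕ) :
    K * Nat.count P L ≤ L + ∑ i ∈ range K, j i := by
  -- shifted counts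
  have h1 : ∀ i, Nat.count P L ≤ Nat.count (fun n => P (n + j i)) L + j i := by
    intro i
    have a1 : Nat.count P (j i + L) = Nat.count P (j i) + Nat.count (fun n => P (j i + n)) L :=
      Nat.count_add P (j i) L
    have a2 : Nat.count P L ≤ Nat.count P (j i + L) := Nat.count_monotone P (by omega)
    have a3 : Nat.count P (j i) ≤ j i := Nat.count_le P
    have a4 : Nat.count (fun n => P (j i + n)) L = Nat.count (fun n => P (n + j i)) L := by
      congr 1
      ext n
      rw [add_comm]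
    omega
  have h2 : ∀ L, ∑ i ∈ range K, Nat.count (fun n => P (n + j i)) L ≤ L := by
    intro L
    induction L with
    | zero => simp
    | succ L ih =>
      have e : ∀ i, Nat.count (fun n => P (n + j i)) (L + 1)
          = Nat.count (fun n => P (n + j i)) L + if P (L + j i) then 1 else 0 := by
        intro i; rw [Nat.count_succ]
      simp only [e, sum_add_distrib]
      have h3 : ∑ i ∈ range K, (if P (L + j i) then 1 else 0) ≤ 1 := by
        rw [← card_filter, card_le_one]
        intro a ha b hb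
        rw [mem_filter, mem_range] at ha hb
        by_contra hab
        rcases lt_or_gt_of_ne hab with h | h
        · exact hdisj L a b h hb.1 ha.2 hb.2
        · exact hdisj L b a h ha.1 hb.2 ha.2
      omega
  calc K * Nat.count P L = ∑ i ∈ range K, Nat.count P L := by simp
    _ ≤ ∑ i ∈ range K, (Nat.count (fun n => P (n + j i)) L + j i) := sum_le_sum fun i _ => h1 i
    _ = ∑ i ∈ range K, Nat.count (fun n => P (n + j i)) L + ∑ i ∈ range K, j i := sum_add_distrib
    _ ≤ _ := by have := h2 L; omega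

/-- Some natural multiple of an irrational number is close to a given number modulo one. -/
lemma exists_mul_near {a : ℝ} (ha : Irrational a) (b : ℝ) (hb0 : 0 ≤ b) (hb1 : b ≤ 1) {δ : ℝ}
    (hδ : 0 < δ) : ∃ J : ℕ, ∃ m : ℤ, |J * a - m - b| < δ := by
  -- a small nonzero multiple
  obtain ⟨n, hn⟩ := exists_nat_gt (1 / δ)
  have hn0 : 0 < n := by
    have : (0:ℝ) < n := lt_trans (by positivity) hn
    exact_mod_cast this
  obtain ⟨P, q, hq0, -, hq⟩ := Real.exists_int_int_abs_mul_sub_le a hn0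
  -- `|q a - P| ≤ 1 / (n + 1)`
  obtain ⟨q', rfl⟩ := Int.eq_ofNat_of_zero_le hq0.le
  set ε : ℝ := (q' : ℝ) * a - P with hε
  have hq'0 : q' ≠ 0 := by
    rintro rfl; simp at hq0
  have hε1 : |ε| < δ := by
    have h1 : |ε| ≤ 1 / ((n : ℝ) + 1) := by simpa [hε] using hq
    have h2 : 1 / ((n : ℝ) + 1) < δ := by
      rw [div_lt_iff₀ (by positivity)]
      rw [div_lt_iff₀ hδ] at hn
      nlinarith
    linarith
  have hε0 : ε ≠ 0 := by
    intro h0
    have : (q' : ℝ) * a = P := by linarith
    exact (ha.natCast_mul hq'0).ne_int P this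
  rcases lt_or_gt_of_ne hε0 with hneg | hpos
  · -- negative: go down to `b - 1`
    set t : ℕ := ⌊(1 - b) / (-ε)⌋₊ with ht
    have h1 : (t : ℝ) ≤ (1 - b) / (-ε) :=
      Nat.floor_le (div_nonneg (by linarith) (by linarith))
    have h2 : (1 - b) / (-ε) < t + 1 := Nat.lt_floor_add_one _
    rw [le_div_iff₀ (by linarith)] at h1
    rw [div_lt_iff₀ (by linarith)] at h2
    refine ⟨t * q', t * P - 1, ?_⟩
    have e : ((t * q' : ℕ) : ℝ) * a - ((t * P - 1 : ℤ) : ℝ) - b = t * ε + (1 - b) := by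
      push_cast; rw [hε]; ring
    rw [e]
    rw [abs_of_neg hneg] at hε1
    rw [abs_lt]
    constructor <;> nlinarith
  · set t : ℕ := ⌊b / ε⌋₊ with ht
    have h1 : (t : ℝ) ≤ b / ε := Nat.floor_le (div_nonneg hb0 hpos.le)
    have h2 : b / ε < t + 1 := Nat.lt_floor_add_one _
    rw [le_div_iff₀ hpos] at h1
    rw [div_lt_iff₀ hpos] at h2
    refine ⟨t * q', t * P, ?_⟩
    have e : ((t * q' : ℕ) : ℝ) * a - ((t * P : ℤ) : ℝ) - b = t * ε - b := by
      push_cast; rw [hε]; ring
    rw [e]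
    rw [abs_of_pos hpos] at hε1
    rw [abs_lt]
    constructor <;> nlinarith

/-- Arcs of length less than `1 / K` have upper density at most `1 / K`. -/
lemma count_short_arc {a : ℝ} (ha : Irrational a) {K : ℕ} (hK : 0 < K) {ℓ : ℝ}
    (hℓK : ℓ * K < 1) :
    ∃ C : ℕ, ∀ (b : ℝ) (L : ℕ), K * Nat.count (fun n : ℕ => Int.fract (n * a + b) < ℓ) L ≤ L + C := by
  have hKr : (0:ℝ) < K := by exact_mod_cast hK
  have hgap : 0 < (1 - ℓ * K) / (K * K) := div_pos (by linarith) (by positivity)
  obtain ⟨J, m, hJ⟩ := exists_mul_near ha (1 / (K : ℝ)) (by positivity)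
    (by rw [div_le_one hKr]; exact_mod_cast hK) hgap
  refine ⟨∑ i ∈ range K, i * J, ?_⟩
  intro b L
  apply mul_count_le (fun n : ℕ => Int.fract ((n : ℝ) * a + b) < ℓ) K (fun i => i * J)
  intro n i k hik hkK h1 h2
  have h1 : Int.fract (((n + i * J : ℕ) : ℝ) * a + b) < ℓ := h1
  have h2 : Int.fract (((n + k * J : ℕ) : ℝ) * a + b) < ℓ := h2
  set x : ℝ := ((n + i * J : ℕ) : ℝ) * a + b with hx
  set y : ℝ := ((n + k * J : ℕ) : ℝ) * a + b with hy
  set u : ℝ := J * a - m - 1 / (K : ℝ) with hu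
  obtain ⟨d, hd⟩ : ∃ d : ℕ, k = i + d := ⟨k - i, by omega⟩
  have hd1 : 1 ≤ d := by omega
  have hdK : d + 1 ≤ K := by omega
  have hdr1 : (1:ℝ) ≤ d := by exact_mod_cast hd1
  have hdrK : (d:ℝ) + 1 ≤ K := by exact_mod_cast hdK
  have hyx : y - x = d * (m : ℝ) + d / (K : ℝ) + d * u := by
    rw [hx, hy, hu, hd]
    push_cast
    ring
  -- bounds for `d * u`
  have hub : |(d : ℝ) * u| < (1 - ℓ * K) / K := by
    rw [abs_mul, abs_of_nonneg (by positivity : (0:ℝ) ≤ d)]
    have h3 : (d : ℝ) * |u| ≤ K * |u| := mul_le_mul_of_nonneg_right (by linarith) (abs_nonneg _)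
    have h4 : (K : ℝ) * |u| < K * ((1 - ℓ * K) / (K * K)) := mul_lt_mul_of_pos_left hJ hKr
    have h5 : (K : ℝ) * ((1 - ℓ * K) / (K * K)) = (1 - ℓ * K) / K := by field_simp
    linarith
  have hub' := abs_lt.1 hub
  have e1 : (1 - ℓ * K) / K = 1 / K - ℓ := by field_simp
  rw [e1] at hub'
  have hdk1 : 1 / (K : ℝ) ≤ d / K := div_le_div_of_nonneg_right hdr1 hKr.le
  have hdk2 : (d : ℝ) / K ≤ 1 - 1 / K := by
    rw [div_le_iff₀ hKr]
    have : (1 - 1 / (K : ℝ)) * K = K - 1 := by field_simp
    rw [this]; linarith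
  -- the difference of the fractional parts
  have hfx := Int.fract_nonneg x
  have hfy := Int.fract_nonneg y
  have hfd : Int.fract y - Int.fract x = (y - x) - ((⌊y⌋ - ⌊x⌋ : ℤ) : ℝ) := by
    rw [Int.fract, Int.fract]; push_cast; ring
  set r : ℤ := ⌊y⌋ - ⌊x⌋ - d * m with hr
  have hfd2 : Int.fract y - Int.fract x = d / (K : ℝ) + d * u - r := by
    rw [hfd, hyx, hr]; push_cast; ring
  have hr1 : (r : ℝ) < 1 := by linarith
  have hr2 : (0 : ℝ) < r := by linarith
  have hr3 : r < 1 := by exact_mod_cast hr1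
  have hr4 : 0 < r := by exact_mod_cast hr2
  omega

/-- Upper density of arcs. -/
lemma count_arc_le {a : ℝ} (ha : Irrational a) {c : ℝ} (hc : 0 < c) {ε : ℝ}
    (hε : 0 < ε) :
    ∃ C : ℝ, ∀ (b : ℝ) (L : ℕ),
      (Nat.count (fun n : ℕ => Int.fract (n * a + b) < c) L : ℝ) ≤ (c + ε) * L + C := by
  obtain ⟨K, hK⟩ := exists_nat_gt (1 / ε)
  have hK0r : (0:ℝ) < K := lt_trans (by positivity) hK
  have hK0 : 0 < K := by exact_mod_cast hK0r
  set M : ℕ := ⌊c * K⌋₊ + 1 with hM
  have hM1 : c * K < M := by rw [hM]; push_cast; exact Nat.lt_floor_add_one _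
  have hM2 : (M : ℝ) ≤ c * K + 1 := by
    rw [hM]; push_cast
    have := Nat.floor_le (by positivity : 0 ≤ c * K)
    linarith
  have hMpos : (0:ℝ) < M := lt_trans (by positivity) hM1
  set ℓ : ℝ := c / M with hℓ
  have hℓ0 : 0 < ℓ := by positivity
  have hℓK : ℓ * K < 1 := by
    rw [hℓ, div_mul_eq_mul_div, div_lt_one hMpos]; exact hM1
  obtain ⟨C, hC⟩ := count_short_arc ha hK0 hℓK
  refine ⟨M * C / K, ?_⟩
  intro b L
  -- cover the arc by `M` short arcs
  have hcov : ∀ L : ℕ, Nat.count (fun n : ℕ => Int.fract ((n : ℝ) * a + b) < c) L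
      ≤ ∑ i ∈ range M, Nat.count (fun n : ℕ => Int.fract ((n : ℝ) * a + (b - i * ℓ)) < ℓ) L := by
    intro L
    induction L with
    | zero => simp
    | succ L ih =>
      simp only [Nat.count_succ, sum_add_distrib]
      have h3 : (if Int.fract ((L : ℝ) * a + b) < c then 1 else 0)
          ≤ ∑ i ∈ range M, (if Int.fract ((L : ℝ) * a + (b - i * ℓ)) < ℓ then 1 else 0) := by
        split_ifs with h
        · set f := Int.fract ((L : ℝ) * a + b) with hf
          have hf0 : 0 ≤ f := Int.fract_nonneg _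
          set i := ⌊f / ℓ⌋₊ with hi
          have hi1 : (i : ℝ) ≤ f / ℓ := Nat.floor_le (by positivity)
          have hi2 : f / ℓ < i + 1 := Nat.lt_floor_add_one _
          rw [le_div_iff₀ hℓ0] at hi1
          rw [div_lt_iff₀ hℓ0] at hi2
          have hiM : i < M := by
            have h4 : (i : ℝ) * ℓ < c := by linarith
            have h5 : c = M * ℓ := by rw [hℓ]; field_simp
            rw [h5] at h4
            exact_mod_cast lt_of_mul_lt_mul_right h4 hℓ0.le
          have hfr : Int.fract ((L : ℝ) * a + (b - i * ℓ)) = f - i * ℓ := by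
            rw [Int.fract_eq_iff]
            have hf1 : f < 1 := Int.fract_lt_one _
            refine ⟨by linarith, by nlinarith [mul_nonneg (Nat.cast_nonneg (α := ℝ) i) hℓ0.le], ⌊(L : ℝ) * a + b⌋, ?_⟩
            rw [hf, Int.fract]; ring
          have h6 : (if Int.fract ((L : ℝ) * a + (b - i * ℓ)) < ℓ then 1 else 0) = 1 := by
            rw [if_pos]; rw [hfr]; linarith
          calc 1 = (if Int.fract ((L : ℝ) * a + (b - i * ℓ)) < ℓ then 1 else 0) := h6.symm
            _ ≤ _ := single_le_sum (f := fun i : ℕ =>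
                (if Int.fract ((L : ℝ) * a + (b - i * ℓ)) < ℓ then 1 else 0))
                (fun _ _ => Nat.zero_le _) (mem_range.2 hiM)
        · exact Nat.zero_le _
      omega
  have h1 := hcov L
  have h2 : (K : ℝ) * Nat.count (fun n : ℕ => Int.fract ((n : ℝ) * a + b) < c) L ≤ M * (L + C) := by
    have h3 : K * Nat.count (fun n : ℕ => Int.fract ((n : ℝ) * a + b) < c) L ≤ M * (L + C) := by
      calc K * Nat.count (fun n : ℕ => Int.fract ((n : ℝ) * a + b) < c) L
          ≤ K * ∑ i ∈ range M, Nat.count (fun n : ℕ => Int.fract ((n : ℝ) * a + (b - i * ℓ)) < ℓ) L :=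
            Nat.mul_le_mul_left _ h1
        _ = ∑ i ∈ range M, K * Nat.count (fun n : ℕ => Int.fract ((n : ℝ) * a + (b - i * ℓ)) < ℓ) L :=
            mul_sum _ _ _
        _ ≤ ∑ i ∈ range M, (L + C) := sum_le_sum fun i _ => hC _ L
        _ = M * (L + C) := by simp
    exact_mod_cast h3
  have h4 : (Nat.count (fun n : ℕ => Int.fract ((n : ℝ) * a + b) < c) L : ℝ) ≤ M * (L + C) / K := by
    rw [le_div_iff₀ hK0r]; linarith
  refine h4.trans ?_
  have h5 : (M : ℝ) / K ≤ c + ε := by
    rw [div_le_iff₀ hK0r]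
    have h6 : 1 < ε * K := by rwa [div_lt_iff₀ hε, mul_comm] at hK
    nlinarith
  have h7 : (M : ℝ) * (L + C) / K = M / K * L + M * C / K := by ring
  rw [h7]
  have h8 : (M : ℝ) / K * L ≤ (c + ε) * L := mul_le_mul_of_nonneg_right h5 (by positivity)
  linarith

/-- Lower density of arcs. -/
lemma le_count_arc {a : ℝ} (ha : Irrational a) {c : ℝ} (hc : 0 < c) (hc1 : c < 1) {ε : ℝ}
    (hε : 0 < ε) :
    ∃ C : ℝ, ∀ (b : ℝ) (L : ℕ),
      (c - ε) * L - C ≤ (Nat.count (fun n : ℕ => Int.fract (n * a + b) < c) L : ℝ) := by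
  obtain ⟨C, hC⟩ := count_arc_le ha (c := 1 - c) (by linarith) hε
  refine ⟨C, ?_⟩
  intro b L
  have h1 := hC (b - c) L
  have hsum : ∀ L : ℕ, L ≤ Nat.count (fun n : ℕ => Int.fract ((n : ℝ) * a + b) < c) L
      + Nat.count (fun n : ℕ => Int.fract ((n : ℝ) * a + (b - c)) < 1 - c) L := by
    intro L
    induction L with
    | zero => simp
    | succ L ih =>
      simp only [Nat.count_succ]
      have : (1:ℕ) ≤ (if Int.fract ((L : ℝ) * a + b) < c then 1 else 0)
          + (if Int.fract ((L : ℝ) * a + (b - c)) < 1 - c then 1 else 0) := by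
        by_cases h : Int.fract ((L : ℝ) * a + b) < c
        · rw [if_pos h]; omega
        · have hfr : Int.fract ((L : ℝ) * a + (b - c)) = Int.fract ((L : ℝ) * a + b) - c := by
            rw [Int.fract_eq_iff]
            have hf1 := Int.fract_lt_one ((L : ℝ) * a + b)
            refine ⟨by linarith, by linarith, ⌊(L : ℝ) * a + b⌋, ?_⟩
            rw [Int.fract]; ring
          have h2 : Int.fract ((L : ℝ) * a + (b - c)) < 1 - c := by
            rw [hfr]
            have hf1 := Int.fract_lt_one ((L : ℝ) * a + b)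
            linarith
          rw [if_pos h2]; omega
      omega
  have h2 : (L : ℝ) ≤ Nat.count (fun n : ℕ => Int.fract ((n : ℝ) * a + b) < c) L
      + Nat.count (fun n : ℕ => Int.fract ((n : ℝ) * a + (b - c)) < 1 - c) L := by
    exact_mod_cast hsum L
  nlinarith

end Pool.Agent.Helper54.Growth
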