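import Pool.Agent.Lib.Helper54.Growth.Upper
import Pool.Agent.Lib.Helper54.Growth.Equi

/-!
# The value of `G` from the density of the indices of denominators
-/

set_option autoImplicit false

namespace Pool.Agent.Helper54.Growth

open Filter

open Classical in
lemma count_eq_of_none {P : ℕ → Prop} {a b : ℕ} (hab : a ≤ b)
    (h : ∀ k, a ≤ k → k < b → ¬ P k) : Nat.count P b = Nat.count P a := by
  obtain ⟨d, rfl⟩ := Nat.exists_eq_add_of_le hab
  induction d with
  | zero => rfl
  | succ d ih =>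
    rw [← add_assoc, Nat.count_succ, if_neg (h (a + d) (by omega) (by omega)), add_zero]
    exact ih (by omega) (fun k h1 h2 => h k h1 (by omega))

section

variable {N : (Fin 2 → ℝ) → ℝ} (hN : IsNorm2 N) {θ : Fin 2 → ℝ} (hθ : Adm θ)
  {X : ℕ → ℕ} {S : ℕ → Prop} {n0 : ℕ}
  (hX : ∀ n, n0 ≤ n → X n < X (n + 1))
  (hden : ∀ k, X n0 ≤ k → (IsDen N θ k ↔ ∃ n, n0 ≤ n ∧ X n = k ∧ S n))
include hX

lemma X_mono {m n : ℕ} (hm : n0 ≤ m) (hmn : m < n) : X m < X n := by
  obtain ⟨d, rfl⟩ := Nat.exists_eq_add_of_lt hmn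
  induction d with
  | zero => exact hX m hm
  | succ d ih => exact (ih (by omega)).trans (hX (m + d + 1) (by omega))

include hden

open Classical in
lemma count_isDen (d : ℕ) : Nat.count (IsDen N θ) (X (n0 + d)) + Nat.count S n0
    = Nat.count (IsDen N θ) (X n0) + Nat.count S (n0 + d) := by
  induction d with
  | zero => simp
  | succ d ih =>
    have hmono := hX (n0 + d) (by omega)
    have e1 : n0 + (d + 1) = n0 + d + 1 := rfl
    have h1 : Nat.count (IsDen N θ) (X (n0 + (d + 1))) = Nat.count (IsDen N θ) (X (n0 + d) + 1) := by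
      apply count_eq_of_none hmono
      intro k h1 h2 h3
      have hle : X n0 ≤ X (n0 + d) := by
        rcases Nat.eq_zero_or_pos d with rfl | hd
        · exact le_rfl
        · exact (X_mono hX (m := n0) (n := n0 + d) le_rfl (by omega)).le
      obtain ⟨n, hn, rfl, -⟩ := (hden k (by omega)).1 h3
      rcases lt_trichotomy n (n0 + d) with h | h | h
      · have := X_mono hX hn h; omega
      · rw [h] at h1; omega
      · rcases Nat.lt_or_ge n (n0 + (d + 1)) with h' | h'
        · omega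
        · rcases lt_or_eq_of_le h' with h'' | h''
          · have h5 := X_mono hX (m := n0 + (d + 1)) (by omega) h''
            rw [e1] at h5; omega
          · rw [← h'', e1] at h2; omega
    have h2 : (IsDen N θ (X (n0 + d)) ↔ S (n0 + d)) := by
      have hle : X n0 ≤ X (n0 + d) := by
        rcases Nat.eq_zero_or_pos d with rfl | hd
        · exact le_rfl
        · exact (X_mono hX (m := n0) (n := n0 + d) le_rfl (by omega)).le
      rw [hden _ hle]
      constructor
      · rintro ⟨n, hn, h3, h4⟩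
        rcases lt_trichotomy n (n0 + d) with h | h | h
        · have := X_mono hX hn h; omega
        · rwa [h] at h4
        · have := X_mono hX (m := n0 + d) (by omega) h; omega
      · intro h; exact ⟨n0 + d, by omega, rfl, h⟩
    rw [h1, Nat.count_succ, ← add_assoc n0 d 1, Nat.count_succ S (n0 + d)]
    by_cases h3 : S (n0 + d)
    · rw [if_pos h3, if_pos (h2.2 h3)]; omega
    · rw [if_neg h3, if_neg (fun h => h3 (h2.1 h))]; omega

include hN hθ

open Classical in
/-- `M ν = X n` with `|count S n - ν|` bounded. -/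
lemma M_eq : ∃ C1 ν0 : ℕ, ∀ ν, ν0 ≤ ν → ∃ n, n0 ≤ n ∧ M N θ ν = X n ∧
    Nat.count S n ≤ ν + C1 ∧ ν ≤ Nat.count S n + C1 := by
  refine ⟨Nat.count S n0 + Nat.count (IsDen N θ) (X n0) + 1, X n0 + 1, ?_⟩
  intro ν hν
  have hinf := isDen_infinite hN hθ
  have hP : IsDen N θ (Nat.nth (IsDen N θ) (ν - 1)) := Nat.nth_mem_of_infinite hinf (ν - 1)
  have hge : ν - 1 ≤ Nat.nth (IsDen N θ) (ν - 1) :=
    (Nat.nth_strictMono hinf).le_apply
  obtain ⟨n, hn, h1, h2⟩ := (hden _ (by omega)).1 hP
  refine ⟨n, hn, h1.symm, ?_⟩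
  have h3 : Nat.count (IsDen N θ) (Nat.nth (IsDen N θ) (ν - 1)) = ν - 1 :=
    Nat.count_nth_of_infinite hinf (ν - 1)
  rw [← h1] at h3
  obtain ⟨d, rfl⟩ := Nat.exists_eq_add_of_le hn
  have h4 := count_isDen hX hden d
  omega

open Classical in
/-- The value of `G`. -/
theorem G_eq {φ : ℝ} (hφ1 : 1 < φ) {c c1 c2 : ℝ} (hc : 0 < c) (hc1 : 0 < c1) (hc2 : 0 < c2)
    (hlow : ∀ n, n0 ≤ n → c1 * φ ^ n ≤ X n) (hup : ∀ n, n0 ≤ n → (X n : ℝ) ≤ c2 * φ ^ n)
    (hdens1 : ∀ ε : ℝ, 0 < ε → ∃ C : ℝ, ∀ L : ℕ, (Nat.count S L : ℝ) ≤ (c + ε) * L + C)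
    (hdens2 : ∀ ε : ℝ, 0 < ε → ∃ C : ℝ, ∀ L : ℕ, (c - ε) * L - C ≤ (Nat.count S L : ℝ)) :
    G N θ = ((φ ^ (1 / c) : ℝ) : EReal) := by
  have hφ0 : 0 < φ := by linarith
  have hlogφ : 0 < Real.log φ := Real.log_pos hφ1
  obtain ⟨C1, ν0, hM⟩ := M_eq hN hθ hX hden
  have hβ1 : 1 < φ ^ (1 / c) := Real.one_lt_rpow hφ1 (by positivity)
  have hlogβ : Real.log (φ ^ (1 / c)) = Real.log φ / c := by
    rw [Real.log_rpow hφ0]; ring
  apply le_antisymm
  · -- upper bound
    rw [← EReal.le_of_forall_lt_iff_le]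
    intro z hz
    have hz : φ ^ (1 / c) < z := by exact_mod_cast hz
    have hz1 : 1 < z := hβ1.trans hz
    have hlogz : 0 < Real.log z := Real.log_pos hz1
    set c' : ℝ := Real.log φ / Real.log z with hc'
    have hc'0 : 0 < c' := by positivity
    have hc'c : c' < c := by
      rw [hc', div_lt_iff₀ hlogz]
      have h1 : Real.log (φ ^ (1 / c)) < Real.log z := Real.log_lt_log (by positivity) hz
      rw [hlogβ, div_lt_iff₀ hc] at h1
      linarith
    have hφz : φ ^ (1 / c') = z := by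
      rw [hc', one_div_div, Real.rpow_def_of_pos hφ0]
      rw [show Real.log φ * (Real.log z / Real.log φ) = Real.log z by field_simp]
      exact Real.exp_log (by linarith)
    obtain ⟨C, hC⟩ := hdens2 (c - c') (by linarith)
    have hkey : ∀ ν, ν0 ≤ ν → (M N θ ν : ℝ) ≤ (c2 * φ ^ ((C1 + C) / c')) * z ^ ν := by
      intro ν hν
      obtain ⟨n, hn, h1, h2, -⟩ := hM ν hν
      rw [h1]
      have h3 := hC n
      have h4 : (Nat.count S n : ℝ) ≤ ν + C1 := by exact_mod_cast h2
      have h5 : (n : ℝ) ≤ (ν + (C1 + C)) / c' := by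
        rw [le_div_iff₀ hc'0]
        have : (c - (c - c')) * (n : ℝ) = n * c' := by ring
        linarith
      calc (X n : ℝ) ≤ c2 * φ ^ n := hup n hn
        _ = c2 * φ ^ (n : ℝ) := by rw [Real.rpow_natCast]
        _ ≤ c2 * φ ^ ((ν + (C1 + C)) / c') :=
            mul_le_mul_of_nonneg_left (Real.rpow_le_rpow_of_exponent_le hφ1.le h5) hc2.le
        _ = (c2 * φ ^ ((C1 + C) / c')) * z ^ ν := by
            have e : ((ν : ℝ) + (C1 + C)) / c' = (C1 + C) / c' + 1 / c' * ν := by ring
            rw [e, Real.rpow_add hφ0, Real.rpow_mul hφ0.le, hφz, Real.rpow_natCast]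
            ring
    exact G_le z (c2 * φ ^ ((C1 + C) / c')) (by linarith) (by positivity)
      (eventually_atTop.2 ⟨ν0, hkey⟩)
  · -- lower bound
    apply le_G
    intro y hy hyβ
    obtain ⟨z, hz1, hzβ⟩ := exists_between (max_lt hyβ hβ1)
    have hyz : y < z := (le_max_left _ _).trans_lt hz1
    have hz1 : 1 < z := (le_max_right _ _).trans_lt hz1
    have hlogz : 0 < Real.log z := Real.log_pos hz1
    set c' : ℝ := Real.log φ / Real.log z with hc'
    have hc'0 : 0 < c' := by positivity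
    have hc'c : c < c' := by
      rw [hc', lt_div_iff₀ hlogz]
      have h1 : Real.log z < Real.log (φ ^ (1 / c)) := Real.log_lt_log (by linarith) hzβ
      rw [hlogβ, lt_div_iff₀ hc] at h1
      linarith
    have hφz : φ ^ (1 / c') = z := by
      rw [hc', one_div_div, Real.rpow_def_of_pos hφ0]
      rw [show Real.log φ * (Real.log z / Real.log φ) = Real.log z by field_simp]
      exact Real.exp_log (by linarith)
    obtain ⟨C, hC⟩ := hdens1 (c' - c) (by linarith)
    set c3 : ℝ := c1 * φ ^ (-(C1 + C) / c') with hc3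
    have hc3pos : 0 < c3 := by positivity
    have hkey : ∀ ν, ν0 ≤ ν → c3 * z ^ ν ≤ (M N θ ν : ℝ) := by
      intro ν hν
      obtain ⟨n, hn, h1, -, h2⟩ := hM ν hν
      rw [h1]
      have h3 := hC n
      have h4 : (ν : ℝ) ≤ Nat.count S n + C1 := by exact_mod_cast h2
      have h5 : (ν - (C1 + C)) / c' ≤ (n : ℝ) := by
        rw [div_le_iff₀ hc'0]
        have : (c + (c' - c)) * (n : ℝ) = n * c' := by ring
        linarith
      calc c3 * z ^ ν = c1 * φ ^ ((ν - (C1 + C)) / c') := by
            have e : ((ν : ℝ) - (C1 + C)) / c' = -(C1 + C) / c' + 1 / c' * ν := by ring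
            rw [e, Real.rpow_add hφ0, Real.rpow_mul hφ0.le, hφz, Real.rpow_natCast, hc3]
            ring
        _ ≤ c1 * φ ^ (n : ℝ) :=
            mul_le_mul_of_nonneg_left (Real.rpow_le_rpow_of_exponent_le hφ1.le h5) hc1.le
        _ = c1 * φ ^ n := by rw [Real.rpow_natCast]
        _ ≤ X n := hlow n hn
    have hratio : Tendsto (fun ν : ℕ => (1 / c3) * (y / z) ^ ν) atTop (nhds 0) := by
      have := (tendsto_pow_atTop_nhds_zero_of_lt_one (r := y / z) (by positivity)
        ((div_lt_one (by linarith)).2 hyz)).const_mul (1 / c3)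
      rwa [mul_zero] at this
    filter_upwards [hratio.eventually (gt_mem_nhds one_pos), eventually_ge_atTop ν0] with ν h1 h2
    have h3 : (1 / c3) * (y / z) ^ ν = y ^ ν / (c3 * z ^ ν) := by
      rw [div_pow]; field_simp
    rw [h3, div_lt_one (by positivity)] at h1
    exact h1.trans_le (hkey ν h2)

end

end Pool.Agent.Helper54.Growth
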