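import Pool.Agent.Lib.Helper54.Growth.Basic
import Pool.Agent.Lib.Helper54.BestApproxSharp2

/-!
# The ring `ℤ[φ]`, `φ ^ 3 = φ + 1`: real and complex embeddings of `A + B φ + C φ ^ 2`
-/

set_option autoImplicit false

namespace Pool.Agent.Helper54.Growth

open Filter

/-- The norm form. -/
def Nm (A B C : ℤ) : ℤ :=
  A ^ 3 + B ^ 3 + C ^ 3 + 2 * A ^ 2 * C + A * C ^ 2 - A * B ^ 2 - 3 * A * B * C - B * C ^ 2

/-- `√(3 φ ^ 2 - 4) / 2`, the imaginary part of the complex conjugate of `φ`. -/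
noncomputable def sI (φ : ℝ) : ℝ := Real.sqrt (3 * φ ^ 2 - 4) / 2

/-- The complex conjugate of `φ`. -/
noncomputable def pc (φ : ℝ) : ℂ := ⟨-φ / 2, sI φ⟩

/-- The real embedding. -/
noncomputable def Rr (φ : ℝ) (A B C : ℤ) : ℝ := A + B * φ + C * φ ^ 2

/-- The complex embedding. -/
noncomputable def Wc (φ : ℝ) (A B C : ℤ) : ℂ := A + B * pc φ + C * (pc φ) ^ 2

section

variable {φ : ℝ} (hφ : φ ^ 3 = φ + 1)
include hφ

lemma sI_pos : 0 < sI φ := by
  have := disc_pos hφ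
  exact div_pos (Real.sqrt_pos.2 (by linarith)) two_pos

lemma sI_sq : sI φ ^ 2 = (3 * φ ^ 2 - 4) / 4 := by
  have := disc_pos hφ
  rw [sI, div_pow, Real.sq_sqrt (by linarith)]; norm_num

lemma pc_sq : (pc φ) ^ 2 = ⟨1 - φ ^ 2 / 2, -φ * sI φ⟩ := by
  have h := sI_sq hφ
  rw [pc, sq]
  apply Complex.ext
  · simp only [Complex.mul_re]
    linear_combination -h
  · simp only [Complex.mul_im]
    ring

lemma pc_cube : (pc φ) ^ 3 = pc φ + 1 := by
  have h := sI_sq hφ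
  rw [pow_succ, pc_sq hφ, pc]
  apply Complex.ext
  · simp only [Complex.mul_re, Complex.add_re, Complex.one_re]
    linear_combination φ * h + hφ
  · simp only [Complex.mul_im, Complex.add_im, Complex.one_im]
    ring

lemma norm_pc_sq : ‖pc φ‖ ^ 2 * φ = 1 := by
  have h := sI_sq hφ
  rw [Complex.sq_norm, Complex.normSq_apply]
  simp only [pc]
  linear_combination φ * h + hφ

lemma norm_pc_pos : 0 < ‖pc φ‖ := by
  have h := norm_pc_sq hφ
  rcases lt_or_eq_of_le (norm_nonneg (pc φ)) with h' | h'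
  · exact h'
  · rw [← h'] at h; norm_num at h

lemma norm_pc_lt_one : ‖pc φ‖ < 1 := by
  have h := norm_pc_sq hφ
  have h1 := phi_gt_one hφ
  by_contra hcon
  have hcon := not_lt.1 hcon
  nlinarith [mul_nonneg (sub_nonneg.2 hcon) (sub_nonneg.2 hcon)]

lemma norm_pc_pow_sq (n : ℕ) : (‖pc φ‖ ^ n) ^ 2 * φ ^ n = 1 := by
  rw [← pow_mul, mul_comm n 2, pow_mul, ← mul_pow, norm_pc_sq hφ, one_pow]

lemma Wc_re (A B C : ℤ) : (Wc φ A B C).re = A - B * φ / 2 + C * (1 - φ ^ 2 / 2) := by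
  rw [Wc, pc_sq hφ, pc]
  simp [Complex.add_re, Complex.mul_re]
  ring

lemma Wc_im (A B C : ℤ) : (Wc φ A B C).im = (B - C * φ) * sI φ := by
  rw [Wc, pc_sq hφ, pc]
  simp [Complex.add_im, Complex.mul_im]
  ring

lemma Rr_mul_norm (A B C : ℤ) : Rr φ A B C * ‖Wc φ A B C‖ ^ 2 = (Nm A B C : ℝ) := by
  have h := sI_sq hφ
  rw [Complex.sq_norm, Complex.normSq_apply, Wc_re hφ, Wc_im hφ, Rr, Nm]
  have h4 : φ ^ 4 = φ ^ 2 + φ := by
    have : φ ^ 4 = φ * φ ^ 3 := by ring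
    rw [this, hφ]; ring
  have h6 : φ ^ 6 = φ ^ 2 + 2 * φ + 1 := by
    have : φ ^ 6 = φ ^ 3 * φ ^ 3 := by ring
    rw [this, hφ]; ring
  have e : ((B - C * φ) * sI φ) * ((B - C * φ) * sI φ) = (B - C * φ) ^ 2 * ((3 * φ ^ 2 - 4) / 4) := by
    rw [← h]; ring
  rw [e]
  push_cast
  ring_nf
  simp only [hφ, h4, h6]
  ring

lemma phi_unique (t : ℝ) (ht : t ^ 3 = t + 1) : t = φ := by
  have h1 := (phi_bounds hφ).1
  have h : (t - φ) * (t ^ 2 + t * φ + φ ^ 2 - 1) = 0 := by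
    linear_combination ht - hφ
  rcases mul_eq_zero.1 h with h | h
  · linarith
  · nlinarith [sq_nonneg (t + φ / 2)]

lemma lin_indep (A B C : ℤ) (h : Rr φ A B C = 0) : A = 0 ∧ B = 0 ∧ C = 0 := by
  rw [Rr] at h
  by_cases hC : C = 0
  · by_cases hB : B = 0
    · rw [hB, hC] at h
      simp at h
      exact ⟨h, hB, hC⟩
    · exfalso
      apply phi_irr hφ B (-A) hB
      rw [hC] at h
      push_cast at h ⊢
      linarith
  · exfalso
    have h2 : ((B * B - A * C - C * C : ℤ) : ℝ) * φ = ((C * C - A * B : ℤ) : ℝ) := by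
      push_cast
      linear_combination ((B : ℝ) - C * φ) * h + (C : ℝ) ^ 2 * hφ
    by_cases h3 : B * B - A * C - C * C = 0
    · have h4 : C * C - A * B = 0 := by
        rw [h3] at h2
        have : ((C * C - A * B : ℤ) : ℝ) = 0 := by rw [← h2]; simp
        exact_mod_cast this
      have h5 : B ^ 3 = B * C ^ 2 + C ^ 3 := by linear_combination B * h3 - C * h4
      have hCr : (C : ℝ) ≠ 0 := by exact_mod_cast hC
      have h5r : (B : ℝ) ^ 3 = B * C ^ 2 + C ^ 3 := by exact_mod_cast h5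
      have h6 : ((B : ℝ) / C) ^ 3 = (B : ℝ) / C + 1 := by
        rw [div_pow, h5r]
        field_simp
      have h7 := phi_unique hφ _ h6
      apply phi_irr hφ C B hC
      rw [← h7]
      field_simp
    · exact phi_irr hφ _ _ h3 h2

lemma Wc_zero (A B C : ℤ) (h : Wc φ A B C = 0) : A = 0 ∧ B = 0 ∧ C = 0 := by
  have h1 : (Wc φ A B C).im = 0 := by rw [h]; simp
  have h2 : (Wc φ A B C).re = 0 := by rw [h]; simp
  rw [Wc_im hφ] at h1
  rw [Wc_re hφ] at h2
  have h3 : (B : ℝ) - C * φ = 0 := by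
    rcases mul_eq_zero.1 h1 with h | h
    · exact h
    · exact absurd h (sI_pos hφ).ne'
  have hC : C = 0 := by
    by_contra hC
    exact phi_irr hφ C B hC (by linarith)
  rw [hC] at h3 h2
  have hB : (B : ℝ) = 0 := by simpa using h3
  have hB' : B = 0 := by exact_mod_cast hB
  rw [hB'] at h2
  have hA : (A : ℝ) = 0 := by simpa using h2
  exact ⟨by exact_mod_cast hA, hB', hC⟩

/-- The norm is at least one in absolute value. -/
lemma one_le_norm (A B C : ℤ) (h : ¬ (A = 0 ∧ B = 0 ∧ C = 0)) :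
    1 ≤ |Rr φ A B C| * ‖Wc φ A B C‖ ^ 2 := by
  have h1 := Rr_mul_norm hφ A B C
  have h2 : Nm A B C ≠ 0 := by
    intro h0
    rw [h0] at h1
    rcases mul_eq_zero.1 (by simpa using h1 : Rr φ A B C * ‖Wc φ A B C‖ ^ 2 = 0) with h3 | h3
    · exact h (lin_indep hφ A B C h3)
    · exact h (Wc_zero hφ A B C (by simpa using h3))
  have h3 : (1 : ℝ) ≤ |(Nm A B C : ℝ)| := by
    rw [← Int.cast_abs]; exact_mod_cast Int.one_le_abs h2
  rw [← h1, abs_mul, abs_of_nonneg (sq_nonneg ‖Wc φ A B C‖)] at h3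
  exact h3

end

/-- Coordinates of `φ ^ n`. -/
def U : ℕ → ℤ × ℤ × ℤ
  | 0 => (1, 0, 0)
  | (n + 1) => ((U n).2.2, (U n).1 + (U n).2.2, (U n).2.1)

lemma Rr_U {φ : ℝ} (hφ : φ ^ 3 = φ + 1) (n : ℕ) :
    Rr φ (U n).1 (U n).2.1 (U n).2.2 = φ ^ n := by
  induction n with
  | zero => simp [U, Rr]
  | succ n ih =>
    rw [pow_succ, ← ih]
    simp only [U, Rr]
    push_cast
    linear_combination (-((U n).2.2 : ℝ)) * hφ

lemma Wc_U {φ : ℝ} (hφ : φ ^ 3 = φ + 1) (n : ℕ) :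
    Wc φ (U n).1 (U n).2.1 (U n).2.2 = (pc φ) ^ n := by
  induction n with
  | zero => simp [U, Wc]
  | succ n ih =>
    rw [pow_succ, ← ih]
    simp only [U, Wc]
    push_cast
    linear_combination (-((U n).2.2 : ℂ)) * pc_cube hφ

end Pool.Agent.Helper54.Growth
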