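import Pool.Agent.Lib.Helper54.BestApproxRecord

/-!
# Best approximation vectors for `m = 1`, `n = 2`, and the growth exponents `G` and `g`
-/

set_option autoImplicit false

namespace Pool.Agent.Helper54.Growth

open Filter

/-- The condition `(∗)` for `m = 1`, `n = 2`: no nonzero integer multiple of `θ` is an integer
vector. -/
def Adm (θ : Fin 2 → ℝ) : Prop :=
  ∀ q : ℤ, q ≠ 0 → ¬ ∀ i : Fin 2, ∃ a : ℤ, (q : ℝ) * θ i = (a : ℝ)

/-- The error vector `x θ - y` of the integer point `(x, y)`. -/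
def errV (θ : Fin 2 → ℝ) (x : ℤ) (y : Fin 2 → ℤ) : Fin 2 → ℝ :=
  fun i => (x : ℝ) * θ i - (y i : ℝ)

/-- `(x, y)` with `x ≠ 0` is a best approximation vector of `θ` for the norm `N`: the only integer
points `(x', y')` with `|x'| ≤ |x|` and `N (x' θ - y') ≤ N (x θ - y)` are `0` and `± (x, y)`. -/
def IsBest (N : (Fin 2 → ℝ) → ℝ) (θ : Fin 2 → ℝ) (x : ℤ) (y : Fin 2 → ℤ) : Prop :=
  x ≠ 0 ∧ ∀ (x' : ℤ) (y' : Fin 2 → ℤ), |x'| ≤ |x| → N (errV θ x' y') ≤ N (errV θ x y) →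
    (x' = 0 ∧ y' = 0) ∨ (x' = x ∧ y' = y) ∨ (x' = -x ∧ y' = -y)

/-- `k = |x|` for some best approximation vector `(x, y)`. -/
def IsDen (N : (Fin 2 → ℝ) → ℝ) (θ : Fin 2 → ℝ) (k : ℕ) : Prop :=
  ∃ (x : ℤ) (y : Fin 2 → ℤ), IsBest N θ x y ∧ x.natAbs = k

/-- `M_ν` for `ν = 1, 2, 3, ...`: the values `|x|` of the best approximation vectors in increasing
order (`Nat.nth P 0` is the least `k` with `P k`). -/
noncomputable def M (N : (Fin 2 → ℝ) → ℝ) (θ : Fin 2 → ℝ) (ν : ℕ) : ℕ :=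
  Nat.nth (IsDen N θ) (ν - 1)

/-- `G(θ) = liminf M_ν ^ (1 / ν)`. -/
noncomputable def G (N : (Fin 2 → ℝ) → ℝ) (θ : Fin 2 → ℝ) : EReal :=
  liminf (fun ν : ℕ => (((M N θ ν : ℝ) ^ (1 / (ν : ℝ)) : ℝ) : EReal)) atTop

/-- `g`: the infimum of `G(θ)` over all `θ` with `(∗)`. -/
noncomputable def g (N : (Fin 2 → ℝ) → ℝ) : EReal :=
  ⨅ θ : {θ : Fin 2 → ℝ // Adm θ}, G N θ.1

/-- The Euclidean norm. -/
noncomputable def euclid (v : Fin 2 → ℝ) : ℝ := Real.sqrt (v 0 ^ 2 + v 1 ^ 2)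

/-- The sup norm. -/
noncomputable def supN (v : Fin 2 → ℝ) : ℝ := max |v 0| |v 1|

end Pool.Agent.Helper54.Growth
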