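import Pool.Agent.Lib.Helper54.Growth.Frame

/-!
# The shapes of frames are dense
-/

set_option autoImplicit false

namespace Pool.Agent.Helper54.Growth

open Filter

section

variable {φ : ℝ} (hφ : φ ^ 3 = φ + 1)
include hφ

lemma exists_pow_near_real (δ : ℝ) (hδ : 0 < δ) (hδ1 : δ ≤ 1) :
    ∃ n : ℕ, ‖(pc φ) ^ n‖ < δ ∧ 0 < ((pc φ) ^ n).re ∧
      |((pc φ) ^ n).im| ≤ δ * ((pc φ) ^ n).re := by
  have hq0 := norm_pc_pos hφ
  have hq1 := norm_pc_lt_one hφ
  have hqne : (‖pc φ‖ : ℂ) ≠ 0 := by exact_mod_cast hq0.ne'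
  let u : Circle := ⟨pc φ / ‖pc φ‖, mem_sphere_zero_iff_norm.2 (by
    rw [norm_div, Complex.norm_real, norm_norm, div_self hq0.ne'])⟩
  have hcl := mapClusterPt_one_atTop_pow u
  have hfreq : ∃ᶠ n in atTop, u ^ n ∈ Metric.ball (1 : Circle) (δ / 2) :=
    hcl.frequently (Metric.ball_mem_nhds _ (by positivity))
  have hev : ∀ᶠ n : ℕ in atTop, ‖pc φ‖ ^ n < δ :=
    (tendsto_pow_atTop_nhds_zero_of_lt_one hq0.le hq1).eventually (gt_mem_nhds hδ)
  obtain ⟨n, h1, h2⟩ := (hfreq.and_eventually hev).exists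
  have e : (pc φ) ^ n = ((‖pc φ‖ ^ n : ℝ) : ℂ) * ((u ^ n : Circle) : ℂ) := by
    rw [Circle.coe_pow]
    show (pc φ) ^ n = ((‖pc φ‖ ^ n : ℝ) : ℂ) * (pc φ / ‖pc φ‖) ^ n
    rw [div_pow]
    push_cast
    field_simp
  have h3 : ‖((u ^ n : Circle) : ℂ) - 1‖ < δ / 2 := by
    have : dist ((u ^ n : Circle) : ℂ) ((1 : Circle) : ℂ) < δ / 2 := h1
    rwa [dist_eq_norm, Circle.coe_one] at this
  have h4 : |((u ^ n : Circle) : ℂ).re - 1| < δ / 2 := by
    have := Complex.abs_re_le_norm (((u ^ n : Circle) : ℂ) - 1)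
    simp only [Complex.sub_re, Complex.one_re] at this
    linarith
  have h5 : |((u ^ n : Circle) : ℂ).im| < δ / 2 := by
    have := Complex.abs_im_le_norm (((u ^ n : Circle) : ℂ) - 1)
    simp only [Complex.sub_im, Complex.one_im, sub_zero] at this
    linarith
  have h6 : 1 / 2 < ((u ^ n : Circle) : ℂ).re := by
    have := (abs_lt.1 h4).1
    linarith
  have hqn : 0 < ‖pc φ‖ ^ n := pow_pos hq0 n
  have hre : ((pc φ) ^ n).re = ‖pc φ‖ ^ n * ((u ^ n : Circle) : ℂ).re := by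
    rw [e, Complex.re_ofReal_mul]
  have him : ((pc φ) ^ n).im = ‖pc φ‖ ^ n * ((u ^ n : Circle) : ℂ).im := by
    rw [e, Complex.im_ofReal_mul]
  refine ⟨n, by rw [norm_pow]; exact h2, by rw [hre]; positivity, ?_⟩
  rw [hre, him, abs_mul, abs_of_pos hqn]
  have h7 : |((u ^ n : Circle) : ℂ).im| ≤ δ * ((u ^ n : Circle) : ℂ).re := by nlinarith
  calc ‖pc φ‖ ^ n * |((u ^ n : Circle) : ℂ).im| ≤ ‖pc φ‖ ^ n * (δ * ((u ^ n : Circle) : ℂ).re) :=
        mul_le_mul_of_nonneg_left h7 hqn.le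
    _ = _ := by ring

/-- Every complex number is a limit of shapes. -/
theorem exists_frame (w : ℂ) (δ : ℝ) (hδ : 0 < δ) : ∃ F : Frame, ‖F.τ φ - w‖ < δ := by
  set δ1 : ℝ := min (δ / 3) (1 / 2) with hδ1
  have hδ1pos : 0 < δ1 := lt_min (by positivity) (by norm_num)
  have hδ1le : δ1 ≤ 1 / 2 := min_le_right _ _
  have hδ1le' : δ1 ≤ δ / 3 := min_le_left _ _
  obtain ⟨n, h1, h2, h3⟩ := exists_pow_near_real hφ δ1 hδ1pos (by linarith)
  set Z0 : ℂ := (pc φ) ^ n with hZ0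
  set α := Z0.re with hα
  have hαlt : α < δ1 := lt_of_le_of_lt ((le_abs_self _).trans (Complex.abs_re_le_norm Z0)) h1
  have hZU := Wc_U hφ n
  set A0 := (U n).1 with hA0
  set B0 := (U n).2.1 with hB0
  set C0 := (U n).2.2 with hC0
  -- the imaginary part does not vanish
  have him : Z0.im ≠ 0 := by
    intro h0
    have h4 : (Wc φ A0 B0 C0).im = 0 := by rw [hZU]; exact h0
    rw [Wc_im hφ] at h4
    have h5 : (B0 : ℝ) - C0 * φ = 0 := by
      rcases mul_eq_zero.1 h4 with h | h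
      · exact h
      · exact absurd h (sI_pos hφ).ne'
    have hC : C0 = 0 := by
      by_contra hC
      exact phi_irr hφ C0 B0 hC (by linarith)
    rw [hC] at h5
    have hB : B0 = 0 := by
      have : (B0 : ℝ) = 0 := by simpa using h5
      exact_mod_cast this
    have h6 : α = A0 := by
      rw [hα, hZ0, ← hZU, hB, hC, Wc]; simp
    rw [h6] at h2 hαlt
    have h7 : (0 : ℤ) < A0 := by exact_mod_cast h2
    have h8 : (A0 : ℝ) < 1 := by linarith
    have h9 : A0 < 1 := by exact_mod_cast h8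
    omega
  have hBC : ¬ (B0 = 0 ∧ C0 = 0) := by
    rintro ⟨hB, hC⟩
    apply him
    rw [hZ0, ← hZU, hB, hC, Wc]; simp
  -- the coprime direction
  obtain ⟨d, b1, c1, hcop, hb1, hc1⟩ : ∃ d b1 c1 : ℤ, IsCoprime b1 c1 ∧ B0 = b1 * d ∧ C0 = c1 * d := by
    have hpos : 0 < Int.gcd B0 C0 := by
      rcases Nat.eq_zero_or_pos (Int.gcd B0 C0) with h | h
      · exact absurd (Int.gcd_eq_zero_iff.1 h) hBC
      · exact h
    obtain ⟨g, m, n, -, hc, hm, hn⟩ := Int.exists_gcd_one' hpos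
    exact ⟨g, m, n, Int.isCoprime_iff_gcd_eq_one.2 hc, hm, hn⟩
  obtain ⟨cs, bs', hbc⟩ := hcop
  -- `cs * b1 + bs' * c1 = 1`
  set bs : ℤ := -bs' with hbs
  set Zs : ℂ := Wc φ 0 bs cs with hZs
  set ω : ℂ := w - Zs with hω
  have himabs : 0 < |Z0.im| := abs_pos.2 him
  set j0 : ℤ := round (ω.im / Z0.im) with hj0
  have hj0le : |j0 * Z0.im - ω.im| ≤ δ1 * α := by
    have h4 := abs_sub_round (ω.im / Z0.im)
    rw [← hj0] at h4
    have h5 : (j0 : ℝ) * Z0.im - ω.im = -((ω.im / Z0.im - j0) * Z0.im) := by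
      field_simp; ring
    rw [h5, abs_neg, abs_mul]
    calc |ω.im / Z0.im - j0| * |Z0.im| ≤ (1 / 2) * (δ1 * α) :=
          mul_le_mul h4 h3 (abs_nonneg _) (by norm_num)
      _ ≤ δ1 * α := by nlinarith [mul_pos hδ1pos h2]
  set u : ℝ := ω.re - j0 * α with hu
  set a' : ℤ := ⌊u⌋ with ha'
  set f : ℝ := Int.fract u with hf
  have hf0 : 0 ≤ f := Int.fract_nonneg u
  have hf1 : f < 1 := Int.fract_lt_one u
  have hfu : f = u - a' := rfl
  set i : ℤ := ⌊f / α⌋ with hi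
  have hi0 : 0 ≤ i := Int.floor_nonneg.2 (by positivity)
  have hi1 : (i : ℝ) ≤ f / α := Int.floor_le _
  have hi2 : f / α < i + 1 := Int.lt_floor_add_one _
  have hi1' : (i : ℝ) * α ≤ f := by rwa [le_div_iff₀ h2] at hi1
  have hi2' : f < (i + 1) * α := by rwa [div_lt_iff₀ h2] at hi2
  set j : ℤ := j0 + i with hj
  let F : Frame := ⟨a' + j * A0, bs + j * B0, cs + j * C0, -b1, -c1, by
    rw [hb1, hc1, hbs]
    linear_combination hbc⟩
  refine ⟨F, ?_⟩
  have hτ : F.τ φ = Zs + a' + j * Z0 := by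
    show Wc φ (a' + j * A0) (bs + j * B0) (cs + j * C0) = Zs + a' + j * Z0
    rw [hZs, hZ0, ← hZU, Wc, Wc, Wc]
    push_cast
    ring
  have hdiff : F.τ φ - w = a' + j * Z0 - ω := by rw [hτ, hω]; ring
  rw [hdiff]
  have hre : ((a' : ℂ) + j * Z0 - ω).re = -(f - i * α) := by
    simp only [Complex.add_re, Complex.sub_re, Complex.mul_re, Complex.intCast_re,
      Complex.intCast_im, zero_mul, sub_zero]
    rw [← hα, hfu, hu, hj]
    push_cast
    ring
  have him2 : ((a' : ℂ) + j * Z0 - ω).im = (j0 * Z0.im - ω.im) + i * Z0.im := by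
    simp only [Complex.add_im, Complex.sub_im, Complex.mul_im, Complex.intCast_re,
      Complex.intCast_im, zero_mul, add_zero, zero_add]
    rw [hj]
    push_cast
    ring
  have hreb : |((a' : ℂ) + j * Z0 - ω).re| < δ1 := by
    rw [hre, abs_neg, abs_of_nonneg (by linarith)]
    linarith
  have himb : |((a' : ℂ) + j * Z0 - ω).im| ≤ 2 * δ1 := by
    rw [him2]
    have h6 : |(i : ℝ) * Z0.im| ≤ δ1 := by
      rw [abs_mul, abs_of_nonneg (by exact_mod_cast hi0)]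
      calc (i : ℝ) * |Z0.im| ≤ i * (δ1 * α) :=
            mul_le_mul_of_nonneg_left h3 (by exact_mod_cast hi0)
        _ = δ1 * (i * α) := by ring
        _ ≤ δ1 * 1 := mul_le_mul_of_nonneg_left (by linarith) hδ1pos.le
        _ = δ1 := mul_one _
    have h7 : δ1 * α ≤ δ1 := by nlinarith
    calc |(j0 * Z0.im - ω.im) + i * Z0.im| ≤ |j0 * Z0.im - ω.im| + |(i : ℝ) * Z0.im| := abs_add_le _ _
      _ ≤ δ1 * α + δ1 := add_le_add hj0le h6
      _ ≤ 2 * δ1 := by linarith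
  have := Complex.norm_le_abs_re_add_abs_im ((a' : ℂ) + j * Z0 - ω)
  linarith

end

end Pool.Agent.Helper54.Growth
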