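import Pool.Agent.Lib.Helper54.Growth.Basic

set_option autoImplicit false

namespace Pool.Agent.Helper54.Growth

lemma euclid_eq (v : Fin 2 → ℝ) : euclid v = ‖(⟨v 0, v 1⟩ : ℂ)‖ := by
  rw [euclid, Complex.norm_def, Complex.normSq_mk]
  congr 1; ring

lemma euclid_sq (v : Fin 2 → ℝ) : euclid v ^ 2 = v 0 ^ 2 + v 1 ^ 2 :=
  Real.sq_sqrt (by positivity)

lemma euclid_norm : IsNorm2 euclid := by
  refine ⟨?_, ?_, ?_⟩
  · intro x hx
    rw [euclid_eq, norm_eq_zero] at hx
    have h1 := congrArg Complex.re hx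
    have h2 := congrArg Complex.im hx
    simp only [Complex.zero_re, Complex.zero_im] at h1 h2
    ext i; fin_cases i
    · exact h1
    · exact h2
  · intro x y
    have : (⟨(x + y) 0, (x + y) 1⟩ : ℂ) = ⟨x 0, x 1⟩ + ⟨y 0, y 1⟩ := by
      apply Complex.ext <;> simp
    rw [euclid_eq, euclid_eq, euclid_eq, this]
    exact norm_add_le _ _
  · intro r x
    have : (⟨(r • x) 0, (r • x) 1⟩ : ℂ) = (r : ℂ) * ⟨x 0, x 1⟩ := by
      apply Complex.ext <;> simp
    rw [euclid_eq, euclid_eq, this, norm_mul, Complex.norm_real, Real.norm_eq_abs]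

end Pool.Agent.Helper54.Growth
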