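import Pool.Agent.Lib.Helper54.Growth.Norms
import Pool.Agent.Lib.Helper54.Growth.EuclidNorm

/-!
# The Euclidean norm
-/

set_option autoImplicit false

namespace Pool.Agent.Helper54.Growth

lemma euclid_le {v w : Fin 2 → ℝ} (h : v 0 ^ 2 + v 1 ^ 2 ≤ w 0 ^ 2 + w 1 ^ 2) :
    euclid v ≤ euclid w := Real.sqrt_le_sqrt h

lemma euclid_lt {v w : Fin 2 → ℝ} (h : v 0 ^ 2 + v 1 ^ 2 < w 0 ^ 2 + w 1 ^ 2) :
    euclid v < euclid w := Real.sqrt_lt_sqrt (by positivity) h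

/-- Nonnegativity of a quadratic form from bounds for its coefficients. -/
lemma quad_nonneg {a b c : ℝ} (a0 B c0 : ℝ) (x y : ℝ) (h0 : 0 < a0) (ha : a0 ≤ a) (hc : c0 ≤ c)
    (hb1 : -B ≤ b) (hb2 : b ≤ B) (hB : B ^ 2 ≤ 4 * a0 * c0) :
    0 ≤ a * x ^ 2 + b * (x * y) + c * y ^ 2 := by
  have h1 : a0 * x ^ 2 ≤ a * x ^ 2 := mul_le_mul_of_nonneg_right ha (sq_nonneg x)
  have h2 : c0 * y ^ 2 ≤ c * y ^ 2 := mul_le_mul_of_nonneg_right hc (sq_nonneg y)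
  have h3 : -(B * |x * y|) ≤ b * (x * y) := by
    have : |b * (x * y)| ≤ B * |x * y| := by
      rw [abs_mul]
      exact mul_le_mul_of_nonneg_right (abs_le.2 ⟨hb1, hb2⟩) (abs_nonneg _)
    exact (abs_le.1 this).1
  have h4 : 0 ≤ a0 * x ^ 2 - B * |x * y| + c0 * y ^ 2 := by
    have e : a0 * (a0 * x ^ 2 - B * |x * y| + c0 * y ^ 2)
        = (a0 * |x| - B / 2 * |y|) ^ 2 + (a0 * c0 - B ^ 2 / 4) * y ^ 2 := by
      rw [abs_mul, ← sq_abs x, ← sq_abs y]; ring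
    have h5 : 0 ≤ a0 * (a0 * x ^ 2 - B * |x * y| + c0 * y ^ 2) := by
      rw [e]
      have := mul_nonneg (by linarith : 0 ≤ a0 * c0 - B ^ 2 / 4) (sq_nonneg y)
      positivity
    exact (mul_nonneg_iff_of_pos_left h0).1 h5
  linarith

/-- The endpoint of the cone for the Euclidean norm. -/
noncomputable def tE (φ : ℝ) : ℝ :=
  (φ ^ 2 + 3 * φ + 1 - Real.sqrt (φ ^ 2 + 4 * φ + 1)) / (2 * φ ^ 2 + 3 * φ)

/-- The other root. -/
noncomputable def tE' (φ : ℝ) : ℝ :=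
  (φ ^ 2 + 3 * φ + 1 + Real.sqrt (φ ^ 2 + 4 * φ + 1)) / (2 * φ ^ 2 + 3 * φ)

section

variable {φ : ℝ} (hφ : φ ^ 3 = φ + 1)
include hφ

lemma sqrt_fine : 2.8378 < Real.sqrt (φ ^ 2 + 4 * φ + 1) ∧ Real.sqrt (φ ^ 2 + 4 * φ + 1) < 2.8380 := by
  obtain ⟨p1, p2⟩ := phi_fine hφ
  obtain ⟨q1, q2⟩ := phi_sq_fine hφ
  constructor
  · rw [Real.lt_sqrt (by norm_num)]; norm_num at *; linarith
  · rw [Real.sqrt_lt' (by norm_num)]; norm_num at *; linarith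

lemma tE_fine : 0.5199 < tE φ ∧ tE φ < 0.52 ∧ 1.27 < tE' φ := by
  obtain ⟨p1, p2⟩ := phi_fine hφ
  obtain ⟨q1, q2⟩ := phi_sq_fine hφ
  obtain ⟨s1, s2⟩ := sqrt_fine hφ
  have hd : 0 < 2 * φ ^ 2 + 3 * φ := by linarith
  refine ⟨?_, ?_, ?_⟩
  · rw [tE, lt_div_iff₀ hd]; linarith
  · rw [tE, div_lt_iff₀ hd]; linarith
  · rw [tE', lt_div_iff₀ hd]; linarith

lemma tE_factor (x y : ℝ) : (2 * φ ^ 2 + 3 * φ) * x ^ 2 - (2 * φ ^ 2 + 6 * φ + 2) * (x * y)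
    + (3 * φ + 1) * y ^ 2 = (2 * φ ^ 2 + 3 * φ) * ((x - tE φ * y) * (x - tE' φ * y)) := by
  obtain ⟨p1, p2⟩ := phi_fine hφ
  obtain ⟨q1, q2⟩ := phi_sq_fine hφ
  have hd : 2 * φ ^ 2 + 3 * φ ≠ 0 := by linarith
  set D := Real.sqrt (φ ^ 2 + 4 * φ + 1) with hD
  have hD2 : D ^ 2 = φ ^ 2 + 4 * φ + 1 := Real.sq_sqrt (by linarith)
  have e1 : (2 * φ ^ 2 + 3 * φ) * tE φ = φ ^ 2 + 3 * φ + 1 - D := by
    rw [tE, mul_div_assoc', mul_div_cancel_left₀ _ hd, ← hD]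
  have e2 : (2 * φ ^ 2 + 3 * φ) * tE' φ = φ ^ 2 + 3 * φ + 1 + D := by
    rw [tE', mul_div_assoc', mul_div_cancel_left₀ _ hd, ← hD]
  have e3 : (2 * φ ^ 2 + 3 * φ) * (tE φ * tE' φ) = 3 * φ + 1 := by
    have h1 : (2 * φ ^ 2 + 3 * φ) * ((2 * φ ^ 2 + 3 * φ) * (tE φ * tE' φ))
        = (2 * φ ^ 2 + 3 * φ) * (3 * φ + 1) := by
      calc (2 * φ ^ 2 + 3 * φ) * ((2 * φ ^ 2 + 3 * φ) * (tE φ * tE' φ))
          = ((2 * φ ^ 2 + 3 * φ) * tE φ) * ((2 * φ ^ 2 + 3 * φ) * tE' φ) := by ring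
        _ = (φ ^ 2 + 3 * φ + 1 - D) * (φ ^ 2 + 3 * φ + 1 + D) := by rw [e1, e2]
        _ = (φ ^ 2 + 3 * φ + 1) ^ 2 - D ^ 2 := by ring
        _ = (2 * φ ^ 2 + 3 * φ) * (3 * φ + 1) := by
            rw [hD2]; linear_combination φ * hφ
    exact mul_left_cancel₀ hd h1
  linear_combination (x * y) * e1 + (x * y) * e2 - y ^ 2 * e3

omit hφ in
/-- Positivity on the half line `x < 52 / 100 y`. -/
lemma half_pos {a b c : ℝ} {x y : ℝ} (hy : 0 < y) (hx : x < 0.52 * y) (ha : 0 ≤ a)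
    (hb : 0 < -(1.04 * a + b)) (hc : 0 ≤ 0.2704 * a + 0.52 * b + c) :
    0 < a * x ^ 2 + b * (x * y) + c * y ^ 2 := by
  have hu : 0 < 0.52 * y - x := by linarith
  have e : a * x ^ 2 + b * (x * y) + c * y ^ 2 = a * (0.52 * y - x) ^ 2
      + (-(1.04 * a + b)) * ((0.52 * y - x) * y) + (0.2704 * a + 0.52 * b + c) * y ^ 2 := by ring
  rw [e]
  have h1 := mul_nonneg ha (sq_nonneg (0.52 * y - x))
  have h2 := mul_pos hb (mul_pos hu hy)
  have h3 := mul_nonneg hc (sq_nonneg y)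
  linarith

theorem good_euclid : Good φ euclid (tE φ) (16 / 10) 6 := by
  obtain ⟨p1, p2⟩ := phi_fine hφ
  obtain ⟨q1, q2⟩ := phi_sq_fine hφ
  obtain ⟨r1, r2, r3⟩ := tE_fine hφ
  have hφ0 : 0 < φ := by linarith
  apply Good.mk' euclid_norm (by norm_num) (by norm_num) (by norm_num)
  · -- h1
    intro v
    rw [eN_sq hφ, euclid_sq]
    have := quad_nonneg (a := 26 / 10 - φ ^ 2) (b := φ) (c := 6 / 10) (8 / 10) (133 / 100) (6 / 10)
      (v 0) (v 1) (by norm_num) (by linarith) (by norm_num) (by linarith) (by linarith)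
      (by norm_num)
    linarith
  · -- h2
    intro v
    rw [eN_sq hφ, euclid_sq]
    have := quad_nonneg (a := 6 * φ ^ 2 - 7) (b := -6 * φ) (c := 5) (352 / 100) (795 / 100) 5
      (v 0) (v 1) (by norm_num) (by linarith) (by norm_num) (by linarith) (by linarith)
      (by norm_num)
    linarith
  · -- h5
    intro v _
    apply euclid_le
    rw [S2_eq hφ v, M5_eq hφ v]
    simp only [Matrix.cons_val_zero, Matrix.cons_val_one]
    have := quad_nonneg (a := 2 * φ ^ 2 + 2 * φ + 2) (b := -6 * φ ^ 2 - 6 * φ)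
      (c := 2 * φ ^ 2 + 5 * φ + 1) (815 / 100) (1849 / 100) (1113 / 100)
      (v 0) (v 1) (by norm_num) (by linarith) (by linarith) (by linarith) (by linarith)
      (by norm_num)
    have e : ((1 + φ) * v 0 - (1 + 2 * φ) * v 1) ^ 2 + ((φ ^ 2 + 1) * v 0 - (2 * φ ^ 2 - 1) * v 1) ^ 2
        - ((-φ * v 0 + (φ + 1) * v 1) ^ 2 + (-φ ^ 2 * v 0 + φ ^ 2 * v 1) ^ 2)
        = (2 * φ ^ 2 + 2 * φ + 2) * v 0 ^ 2 + (-6 * φ ^ 2 - 6 * φ) * (v 0 * v 1)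
          + (2 * φ ^ 2 + 5 * φ + 1) * v 1 ^ 2 := by
      linear_combination (-2 * φ * (v 0 * v 1) + 3 * φ * v 1 ^ 2) * hφ
    linarith
  · -- h7
    intro v _
    apply euclid_le
    rw [M7_eq hφ v]
    simp only [Matrix.cons_val_zero, Matrix.cons_val_one]
    have := quad_nonneg (a := -2 * φ ^ 2 + 3 * φ + 4) (b := 2 * φ ^ 2 + 2 * φ - 6)
      (c := 4 * φ ^ 2 - φ + 1) 4 1 6
      (v 0) (v 1) (by norm_num) (by linarith) (by linarith) (by linarith) (by linarith)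
      (by norm_num)
    have e : (-(1 + φ) * v 0 + (1 - φ) * v 1) ^ 2 + ((2 - φ ^ 2) * v 0 - (φ ^ 2 + 1) * v 1) ^ 2
        - (v 0 ^ 2 + v 1 ^ 2)
        = (-2 * φ ^ 2 + 3 * φ + 4) * v 0 ^ 2 + (2 * φ ^ 2 + 2 * φ - 6) * (v 0 * v 1)
          + (4 * φ ^ 2 - φ + 1) * v 1 ^ 2 := by
      linear_combination (φ * v 0 ^ 2 + 2 * φ * (v 0 * v 1) + φ * v 1 ^ 2) * hφ
    linarith
  · -- h11
    intro v _
    apply euclid_le
    rw [M11_eq hφ v]
    simp only [Matrix.cons_val_zero, Matrix.cons_val_one]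
    have := quad_nonneg (a := 4) (b := -2 * φ ^ 2 + 4 * φ - 4)
      (c := 6 * φ ^ 2 + φ + 3) 4 3 6
      (v 0) (v 1) (by norm_num) (by linarith) (by linarith) (by linarith) (by linarith)
      (by norm_num)
    have e : (2 * v 0 + φ * v 1) ^ 2 + (-v 0 + (φ ^ 2 + 2) * v 1) ^ 2 - (v 0 ^ 2 + v 1 ^ 2)
        = 4 * v 0 ^ 2 + (-2 * φ ^ 2 + 4 * φ - 4) * (v 0 * v 1)
          + (6 * φ ^ 2 + φ + 3) * v 1 ^ 2 := by
      linear_combination (φ * v 1 ^ 2) * hφ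
    linarith
  · -- hI0
    intro v hv
    apply euclid_le
    rw [S1_eq]
    simp only [Matrix.cons_val_zero, Matrix.cons_val_one, hv]
    nlinarith
  · -- hI
    intro v hy ht
    rcases le_total (v 0) (1.2 * v 1) with h | h
    · right; right
      apply euclid_le
      rw [S3_eq hφ v]
      simp only [Matrix.cons_val_zero, Matrix.cons_val_one]
      have e : ((φ + 1) * v 0 - (φ + 1) * v 1) ^ 2 + (φ ^ 2 * v 0 - (φ ^ 2 - 1) * v 1) ^ 2
          - (v 0 ^ 2 + v 1 ^ 2)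
          = (2 * φ ^ 2 + 3 * φ) * v 0 ^ 2 - (2 * φ ^ 2 + 6 * φ + 2) * (v 0 * v 1)
            + (3 * φ + 1) * v 1 ^ 2 := by
        linear_combination (φ * v 0 ^ 2 - 2 * φ * (v 0 * v 1) + φ * v 1 ^ 2) * hφ
      rw [tE_factor hφ] at e
      have h1 : 0 ≤ v 0 - tE φ * v 1 := by linarith
      have h2 : v 0 - tE' φ * v 1 ≤ 0 := by nlinarith
      have h3 : (v 0 - tE φ * v 1) * (v 0 - tE' φ * v 1) ≤ 0 :=
        mul_nonpos_of_nonneg_of_nonpos h1 h2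
      have h4 : (2 * φ ^ 2 + 3 * φ) * ((v 0 - tE φ * v 1) * (v 0 - tE' φ * v 1)) ≤ 0 :=
        mul_nonpos_of_nonneg_of_nonpos (by linarith) h3
      linarith
    · left
      apply euclid_le
      rw [S1_eq]
      simp only [Matrix.cons_val_zero, Matrix.cons_val_one]
      have e : (-φ * v 1) ^ 2 + (v 0 - φ ^ 2 * v 1) ^ 2 - (v 0 ^ 2 + v 1 ^ 2)
          = v 1 * ((2 * φ ^ 2 + φ - 1) * v 1 - 2 * φ ^ 2 * v 0) := by
        linear_combination (φ * v 1 ^ 2) * hφ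
      have h1 : (2 * φ ^ 2 + φ - 1) * v 1 ≤ 2 * φ ^ 2 * v 0 := by
        have k1 : (2 * φ ^ 2 + φ - 1) * v 1 ≤ 3.84 * v 1 :=
          mul_le_mul_of_nonneg_right (by linarith) hy.le
        have k2 : 2 * φ ^ 2 * (1.2 * v 1) ≤ 2 * φ ^ 2 * v 0 :=
          mul_le_mul_of_nonneg_left h (by linarith)
        have k3 : 4.2 * v 1 ≤ 2 * φ ^ 2 * (1.2 * v 1) := by nlinarith
        linarith
      have h2 : v 1 * ((2 * φ ^ 2 + φ - 1) * v 1 - 2 * φ ^ 2 * v 0) ≤ 0 :=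
        mul_nonpos_of_nonneg_of_nonpos hy.le (by linarith)
      linarith
  · -- hII
    intro v hy ht h0 k hk1 hk8
    obtain ⟨e1, e2, e3, e4, e5, e6, e7, e8⟩ := iter_eq hφ v
    have ht' : v 0 < 0.52 * v 1 := by
      have : tE φ * v 1 ≤ 0.52 * v 1 := mul_le_mul_of_nonneg_right (by linarith) hy.le
      linarith
    interval_cases k
    · rw [e1]
      apply euclid_lt
      simp only [Matrix.cons_val_zero, Matrix.cons_val_one]
      have e : (-φ * v 1) ^ 2 + (v 0 - φ ^ 2 * v 1) ^ 2 - (v 0 ^ 2 + v 1 ^ 2)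
          = 0 * v 0 ^ 2 + (-2 * φ ^ 2) * (v 0 * v 1) + (2 * φ ^ 2 + φ - 1) * v 1 ^ 2 := by
        linear_combination (φ * v 1 ^ 2) * hφ
      have := half_pos (a := 0) (b := -2 * φ ^ 2) (c := 2 * φ ^ 2 + φ - 1) hy ht' le_rfl
        (by linarith) (by linarith)
      linarith
    · rw [e2]
      apply euclid_lt
      simp only [Matrix.cons_val_zero, Matrix.cons_val_one]
      have e : (-φ * v 0 + (φ + 1) * v 1) ^ 2 + (-φ ^ 2 * v 0 + φ ^ 2 * v 1) ^ 2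
          - (v 0 ^ 2 + v 1 ^ 2)
          = (2 * φ ^ 2 + φ - 1) * v 0 ^ 2 + (-4 * φ ^ 2 - 4 * φ) * (v 0 * v 1)
            + (2 * φ ^ 2 + 3 * φ) * v 1 ^ 2 := by
        linear_combination (φ * v 0 ^ 2 - 2 * φ * (v 0 * v 1) + φ * v 1 ^ 2) * hφ
      have := half_pos (a := 2 * φ ^ 2 + φ - 1) (b := -4 * φ ^ 2 - 4 * φ)
        (c := 2 * φ ^ 2 + 3 * φ) hy ht' (by linarith) (by linarith) (by linarith)
      linarith
    · rw [e3]
      apply euclid_lt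
      simp only [Matrix.cons_val_zero, Matrix.cons_val_one]
      have e : ((φ + 1) * v 0 - (φ + 1) * v 1) ^ 2 + (φ ^ 2 * v 0 - (φ ^ 2 - 1) * v 1) ^ 2
          - (v 0 ^ 2 + v 1 ^ 2)
          = (2 * φ ^ 2 + 3 * φ) * v 0 ^ 2 - (2 * φ ^ 2 + 6 * φ + 2) * (v 0 * v 1)
            + (3 * φ + 1) * v 1 ^ 2 := by
        linear_combination (φ * v 0 ^ 2 - 2 * φ * (v 0 * v 1) + φ * v 1 ^ 2) * hφ
      rw [tE_factor hφ] at e
      have h1 : v 0 - tE φ * v 1 < 0 := by linarith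
      have h2 : v 0 - tE' φ * v 1 < 0 := by nlinarith
      have h3 : 0 < (v 0 - tE φ * v 1) * (v 0 - tE' φ * v 1) := mul_pos_of_neg_of_neg h1 h2
      have h4 : 0 < (2 * φ ^ 2 + 3 * φ) * ((v 0 - tE φ * v 1) * (v 0 - tE' φ * v 1)) :=
        mul_pos (by linarith) h3
      linarith
    · rw [e4]
      apply euclid_lt
      simp only [Matrix.cons_val_zero, Matrix.cons_val_one]
      have e : (-(φ + 1) * v 0 + v 1) ^ 2 + (-(φ ^ 2 - 1) * v 0 - v 1) ^ 2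
          - (v 0 ^ 2 + v 1 ^ 2)
          = (3 * φ + 1) * v 0 ^ 2 + (2 * φ ^ 2 - 2 * φ - 4) * (v 0 * v 1)
            + 1 * v 1 ^ 2 := by
        linear_combination (φ * v 0 ^ 2) * hφ
      have := quad_nonneg (a := 3 * φ + 1) (b := 2 * φ ^ 2 - 2 * φ - 4)
        (c := 9 / 10) (497 / 100) (314 / 100) (9 / 10)
        (v 0) (v 1) (by norm_num) (by linarith) (by norm_num) (by linarith) (by linarith)
        (by norm_num)
      have h2 : 0 < v 1 ^ 2 := by positivity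
      linarith
    · rw [e5]
      apply euclid_lt
      simp only [Matrix.cons_val_zero, Matrix.cons_val_one]
      have e : (v 0 + φ * v 1) ^ 2 + (-v 0 + (φ ^ 2 + 1) * v 1) ^ 2
          - (v 0 ^ 2 + v 1 ^ 2)
          = 1 * v 0 ^ 2 + (-2 * φ ^ 2 + 2 * φ - 2) * (v 0 * v 1)
            + (4 * φ ^ 2 + φ) * v 1 ^ 2 := by
        linear_combination (φ * v 1 ^ 2) * hφ
      have := quad_nonneg (a := 1) (b := -2 * φ ^ 2 + 2 * φ - 2)
        (c := 7) 1 3 7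
        (v 0) (v 1) (by norm_num) (by norm_num) (by norm_num) (by linarith) (by linarith)
        (by norm_num)
      have h2 : 0 < v 1 ^ 2 := by positivity
      have h3 : 8 * v 1 ^ 2 ≤ (4 * φ ^ 2 + φ) * v 1 ^ 2 :=
        mul_le_mul_of_nonneg_right (by linarith) h2.le
      linarith
    · rw [e6]
      apply euclid_lt
      simp only [Matrix.cons_val_zero, Matrix.cons_val_one]
      have e : (φ * v 0 - (2 * φ + 1) * v 1) ^ 2 + ((φ ^ 2 + 1) * v 0 - 2 * φ ^ 2 * v 1) ^ 2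
          - (v 0 ^ 2 + v 1 ^ 2)
          = (4 * φ ^ 2 + φ) * v 0 ^ 2 + (-12 * φ ^ 2 - 6 * φ) * (v 0 * v 1)
            + (8 * φ ^ 2 + 8 * φ) * v 1 ^ 2 := by
        linear_combination (φ * v 0 ^ 2 - 4 * φ * (v 0 * v 1) + 4 * φ * v 1 ^ 2) * hφ
      have := half_pos (a := 4 * φ ^ 2 + φ) (b := -12 * φ ^ 2 - 6 * φ)
        (c := 8 * φ ^ 2 + 8 * φ) hy ht' (by linarith) (by linarith) (by linarith)
      linarith
    · rw [e7]
      apply euclid_lt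
      simp only [Matrix.cons_val_zero, Matrix.cons_val_one]
      have e : (-(2 * φ + 1) * v 0 + (2 * φ + 2) * v 1) ^ 2
          + (-2 * φ ^ 2 * v 0 + (2 * φ ^ 2 - 1) * v 1) ^ 2 - (v 0 ^ 2 + v 1 ^ 2)
          = (8 * φ ^ 2 + 8 * φ) * v 0 ^ 2 + (-12 * φ ^ 2 - 20 * φ - 4) * (v 0 * v 1)
            + (4 * φ ^ 2 + 12 * φ + 4) * v 1 ^ 2 := by
        linear_combination (4 * φ * v 0 ^ 2 - 8 * φ * (v 0 * v 1) + 4 * φ * v 1 ^ 2) * hφ
      have := half_pos (a := 8 * φ ^ 2 + 8 * φ) (b := -12 * φ ^ 2 - 20 * φ - 4)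
        (c := 4 * φ ^ 2 + 12 * φ + 4) hy ht' (by linarith) (by linarith) (by linarith)
      linarith
    · rw [e8]
      apply euclid_lt
      simp only [Matrix.cons_val_zero, Matrix.cons_val_one]
      have e : ((2 * φ + 2) * v 0 - (φ + 2) * v 1) ^ 2
          + ((2 * φ ^ 2 - 1) * v 0 + (2 - φ ^ 2) * v 1) ^ 2 - (v 0 ^ 2 + v 1 ^ 2)
          = (4 * φ ^ 2 + 12 * φ + 4) * v 0 ^ 2 + (2 * φ ^ 2 - 16 * φ - 12) * (v 0 * v 1)
            + (-2 * φ ^ 2 + 5 * φ + 7) * v 1 ^ 2 := by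
        linear_combination (4 * φ * v 0 ^ 2 - 4 * φ * (v 0 * v 1) + φ * v 1 ^ 2) * hφ
      have := quad_nonneg (a := 4 * φ ^ 2 + 12 * φ + 4) (b := 2 * φ ^ 2 - 16 * φ - 12)
        (c := -2 * φ ^ 2 + 5 * φ + 6) (269 / 10) (297 / 10) (911 / 100)
        (v 0) (v 1) (by norm_num) (by linarith) (by linarith) (by linarith) (by linarith)
        (by norm_num)
      have h2 : 0 < v 1 ^ 2 := by positivity
      linarith

end

end Pool.Agent.Helper54.Growth
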