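import Pool.Agent.Lib.Helper54.Growth.Cubic

/-!
# Frames: unimodular bases of `ℤ[φ]` and the attached vectors `θ`
-/

set_option autoImplicit false

namespace Pool.Agent.Helper54.Growth

open Filter

/-- Integers `a, b, c, r, s` with `b s - c r = 1`; they give the basis
`r φ + s φ ^ 2, 1, a + b φ + c φ ^ 2` of `ℤ[φ]`. -/
structure Frame where
  a : ℤ
  b : ℤ
  c : ℤ
  r : ℤ
  s : ℤ
  det : b * s - c * r = 1

namespace Frame

variable (F : Frame) (φ : ℝ)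

/-- The shape parameter. -/
noncomputable def τ : ℂ := Wc φ F.a F.b F.c

/-- The real embedding of the third basis element. -/
noncomputable def ρ : ℝ := Rr φ F.a F.b F.c

noncomputable def θ2 : ℝ := -((F.r - F.s * φ) / (F.b - F.c * φ))

noncomputable def θ1 : ℝ := -(Wc φ 0 F.r F.s).re - F.θ2 φ * (F.τ φ).re

/-- The attached vector. -/
noncomputable def θ : Fin 2 → ℝ := ![F.θ1 φ, F.θ2 φ]

/-- The scaling factor of the first coordinate. -/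
noncomputable def κ0 : ℝ := Rr φ 0 F.r F.s + F.θ1 φ + F.θ2 φ * F.ρ φ

/-- The adapted length. -/
noncomputable def T (v : Fin 2 → ℝ) : ℝ := ‖(v 0 : ℂ) + v 1 * F.τ φ‖

variable {φ} (hφ : φ ^ 3 = φ + 1)
include hφ

lemma den_ne : (F.b : ℝ) - F.c * φ ≠ 0 := by
  intro h
  by_cases hc : F.c = 0
  · have hb : F.b = 0 := by
      rw [hc] at h
      have : (F.b : ℝ) = 0 := by simpa using h
      exact_mod_cast this
    have := F.det
    rw [hc, hb] at this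
    norm_num at this
  · exact phi_irr hφ F.c F.b hc (by linarith)

lemma τ_im_ne : (F.τ φ).im ≠ 0 := by
  rw [τ, Wc_im hφ]
  exact mul_ne_zero (F.den_ne hφ) (sI_pos hφ).ne'

lemma frame_eq : Wc φ 0 F.r F.s + F.θ1 φ + F.θ2 φ * F.τ φ = 0 := by
  have h := F.den_ne hφ
  apply Complex.ext
  · simp only [Complex.add_re, Complex.mul_re, Complex.ofReal_re, Complex.ofReal_im,
      Complex.zero_re, θ1]
    ring
  · have e : F.θ2 φ * ((F.b : ℝ) - F.c * φ) = -(F.r - F.s * φ) := by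
      rw [θ2, neg_mul, div_mul_cancel₀ _ h]
    simp only [Complex.add_im, Complex.mul_im, Complex.ofReal_re, Complex.ofReal_im,
      Complex.zero_im]
    rw [Wc_im hφ, τ, Wc_im hφ]
    linear_combination sI φ * e

lemma κ0_eq : ((F.b : ℝ) - F.c * φ) * F.κ0 φ = 3 * φ ^ 2 - 1 := by
  have h := F.den_ne hφ
  have e : F.θ2 φ * ((F.b : ℝ) - F.c * φ) = -(F.r - F.s * φ) := by
    rw [θ2, neg_mul, div_mul_cancel₀ _ h]
  have hdet : (F.b : ℝ) * F.s - F.c * F.r = 1 := by exact_mod_cast F.det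
  rw [κ0, θ1, ρ, τ, Wc_re hφ, Wc_re hφ, Rr, Rr]
  push_cast
  linear_combination (3 / 2 * F.b * φ + F.c * (3 / 2 * φ ^ 2 - 1)) * e
    + (3 * φ ^ 2 - 1) * hdet

lemma κ0_ne : F.κ0 φ ≠ 0 := by
  have h := F.κ0_eq hφ
  have h1 := (phi_bounds hφ).1
  intro h0
  rw [h0, mul_zero] at h
  nlinarith

lemma W_eq (x : ℤ) (y : Fin 2 → ℤ) :
    Wc φ (y 0 + F.a * y 1) (F.r * x + F.b * y 1) (F.s * x + F.c * y 1)
      = -(((errV (F.θ φ) x y 0 : ℝ) : ℂ) + (errV (F.θ φ) x y 1 : ℝ) * F.τ φ) := by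
  have h := F.frame_eq hφ
  have e0 : errV (F.θ φ) x y 0 = x * F.θ1 φ - y 0 := by simp [errV, θ]
  have e1 : errV (F.θ φ) x y 1 = x * F.θ2 φ - y 1 := by simp [errV, θ]
  rw [e0, e1]
  rw [τ] at h ⊢
  rw [Wc, Wc] at *
  push_cast at h ⊢
  linear_combination (x : ℂ) * h

omit hφ in
lemma R_eq (x : ℤ) (y : Fin 2 → ℤ) :
    Rr φ (y 0 + F.a * y 1) (F.r * x + F.b * y 1) (F.s * x + F.c * y 1)
      = F.κ0 φ * x - (errV (F.θ φ) x y 0 + errV (F.θ φ) x y 1 * F.ρ φ) := by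
  have e0 : errV (F.θ φ) x y 0 = x * F.θ1 φ - y 0 := by simp [errV, θ]
  have e1 : errV (F.θ φ) x y 1 = x * F.θ2 φ - y 1 := by simp [errV, θ]
  rw [e0, e1, κ0, ρ, Rr, Rr, Rr]
  push_cast
  ring

omit hφ in
lemma coord_zero (x y1 y2 : ℤ) (h : y1 + F.a * y2 = 0 ∧ F.r * x + F.b * y2 = 0 ∧
    F.s * x + F.c * y2 = 0) : x = 0 ∧ y1 = 0 ∧ y2 = 0 := by
  obtain ⟨h1, h2, h3⟩ := h
  have hx : x = 0 := by linear_combination F.b * h3 - F.c * h2 - x * F.det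
  have hy : y2 = 0 := by linear_combination F.s * h2 - F.r * h3 - y2 * F.det
  rw [hy] at h1
  exact ⟨hx, by simpa using h1, hy⟩

/-- `|R| T ^ 2 ≥ 1` for nonzero integer points. -/
lemma one_le (x : ℤ) (y : Fin 2 → ℤ) (hx : x ≠ 0) :
    1 ≤ |F.κ0 φ * x - (errV (F.θ φ) x y 0 + errV (F.θ φ) x y 1 * F.ρ φ)|
      * F.T φ (errV (F.θ φ) x y) ^ 2 := by
  have h := one_le_norm hφ (y 0 + F.a * y 1) (F.r * x + F.b * y 1) (F.s * x + F.c * y 1)
    (fun h => hx (F.coord_zero x (y 0) (y 1) h).1)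
  rw [F.W_eq hφ, F.R_eq (φ := φ), norm_neg] at h
  exact h

lemma adm : Adm (F.θ φ) := by
  intro q hq hall
  choose a ha using hall
  have h := F.W_eq hφ q a
  have e : ∀ i, errV (F.θ φ) q a i = 0 := by
    intro i; simp only [errV]; rw [ha i]; ring
  rw [e, e] at h
  have h' := Wc_zero hφ _ _ _ (by rw [h]; simp)
  exact hq (F.coord_zero q (a 0) (a 1) h').1

/-- The integer points of the powers of `φ`. -/
def ux (F : Frame) (n : ℕ) : ℤ := F.b * (U n).2.2 - F.c * (U n).2.1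

/-- The integer points of the powers of `φ`. -/
def uy (F : Frame) (n : ℕ) : Fin 2 → ℤ :=
  ![(U n).1 - F.a * (F.s * (U n).2.1 - F.r * (U n).2.2), F.s * (U n).2.1 - F.r * (U n).2.2]

omit hφ in
lemma u_coords (n : ℕ) : F.uy n 0 + F.a * F.uy n 1 = (U n).1 ∧
    F.r * F.ux n + F.b * F.uy n 1 = (U n).2.1 ∧ F.s * F.ux n + F.c * F.uy n 1 = (U n).2.2 := by
  have h0 : F.uy n 0 = (U n).1 - F.a * (F.s * (U n).2.1 - F.r * (U n).2.2) := rfl
  have h1 : F.uy n 1 = F.s * (U n).2.1 - F.r * (U n).2.2 := rfl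
  have h2 : F.ux n = F.b * (U n).2.2 - F.c * (U n).2.1 := rfl
  rw [h0, h1, h2]
  refine ⟨by ring, ?_, ?_⟩
  · linear_combination (U n).2.1 * F.det
  · linear_combination (U n).2.2 * F.det

lemma u_W (n : ℕ) : ((errV (F.θ φ) (F.ux n) (F.uy n) 0 : ℝ) : ℂ)
    + (errV (F.θ φ) (F.ux n) (F.uy n) 1 : ℝ) * F.τ φ = -(pc φ) ^ n := by
  have h := F.W_eq hφ (F.ux n) (F.uy n)
  obtain ⟨h1, h2, h3⟩ := F.u_coords n
  rw [h1, h2, h3, Wc_U hφ] at h
  rw [h]; ring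

lemma u_T (n : ℕ) : F.T φ (errV (F.θ φ) (F.ux n) (F.uy n)) = ‖pc φ‖ ^ n := by
  rw [T, F.u_W hφ, norm_neg, norm_pow]

lemma u_R (n : ℕ) : F.κ0 φ * F.ux n - (errV (F.θ φ) (F.ux n) (F.uy n) 0
    + errV (F.θ φ) (F.ux n) (F.uy n) 1 * F.ρ φ) = φ ^ n := by
  have h := F.R_eq (φ := φ) (F.ux n) (F.uy n)
  obtain ⟨h1, h2, h3⟩ := F.u_coords n
  rw [h1, h2, h3, Rr_U hφ] at h
  exact h.symm

/-- Linear forms are bounded by the adapted length. -/
lemma exists_D : ∃ D : ℝ, 0 < D ∧ ∀ v : Fin 2 → ℝ, |v 0 + v 1 * F.ρ φ| ≤ D * F.T φ v := by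
  have him := F.τ_im_ne hφ
  have him' : 0 < |(F.τ φ).im| := abs_pos.2 him
  refine ⟨1 + (|(F.τ φ).re| + |F.ρ φ|) / |(F.τ φ).im|, by positivity, ?_⟩
  intro v
  have h1 : |v 1| * |(F.τ φ).im| ≤ F.T φ v := by
    have := Complex.abs_im_le_norm ((v 0 : ℂ) + v 1 * F.τ φ)
    simpa [Complex.add_im, Complex.mul_im, abs_mul, T] using this
  have h2 : |v 0 + v 1 * (F.τ φ).re| ≤ F.T φ v := by
    have := Complex.abs_re_le_norm ((v 0 : ℂ) + v 1 * F.τ φ)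
    simpa [Complex.add_re, Complex.mul_re, abs_mul, T] using this
  have h3 : |v 1| ≤ F.T φ v / |(F.τ φ).im| := by rwa [le_div_iff₀ him']
  have h4 : v 0 + v 1 * F.ρ φ = (v 0 + v 1 * (F.τ φ).re) + v 1 * (F.ρ φ - (F.τ φ).re) := by ring
  have h5 : |F.ρ φ - (F.τ φ).re| ≤ |(F.τ φ).re| + |F.ρ φ| := by
    have := abs_sub (F.ρ φ) (F.τ φ).re
    linarith
  rw [h4]
  calc |(v 0 + v 1 * (F.τ φ).re) + v 1 * (F.ρ φ - (F.τ φ).re)|
      ≤ |v 0 + v 1 * (F.τ φ).re| + |v 1 * (F.ρ φ - (F.τ φ).re)| := abs_add_le _ _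
    _ ≤ F.T φ v + (F.T φ v / |(F.τ φ).im|) * (|(F.τ φ).re| + |F.ρ φ|) := by
        rw [abs_mul]
        exact add_le_add h2 (mul_le_mul h3 h5 (abs_nonneg _) (le_trans (abs_nonneg _) h3))
    _ = _ := by ring

end Frame

end Pool.Agent.Helper54.Growth
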