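import Pool.Agent.Lib.Helper54.Growth.Basic
import Pool.Agent.Lib.Helper54.S18919.Final
import Pool.Agent.Lib.Helper54.S18919.Data.Valid

set_option autoImplicit false

namespace Pool.Agent.Helper54.Growth

open Filter

/-- For every norm on the plane and every admissible `θ`, `φ ≤ G(θ)`. -/
theorem phi_le_G {N : (Fin 2 → ℝ) → ℝ} (hN : IsNorm2 N) {θ : Fin 2 → ℝ} (hθ : Adm θ) {φ : ℝ}
    (hφ : φ ^ 3 = φ + 1) : (φ : EReal) ≤ G N θ := by
  apply le_G
  intro c hc hcφ
  have h1 : c < (c + φ) / 2 := by linarith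
  have h2 : (c + φ) / 2 < φ := by linarith
  set d : ℝ := (c + φ) / 2 with hd
  have hd0 : 0 < d := hc.trans h1
  have hev := Cert.nth_growth Cert.valid_root hN hθ φ hφ d hd0 h2
  have hratio : Tendsto (fun ν : ℕ => d * (c / d) ^ ν) atTop (nhds 0) := by
    have := (tendsto_pow_atTop_nhds_zero_of_lt_one (r := c / d) (by positivity)
      ((div_lt_one hd0).2 h1)).const_mul d
    rwa [mul_zero] at this
  have hshift : Tendsto (fun ν : ℕ => ν - 1) atTop atTop := tendsto_sub_atTop_nat 1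
  filter_upwards [hratio.eventually (gt_mem_nhds one_pos), eventually_ge_atTop 1,
    hshift.eventually hev] with ν a1 a2 a3
  obtain ⟨m, rfl⟩ := Nat.exists_eq_add_of_le' a2
  simp only [Nat.add_sub_cancel] at a3
  have a4 : (Nat.nth (isRec N θ) m : ℝ) ≤ M N θ (m + 1) := by
    exact_mod_cast nth_isRec_le hN hθ m
  have a5 : c ^ (m + 1) < d ^ m := by
    have e : d * (c / d) ^ (m + 1) = c ^ (m + 1) / d ^ m := by
      rw [div_pow, pow_succ d]
      field_simp
    rw [e, div_lt_one (by positivity)] at a1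
    exact a1
  linarith

/-- For every norm on the plane, `φ ≤ g`. -/
theorem phi_le_g {N : (Fin 2 → ℝ) → ℝ} (hN : IsNorm2 N) {φ : ℝ} (hφ : φ ^ 3 = φ + 1) :
    (φ : EReal) ≤ g N :=
  le_iInf fun θ => phi_le_G hN θ.2 hφ

end Pool.Agent.Helper54.Growth
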