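import Pool.Agent.Lib.Helper54.Growth.Upper
import Pool.Agent.Lib.Helper54.Growth.Density

/-!
# Norms close to an inner product norm
-/

set_option autoImplicit false

namespace Pool.Agent.Helper54.Growth

open Filter

section

variable {φ : ℝ} (hφ : φ ^ 3 = φ + 1) {N : (Fin 2 → ℝ) → ℝ} (hN : IsNorm2 N)
include hφ hN

/-- If `N ^ 2` lies between a positive definite quadratic form and `κ` times that form, where
`κ < φ ^ m`, then `G(θ) ≤ φ ^ m` for some admissible `θ`. -/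
theorem near_quadratic {A B C κ : ℝ} {m : ℕ} (hm : 0 < m) (hA : 0 < A) (hdisc : 0 < A * C - B ^ 2)
    (hκ : κ < φ ^ m)
    (h1 : ∀ v : Fin 2 → ℝ, A * v 0 ^ 2 + 2 * B * (v 0 * v 1) + C * v 1 ^ 2 ≤ N v ^ 2)
    (h2 : ∀ v : Fin 2 → ℝ, N v ^ 2 ≤ κ * (A * v 0 ^ 2 + 2 * B * (v 0 * v 1) + C * v 1 ^ 2)) :
    ∃ θ : Fin 2 → ℝ, Adm θ ∧ G N θ ≤ ((φ ^ m : ℝ) : EReal) := by
  have hφ1 := phi_gt_one hφ
  have hφ0 : 0 < φ := by linarith
  -- the target shape
  set σ : ℝ := Real.sqrt (A * C - B ^ 2) with hσ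
  have hσ0 : 0 < σ := Real.sqrt_pos.2 hdisc
  have hσ2 : σ ^ 2 = A * C - B ^ 2 := Real.sq_sqrt hdisc.le
  set w : ℂ := ⟨B / A, σ / A⟩ with hw
  have hwim : 0 < w.im := by rw [hw]; positivity
  set L : (Fin 2 → ℝ) → ℝ := fun v => ‖(v 0 : ℂ) + v 1 * w‖ with hL
  have hQ : ∀ v : Fin 2 → ℝ, A * v 0 ^ 2 + 2 * B * (v 0 * v 1) + C * v 1 ^ 2 = A * L v ^ 2 := by
    intro v
    simp only [hL]
    rw [Complex.sq_norm, Complex.normSq_apply]
    simp only [Complex.add_re, Complex.mul_re, Complex.ofReal_re, Complex.ofReal_im,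
      Complex.add_im, Complex.mul_im, zero_mul, sub_zero, add_zero, zero_add, hw]
    field_simp
    linear_combination (-(v 1) ^ 2) * hσ2
  -- `κ ≥ 1`
  have hκ1 : 1 ≤ κ := by
    have a1 := h1 ![1, 0]
    have a2 := h2 ![1, 0]
    simp at a1 a2
    by_contra hcon
    have hcon := not_le.1 hcon
    nlinarith
  have hκ0 : 0 < κ := by linarith
  -- the tolerance
  set t : ℝ := Real.sqrt (φ ^ m / κ) with ht
  have ht1 : 1 < t := by
    rw [ht, Real.lt_sqrt (by norm_num), one_pow, lt_div_iff₀ hκ0]; linarith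
  have ht2 : t ^ 2 * κ = φ ^ m := by
    rw [ht, Real.sq_sqrt (by positivity)]; field_simp
  set η : ℝ := (t - 1) / (2 * (t + 1)) with hη
  have hη0 : 0 < η := by rw [hη]; apply div_pos <;> linarith
  have hη1 : η < 1 := by rw [hη, div_lt_one (by linarith)]; linarith
  have hηt : 1 + η < t * (1 - η) := by
    have : η * (t + 1) = (t - 1) / 2 := by rw [hη]; field_simp
    nlinarith
  obtain ⟨F, hF⟩ := exists_frame hφ w (η * w.im) (by positivity)
  have hcmp : ∀ v : Fin 2 → ℝ, |F.T φ v - L v| ≤ η * L v := by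
    intro v
    have a1 : |F.T φ v - L v| ≤ ‖((v 0 : ℂ) + v 1 * F.τ φ) - ((v 0 : ℂ) + v 1 * w)‖ :=
      abs_norm_sub_norm_le _ _
    have a2 : ((v 0 : ℂ) + v 1 * F.τ φ) - ((v 0 : ℂ) + v 1 * w) = v 1 * (F.τ φ - w) := by ring
    rw [a2, norm_mul, Complex.norm_real, Real.norm_eq_abs] at a1
    have a3 : |v 1| * w.im ≤ L v := by
      have := Complex.abs_im_le_norm ((v 0 : ℂ) + v 1 * w)
      simpa [Complex.add_im, Complex.mul_im, abs_mul, hL, abs_of_pos hwim] using this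
    calc |F.T φ v - L v| ≤ |v 1| * ‖F.τ φ - w‖ := a1
      _ ≤ |v 1| * (η * w.im) := mul_le_mul_of_nonneg_left hF.le (abs_nonneg _)
      _ = η * (|v 1| * w.im) := by ring
      _ ≤ η * L v := mul_le_mul_of_nonneg_left a3 hη0.le
  have hL0 : ∀ v, 0 ≤ L v := fun v => norm_nonneg _
  have hT0 : ∀ v, 0 ≤ F.T φ v := fun v => norm_nonneg _
  have hup : ∀ v, F.T φ v ≤ (1 + η) * L v := fun v => by
    have := (abs_le.1 (hcmp v)).2; linarith
  have hlow : ∀ v, (1 - η) * L v ≤ F.T φ v := fun v => by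
    have := (abs_le.1 (hcmp v)).1; linarith
  refine ⟨F.θ φ, F.adm hφ, ?_⟩
  apply F.G_le hφ hN (l1 := A / (1 + η) ^ 2) (l2 := κ * A / (1 - η) ^ 2) hm (by positivity)
    (div_pos (by positivity) (pow_pos (by linarith) 2))
  · intro v
    have a1 : F.T φ v ^ 2 ≤ (1 + η) ^ 2 * L v ^ 2 := by
      rw [← mul_pow]; exact pow_le_pow_left₀ (hT0 v) (hup v) 2
    calc A / (1 + η) ^ 2 * F.T φ v ^ 2 ≤ A / (1 + η) ^ 2 * ((1 + η) ^ 2 * L v ^ 2) :=
          mul_le_mul_of_nonneg_left a1 (by positivity)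
      _ = A * L v ^ 2 := by field_simp
      _ ≤ N v ^ 2 := by rw [← hQ]; exact h1 v
  · intro v
    have hη2 : 0 < (1 - η) := by linarith
    have a1 : (1 - η) ^ 2 * L v ^ 2 ≤ F.T φ v ^ 2 := by
      rw [← mul_pow]; exact pow_le_pow_left₀ (mul_nonneg hη2.le (hL0 v)) (hlow v) 2
    calc N v ^ 2 ≤ κ * (A * L v ^ 2) := by rw [← hQ]; exact h2 v
      _ = κ * A / (1 - η) ^ 2 * ((1 - η) ^ 2 * L v ^ 2) := by field_simp
      _ ≤ κ * A / (1 - η) ^ 2 * F.T φ v ^ 2 := mul_le_mul_of_nonneg_left a1 (by positivity)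
  · have hη2 : 0 < (1 - η) := by linarith
    have a1 : (1 + η) ^ 2 < (t * (1 - η)) ^ 2 := pow_lt_pow_left₀ hηt (by linarith) (by norm_num)
    rw [mul_pow] at a1
    rw [mul_div_assoc', div_lt_div_iff₀ (by positivity) (by positivity), ← ht2]
    calc κ * A * (1 + η) ^ 2 < κ * A * (t ^ 2 * (1 - η) ^ 2) :=
          mul_lt_mul_of_pos_left a1 (by positivity)
      _ = t ^ 2 * κ * A * (1 - η) ^ 2 := by ring

end

end Pool.Agent.Helper54.Growth
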