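import Pool.Agent.Lib.Helper54.Growth.Angles

/-!
# Explicit formulas for the maps, and the comparison inequalities for the sup norm
-/

set_option autoImplicit false

namespace Pool.Agent.Helper54.Growth

section

variable {φ : ℝ} (hφ : φ ^ 3 = φ + 1)
include hφ

omit hφ in
lemma S1_eq (v : Fin 2 → ℝ) : mS φ v = ![-φ * v 1, v 0 - φ ^ 2 * v 1] := rfl

lemma S2_eq (v : Fin 2 → ℝ) : mS φ (mS φ v)
    = ![-φ * v 0 + (φ + 1) * v 1, -φ ^ 2 * v 0 + φ ^ 2 * v 1] := by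
  ext i; fin_cases i
  · simp only [mS, Fin.zero_eta, Matrix.cons_val_zero, Matrix.cons_val_one]
    linear_combination (v 1) * hφ
  · simp only [mS, Fin.mk_one, Matrix.cons_val_zero, Matrix.cons_val_one]
    linear_combination (φ * v 1) * hφ

lemma S3_eq (v : Fin 2 → ℝ) : mS φ (mS φ (mS φ v))
    = ![(φ + 1) * v 0 - (φ + 1) * v 1, φ ^ 2 * v 0 - (φ ^ 2 - 1) * v 1] := by
  rw [S2_eq hφ v]
  ext i; fin_cases i
  · simp only [mS, Fin.zero_eta, Matrix.cons_val_zero, Matrix.cons_val_one]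
    linear_combination (v 0 - v 1) * hφ
  · simp only [mS, Fin.mk_one, Matrix.cons_val_zero, Matrix.cons_val_one]
    linear_combination (φ * (v 0 - v 1)) * hφ

/-- Explicit formulas for the iterates. -/
lemma iter_eq (v : Fin 2 → ℝ) :
    ((mS φ)^[1] v = ![-φ * v 1, v 0 - φ ^ 2 * v 1]) ∧
    ((mS φ)^[2] v = ![-φ * v 0 + (φ + 1) * v 1, -φ ^ 2 * v 0 + φ ^ 2 * v 1]) ∧
    ((mS φ)^[3] v = ![(φ + 1) * v 0 - (φ + 1) * v 1, φ ^ 2 * v 0 - (φ ^ 2 - 1) * v 1]) ∧
    ((mS φ)^[4] v = ![-(φ + 1) * v 0 + v 1, -(φ ^ 2 - 1) * v 0 - v 1]) ∧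
    ((mS φ)^[5] v = ![v 0 + φ * v 1, -v 0 + (φ ^ 2 + 1) * v 1]) ∧
    ((mS φ)^[6] v = ![φ * v 0 - (2 * φ + 1) * v 1, (φ ^ 2 + 1) * v 0 - 2 * φ ^ 2 * v 1]) ∧
    ((mS φ)^[7] v = ![-(2 * φ + 1) * v 0 + (2 * φ + 2) * v 1,
      -2 * φ ^ 2 * v 0 + (2 * φ ^ 2 - 1) * v 1]) ∧
    ((mS φ)^[8] v = ![(2 * φ + 2) * v 0 - (φ + 2) * v 1,
      (2 * φ ^ 2 - 1) * v 0 + (2 - φ ^ 2) * v 1]) := by
  have e1 : (mS φ)^[1] v = ![-φ * v 1, v 0 - φ ^ 2 * v 1] := rfl
  have e2 : (mS φ)^[2] v = ![-φ * v 0 + (φ + 1) * v 1, -φ ^ 2 * v 0 + φ ^ 2 * v 1] := S2_eq hφ v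
  have e3 : (mS φ)^[3] v = ![(φ + 1) * v 0 - (φ + 1) * v 1, φ ^ 2 * v 0 - (φ ^ 2 - 1) * v 1] :=
    S3_eq hφ v
  have e4 : (mS φ)^[4] v = ![-(φ + 1) * v 0 + v 1, -(φ ^ 2 - 1) * v 0 - v 1] := by
    rw [Function.iterate_succ_apply', e3]
    ext i; fin_cases i
    · simp only [mS, Fin.zero_eta, Matrix.cons_val_zero, Matrix.cons_val_one]
      linear_combination (v 1 - v 0) * hφ
    · simp only [mS, Fin.mk_one, Matrix.cons_val_zero, Matrix.cons_val_one]
      linear_combination (φ * (v 1 - v 0)) * hφ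
  have e5 : (mS φ)^[5] v = ![v 0 + φ * v 1, -v 0 + (φ ^ 2 + 1) * v 1] := by
    rw [Function.iterate_succ_apply', e4]
    ext i; fin_cases i
    · simp only [mS, Fin.zero_eta, Matrix.cons_val_zero, Matrix.cons_val_one]
      linear_combination (v 0) * hφ
    · simp only [mS, Fin.mk_one, Matrix.cons_val_zero, Matrix.cons_val_one]
      linear_combination (φ * v 0) * hφ
  have e6 : (mS φ)^[6] v = ![φ * v 0 - (2 * φ + 1) * v 1, (φ ^ 2 + 1) * v 0 - 2 * φ ^ 2 * v 1] := by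
    rw [Function.iterate_succ_apply', e5]
    ext i; fin_cases i
    · simp only [mS, Fin.zero_eta, Matrix.cons_val_zero, Matrix.cons_val_one]
      linear_combination (-v 1) * hφ
    · simp only [mS, Fin.mk_one, Matrix.cons_val_zero, Matrix.cons_val_one]
      linear_combination (-φ * v 1) * hφ
  have e7 : (mS φ)^[7] v = ![-(2 * φ + 1) * v 0 + (2 * φ + 2) * v 1,
      -2 * φ ^ 2 * v 0 + (2 * φ ^ 2 - 1) * v 1] := by
    rw [Function.iterate_succ_apply', e6]
    ext i; fin_cases i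
    · simp only [mS, Fin.zero_eta, Matrix.cons_val_zero, Matrix.cons_val_one]
      linear_combination (2 * v 1 - v 0) * hφ
    · simp only [mS, Fin.mk_one, Matrix.cons_val_zero, Matrix.cons_val_one]
      linear_combination (φ * (2 * v 1 - v 0)) * hφ
  have e8 : (mS φ)^[8] v = ![(2 * φ + 2) * v 0 - (φ + 2) * v 1,
      (2 * φ ^ 2 - 1) * v 0 + (2 - φ ^ 2) * v 1] := by
    rw [Function.iterate_succ_apply', e7]
    ext i; fin_cases i
    · simp only [mS, Fin.zero_eta, Matrix.cons_val_zero, Matrix.cons_val_one]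
      linear_combination (2 * v 0 - 2 * v 1) * hφ
    · simp only [mS, Fin.mk_one, Matrix.cons_val_zero, Matrix.cons_val_one]
      linear_combination (φ * (2 * v 0 - 2 * v 1)) * hφ
  exact ⟨e1, e2, e3, e4, e5, e6, e7, e8⟩

lemma M5_eq (v : Fin 2 → ℝ) : mL φ (-1) (-1) 2 v
    = ![(1 + φ) * v 0 - (1 + 2 * φ) * v 1, (φ ^ 2 + 1) * v 0 - (2 * φ ^ 2 - 1) * v 1] := by
  ext i; fin_cases i
  · simp only [mL, mA, Fin.zero_eta, Matrix.cons_val_zero, Matrix.cons_val_one, Pi.add_apply,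
      Pi.smul_apply, smul_eq_mul]
    push_cast
    ring
  · simp only [mL, mA, Fin.mk_one, Matrix.cons_val_zero, Matrix.cons_val_one, Pi.add_apply,
      Pi.smul_apply, smul_eq_mul]
    push_cast
    linear_combination (2 * v 0) * hφ

lemma M7_eq (v : Fin 2 → ℝ) : mL φ (-2) 1 1 v
    = ![-(1 + φ) * v 0 + (1 - φ) * v 1, (2 - φ ^ 2) * v 0 - (φ ^ 2 + 1) * v 1] := by
  ext i; fin_cases i
  · simp only [mL, mA, Fin.zero_eta, Matrix.cons_val_zero, Matrix.cons_val_one, Pi.add_apply,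
      Pi.smul_apply, smul_eq_mul]
    push_cast
    ring
  · simp only [mL, mA, Fin.mk_one, Matrix.cons_val_zero, Matrix.cons_val_one, Pi.add_apply,
      Pi.smul_apply, smul_eq_mul]
    push_cast
    linear_combination (v 0) * hφ

lemma M11_eq (v : Fin 2 → ℝ) : mL φ 3 0 (-1) v
    = ![2 * v 0 + φ * v 1, -v 0 + (φ ^ 2 + 2) * v 1] := by
  ext i; fin_cases i
  · simp only [mL, mA, Fin.zero_eta, Matrix.cons_val_zero, Matrix.cons_val_one, Pi.add_apply,
      Pi.smul_apply, smul_eq_mul]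
    push_cast
    ring
  · simp only [mL, mA, Fin.mk_one, Matrix.cons_val_zero, Matrix.cons_val_one, Pi.add_apply,
      Pi.smul_apply, smul_eq_mul]
    push_cast
    linear_combination (-v 0) * hφ

omit hφ in
lemma mS_neg (v : Fin 2 → ℝ) : mS φ (-v) = -mS φ v := by
  ext i; fin_cases i <;> simp [mS] <;> ring

omit hφ in
lemma mS_iter_neg (k : ℕ) (v : Fin 2 → ℝ) : (mS φ)^[k] (-v) = -(mS φ)^[k] v := by
  induction k generalizing v with
  | zero => rfl
  | succ k ih => rw [Function.iterate_succ_apply, Function.iterate_succ_apply, mS_neg, ih]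

omit hφ in
lemma mA_neg (v : Fin 2 → ℝ) : mA φ (-v) = -mA φ v := by
  ext i; fin_cases i <;> simp [mA] <;> ring

omit hφ in
lemma mL_neg (a b c : ℤ) (v : Fin 2 → ℝ) : mL φ a b c (-v) = -mL φ a b c v := by
  rw [mL, mL, mA_neg, mA_neg, smul_neg, smul_neg, smul_neg]
  abel

end

/-- It suffices to check the inequalities for `v 1 ≥ 0`. -/
theorem Good.mk' {φ : ℝ} {N : (Fin 2 → ℝ) → ℝ} {tR K1 K2 : ℝ} (hN : IsNorm2 N)
    (K1pos : 0 < K1) (K2pos : 0 < K2) (hK : K1 * K2 ≤ 98 / 10)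
    (h1 : ∀ v, eN φ v ^ 2 ≤ K1 * N v ^ 2)
    (h2 : ∀ v, N v ^ 2 ≤ K2 * eN φ v ^ 2)
    (h5 : ∀ v, 0 ≤ v 1 → N (mS φ (mS φ v)) ≤ N (mL φ (-1) (-1) 2 v))
    (h7 : ∀ v, 0 ≤ v 1 → N v ≤ N (mL φ (-2) 1 1 v))
    (h11 : ∀ v, 0 ≤ v 1 → N v ≤ N (mL φ 3 0 (-1) v))
    (hI0 : ∀ v, v 1 = 0 → N (mS φ v) ≤ N v)
    (hI : ∀ v, 0 < v 1 → tR * v 1 ≤ v 0 → N (mS φ v) ≤ N v ∨ N (mS φ (mS φ v)) ≤ N v ∨
      N (mS φ (mS φ (mS φ v))) ≤ N v)
    (hII : ∀ v, 0 < v 1 → v 0 < tR * v 1 → v 0 ≠ 0 → ∀ k, 1 ≤ k → k ≤ 8 →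
      N v < N ((mS φ)^[k] v)) : Good φ N tR K1 K2 where
  norm := hN
  K1pos := K1pos
  K2pos := K2pos
  hK := hK
  h1 := h1
  h2 := h2
  h5 := by
    intro v
    rcases le_total 0 (v 1) with h | h
    · exact h5 v h
    · have := h5 (-v) (by simpa using h)
      rwa [mS_neg, mS_neg, mL_neg, hN.neg, hN.neg] at this
  h7 := by
    intro v
    rcases le_total 0 (v 1) with h | h
    · exact h7 v h
    · have := h7 (-v) (by simpa using h)
      rwa [mL_neg, hN.neg, hN.neg] at this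
  h11 := by
    intro v
    rcases le_total 0 (v 1) with h | h
    · exact h11 v h
    · have := h11 (-v) (by simpa using h)
      rwa [mL_neg, hN.neg, hN.neg] at this
  hI := by
    intro v _ hE
    rw [EC, not_lt] at hE
    rcases lt_trichotomy (v 1) 0 with h | h | h
    · have h3 : tR * (-v) 1 ≤ (-v) 0 := by
        simp only [Pi.neg_apply]
        by_contra hcon
        have hcon := not_le.1 hcon
        have : 0 < v 1 * (tR * v 1 - v 0) := mul_pos_of_neg_of_neg h (by linarith)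
        linarith
      have := hI (-v) (by simpa using h) h3
      simpa only [mS_neg, hN.neg] using this
    · exact Or.inl (hI0 v h)
    · apply hI v h
      by_contra hcon
      have hcon := not_le.1 hcon
      have : 0 < v 1 * (tR * v 1 - v 0) := mul_pos h (by linarith)
      linarith
  hII := by
    intro v hE h0 k hk1 hk8
    rw [EC] at hE
    rcases lt_trichotomy (v 1) 0 with h | h | h
    · have h3 : (-v) 0 < tR * (-v) 1 := by
        simp only [Pi.neg_apply]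
        have : tR * v 1 - v 0 < 0 := by
          by_contra hcon
          have := mul_nonpos_of_nonpos_of_nonneg h.le (not_lt.1 hcon)
          linarith
        linarith
      have := hII (-v) (by simpa using h) h3 (by simpa using h0) k hk1 hk8
      rwa [mS_iter_neg, hN.neg, hN.neg] at this
    · rw [h, zero_mul] at hE; exact absurd hE (lt_irrefl _)
    · apply hII v h _ h0 k hk1 hk8
      have : 0 < tR * v 1 - v 0 := (mul_pos_iff_of_pos_left h).1 hE
      linarith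

end Pool.Agent.Helper54.Growth
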