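import Pool.Agent.Lib.Helper54.Growth.Count

/-!
# The vector `θ = (φ, φ ^ 2)`: units of `ℤ[φ]` as integer points
-/

set_option autoImplicit false

namespace Pool.Agent.Helper54.Growth

open Filter

/-- Multiplication by `φ` on error vectors. -/
def mA (φ : ℝ) (v : Fin 2 → ℝ) : Fin 2 → ℝ := ![v 1 - φ * v 0, -(φ ^ 2 - 1) * v 0]

/-- Multiplication by `φ⁻¹` on error vectors. -/
def mS (φ : ℝ) (v : Fin 2 → ℝ) : Fin 2 → ℝ := ![-φ * v 1, v 0 - φ ^ 2 * v 1]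

/-- Multiplication by `a + b φ + c φ ^ 2` on error vectors. -/
def mL (φ : ℝ) (a b c : ℤ) (v : Fin 2 → ℝ) : Fin 2 → ℝ :=
  (a : ℝ) • v + (b : ℝ) • mA φ v + (c : ℝ) • mA φ (mA φ v)

/-- Error vector of the integer point of `A + B φ + C φ ^ 2`. -/
def vE (φ : ℝ) (A B C : ℤ) : Fin 2 → ℝ := ![A * φ - C, A * φ ^ 2 - B]

/-- Error vector of `φ ^ n`. -/
def vU (φ : ℝ) (n : ℕ) : Fin 2 → ℝ := vE φ (U n).1 (U n).2.1 (U n).2.2

/-- Height of `φ ^ n`. -/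
def XU (n : ℕ) : ℕ := (U n).1.natAbs

section

variable {φ : ℝ} (hφ : φ ^ 3 = φ + 1)

lemma vE_eq (A B C : ℤ) : vE φ A B C = errV (eθ φ) A ![C, B] := by
  ext i; fin_cases i <;> simp [vE, errV, eθ]

lemma errV_eq (x : ℤ) (y : Fin 2 → ℤ) : errV (eθ φ) x y = vE φ x (y 1) (y 0) := by
  ext i; fin_cases i <;> simp [vE, errV, eθ]

include hφ

lemma eθ_adm' : Adm (eθ φ) := eθ_adm hφ

lemma mA_mS (v : Fin 2 → ℝ) : mA φ (mS φ v) = v := by
  ext i; fin_cases i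
  · simp only [mA, mS, Fin.zero_eta, Matrix.cons_val_zero, Matrix.cons_val_one]
    ring
  · simp only [mA, mS, Fin.mk_one, Matrix.cons_val_zero, Matrix.cons_val_one]
    linear_combination (v 1) * hφ

lemma mS_mA (v : Fin 2 → ℝ) : mS φ (mA φ v) = v := by
  ext i; fin_cases i
  · simp only [mA, mS, Fin.zero_eta, Matrix.cons_val_zero, Matrix.cons_val_one]
    linear_combination (v 0) * hφ
  · simp only [mA, mS, Fin.mk_one, Matrix.cons_val_zero, Matrix.cons_val_one]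
    linear_combination (φ * v 0) * hφ

lemma mA_vU (n : ℕ) : mA φ (vU φ n) = vU φ (n + 1) := by
  ext i; fin_cases i
  · simp only [mA, vU, vE, U, Fin.zero_eta, Matrix.cons_val_zero, Matrix.cons_val_one]
    ring
  · simp only [mA, vU, vE, U, Fin.mk_one, Matrix.cons_val_zero, Matrix.cons_val_one]
    push_cast
    linear_combination (-((U n).1 : ℝ)) * hφ

lemma mS_vU (n : ℕ) : mS φ (vU φ (n + 1)) = vU φ n := by
  rw [← mA_vU hφ, mS_mA hφ]

omit hφ in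
lemma vE_add (A B C A' B' C' : ℤ) : vE φ (A + A') (B + B') (C + C') = vE φ A B C + vE φ A' B' C' := by
  ext i; fin_cases i <;> simp [vE] <;> ring

omit hφ in
lemma vE_smul (k A B C : ℤ) : vE φ (k * A) (k * B) (k * C) = (k : ℝ) • vE φ A B C := by
  ext i; fin_cases i <;> simp [vE] <;> ring

omit hφ in
/-- Coordinates relative to `φ ^ m, φ ^ (m + 1), φ ^ (m + 2)`. -/
lemma decomp (m : ℕ) (A B C : ℤ) : ∃ a b c : ℤ,
    A = a * (U m).1 + b * (U (m + 1)).1 + c * (U (m + 2)).1 ∧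
    B = a * (U m).2.1 + b * (U (m + 1)).2.1 + c * (U (m + 2)).2.1 ∧
    C = a * (U m).2.2 + b * (U (m + 1)).2.2 + c * (U (m + 2)).2.2 := by
  induction m with
  | zero => exact ⟨A, B, C, by simp [U], by simp [U], by simp [U]⟩
  | succ m ih =>
    obtain ⟨a, b, c, h1, h2, h3⟩ := ih
    refine ⟨b - a, c, a, ?_, ?_, ?_⟩
    · rw [h1]; simp only [U]; ring
    · rw [h2]; simp only [U]; ring
    · rw [h3]; simp only [U]; ring

omit hφ in
lemma Rr_lin (a b c : ℤ) (x y z : ℤ × ℤ × ℤ) :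
    Rr φ (a * x.1 + b * y.1 + c * z.1) (a * x.2.1 + b * y.2.1 + c * z.2.1)
      (a * x.2.2 + b * y.2.2 + c * z.2.2)
    = a * Rr φ x.1 x.2.1 x.2.2 + b * Rr φ y.1 y.2.1 y.2.2 + c * Rr φ z.1 z.2.1 z.2.2 := by
  simp only [Rr]; push_cast; ring

omit hφ in
lemma Wc_lin (a b c : ℤ) (x y z : ℤ × ℤ × ℤ) :
    Wc φ (a * x.1 + b * y.1 + c * z.1) (a * x.2.1 + b * y.2.1 + c * z.2.1)
      (a * x.2.2 + b * y.2.2 + c * z.2.2)
    = a * Wc φ x.1 x.2.1 x.2.2 + b * Wc φ y.1 y.2.1 y.2.2 + c * Wc φ z.1 z.2.1 z.2.2 := by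
  simp only [Wc]; push_cast; ring

lemma decomp_R (m : ℕ) (a b c : ℤ) :
    Rr φ (a * (U m).1 + b * (U (m + 1)).1 + c * (U (m + 2)).1)
      (a * (U m).2.1 + b * (U (m + 1)).2.1 + c * (U (m + 2)).2.1)
      (a * (U m).2.2 + b * (U (m + 1)).2.2 + c * (U (m + 2)).2.2) = φ ^ m * Rr φ a b c := by
  rw [Rr_lin, Rr_U hφ, Rr_U hφ, Rr_U hφ, Rr]
  ring

lemma decomp_W (m : ℕ) (a b c : ℤ) :
    Wc φ (a * (U m).1 + b * (U (m + 1)).1 + c * (U (m + 2)).1)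
      (a * (U m).2.1 + b * (U (m + 1)).2.1 + c * (U (m + 2)).2.1)
      (a * (U m).2.2 + b * (U (m + 1)).2.2 + c * (U (m + 2)).2.2) = (pc φ) ^ m * Wc φ a b c := by
  rw [Wc_lin, Wc_U hφ, Wc_U hφ, Wc_U hφ, Wc]
  ring

lemma decomp_v (m : ℕ) (a b c : ℤ) :
    vE φ (a * (U m).1 + b * (U (m + 1)).1 + c * (U (m + 2)).1)
      (a * (U m).2.1 + b * (U (m + 1)).2.1 + c * (U (m + 2)).2.1)
      (a * (U m).2.2 + b * (U (m + 1)).2.2 + c * (U (m + 2)).2.2) = mL φ a b c (vU φ m) := by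
  rw [vE_add, vE_add, vE_smul, vE_smul, vE_smul]
  rw [mL, mA_vU hφ, mA_vU hφ]
  rfl

/-- The complex embedding in terms of the error vector. -/
lemma Wc_vE (A B C : ℤ) : Wc φ A B C
    = -(pc φ) * (((vE φ A B C 1 : ℝ) : ℂ) + (vE φ A B C 0 : ℝ) * pc φ) := by
  have h3 := pc_cube hφ
  have h : (1 : ℂ) + φ * (pc φ) ^ 2 + (φ : ℂ) ^ 2 * pc φ = 0 := by
    rw [pc_sq hφ, pc]
    apply Complex.ext
    · simp only [Complex.add_re, Complex.mul_re, Complex.ofReal_re, Complex.ofReal_im,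
        Complex.zero_re, Complex.one_re, ← Complex.ofReal_pow]
      linear_combination (-1 : ℝ) * hφ
    · simp only [Complex.add_im, Complex.mul_im, Complex.ofReal_re, Complex.ofReal_im,
        Complex.zero_im, Complex.one_im, ← Complex.ofReal_pow]
      ring
  simp only [vE, Wc, Matrix.cons_val_zero, Matrix.cons_val_one]
  push_cast
  linear_combination (A : ℂ) * h

omit hφ in
lemma eN_eq (v : Fin 2 → ℝ) : eN φ v = ‖((v 1 : ℝ) : ℂ) + (v 0 : ℝ) * pc φ‖ := by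
  rw [eN]
  congr 1
  apply Complex.ext
  · simp [pc, Complex.add_re, Complex.mul_re]; ring
  · simp [pc, sI, Complex.add_im, Complex.mul_im]; ring

lemma norm_Wc_sq (A B C : ℤ) : ‖Wc φ A B C‖ ^ 2 * φ = eN φ (vE φ A B C) ^ 2 := by
  rw [Wc_vE hφ, norm_mul, norm_neg, ← eN_eq, mul_pow]
  linear_combination (eN φ (vE φ A B C) ^ 2) * norm_pc_sq hφ

lemma eN_vU_sq (n : ℕ) : eN φ (vU φ n) ^ 2 * φ ^ n = φ := by
  rw [vU, ← norm_Wc_sq hφ, Wc_U hφ, norm_pow]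
  have := norm_pc_pow_sq hφ n
  linear_combination φ * this

/-- The height in terms of the real embedding and the error vector. -/
lemma height_eq (A B C : ℤ) : (2 * φ + 3) * (A : ℝ)
    = Rr φ A B C + (φ ^ 2 * vE φ A B C 0 + φ * vE φ A B C 1) := by
  simp only [vE, Rr, Matrix.cons_val_zero, Matrix.cons_val_one]
  linear_combination (-2 * (A : ℝ)) * hφ

lemma corr_le (v : Fin 2 → ℝ) : |φ ^ 2 * v 0 + φ * v 1| ≤ 20 * eN φ v := by
  have h1 := corr_bound hφ v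
  have h2 : 0 ≤ eN φ v := norm_nonneg _
  apply abs_le_of_sq_le_sq _ (by positivity)
  nlinarith

lemma eN_vU_le (n : ℕ) (ε : ℝ) (hε : 0 < ε) (h : φ < ε ^ 2 * φ ^ n) : eN φ (vU φ n) < ε := by
  have h1 := eN_vU_sq hφ n
  have hφ1 := phi_gt_one hφ
  have h2 : 0 ≤ eN φ (vU φ n) := norm_nonneg _
  by_contra hcon
  have hcon := not_lt.1 hcon
  have h3 : ε ^ 2 * φ ^ n ≤ eN φ (vU φ n) ^ 2 * φ ^ n :=
    mul_le_mul_of_nonneg_right (pow_le_pow_left₀ hε.le hcon 2) (by positivity)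
  linarith

lemma eN_vU_eventually (ε : ℝ) (hε : 0 < ε) : ∃ n1, ∀ n, n1 ≤ n → eN φ (vU φ n) < ε := by
  have hφ1 := phi_gt_one hφ
  obtain ⟨n1, hn1⟩ := pow_unbounded_of_one_lt (φ / ε ^ 2) hφ1
  refine ⟨n1, fun n hn => eN_vU_le hφ n ε hε ?_⟩
  have : φ / ε ^ 2 < φ ^ n := hn1.trans_le (pow_le_pow_right₀ hφ1.le hn)
  rw [div_lt_iff₀ (by positivity)] at this
  linarith

/-- Heights of the powers of `φ`. -/
lemma height_U (n : ℕ) : |(2 * φ + 3) * ((U n).1 : ℝ) - φ ^ n| ≤ 20 * eN φ (vU φ n) := by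
  have h1 := height_eq hφ (U n).1 (U n).2.1 (U n).2.2
  rw [Rr_U hφ] at h1
  have h2 := corr_le hφ (vU φ n)
  rw [h1]
  have e : φ ^ n + (φ ^ 2 * vE φ (U n).1 (U n).2.1 (U n).2.2 0
      + φ * vE φ (U n).1 (U n).2.1 (U n).2.2 1) - φ ^ n
      = φ ^ 2 * vU φ n 0 + φ * vU φ n 1 := by rw [vU]; ring
  rw [e]; exact h2

/-- From some index on the heights are positive and increasing. -/
lemma heights : ∃ n0 : ℕ, ∀ n, n0 ≤ n → eN φ (vU φ n) < 1 / 400 ∧ 0 < (U n).1 ∧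
    XU n < XU (n + 1) ∧ 10000 < φ ^ n ∧ |(2 * φ + 3) * (XU n : ℝ) - φ ^ n| ≤ 1 / 20 := by
  have hφ1 := phi_gt_one hφ
  obtain ⟨hb1, hb2⟩ := phi_bounds hφ
  obtain ⟨n1, hn1⟩ := eN_vU_eventually hφ (1 / 400) (by norm_num)
  obtain ⟨n2, hn2⟩ := pow_unbounded_of_one_lt 10000 hφ1
  have hpos : ∀ n, max n1 n2 ≤ n → 0 < (U n).1 ∧ 10000 < φ ^ n ∧
      |(2 * φ + 3) * ((U n).1 : ℝ) - φ ^ n| ≤ 1 / 20 := by
    intro n hn
    have h1 := hn1 n ((le_max_left _ _).trans hn)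
    have h2 : 10000 < φ ^ n := hn2.trans_le (pow_le_pow_right₀ hφ1.le ((le_max_right _ _).trans hn))
    have h3 := height_U hφ n
    have h4 : |(2 * φ + 3) * ((U n).1 : ℝ) - φ ^ n| ≤ 1 / 20 := by linarith
    refine ⟨?_, h2, h4⟩
    have h5 := (abs_le.1 h4).1
    by_contra hcon
    have h6 : ((U n).1 : ℝ) ≤ 0 := by exact_mod_cast not_lt.1 hcon
    have h7 : (2 * φ + 3) * ((U n).1 : ℝ) ≤ 0 := mul_nonpos_of_nonneg_of_nonpos (by linarith) h6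
    linarith
  refine ⟨max n1 n2, ?_⟩
  intro n hn
  obtain ⟨h1, h2, h3⟩ := hpos n hn
  obtain ⟨h1', h2', h3'⟩ := hpos (n + 1) (by omega)
  have e : (XU n : ℝ) = ((U n).1 : ℝ) := by
    rw [XU, ← Int.cast_natCast, Int.natAbs_of_nonneg h1.le]
  refine ⟨hn1 n ((le_max_left _ _).trans hn), h1, ?_, h2, by rw [e]; exact h3⟩
  have h4 : ((U n).1 : ℝ) < ((U (n + 1)).1 : ℝ) := by
    have a1 := (abs_le.1 h3).2
    have a2 := (abs_le.1 h3').1
    have a3 : φ ^ (n + 1) = φ * φ ^ n := by ring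
    rw [a3] at a2
    have a4 : (2 * φ + 3) * ((U n).1 : ℝ) < (2 * φ + 3) * ((U (n + 1)).1 : ℝ) := by nlinarith
    exact lt_of_mul_lt_mul_left a4 (by linarith)
  have h5 : (U n).1 < (U (n + 1)).1 := by exact_mod_cast h4
  rw [XU, XU]; omega

end

end Pool.Agent.Helper54.Growth
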