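import Pool.Agent.Lib.Helper54.Growth.Sup
import Pool.Agent.Lib.Helper54.Growth.Euc

/-!
# Problem MP_8d3206: best approximation vectors are nonzero integer points, and the values of `G`
-/

set_option autoImplicit false

namespace Pool.Agent.Helper54.Growth

open Filter

/-- `(x, y) ≠ 0` is a best approximation vector of `θ` for the norm `N`: the only integer
points `(x', y')` with `|x'| ≤ |x|` and `N (x' θ - y') ≤ N (x θ - y)` are `0` and `± (x, y)`. -/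
def IsBest0 (N : (Fin 2 → ℝ) → ℝ) (θ : Fin 2 → ℝ) (x : ℤ) (y : Fin 2 → ℤ) : Prop :=
  ¬ (x = 0 ∧ y = 0) ∧ ∀ (x' : ℤ) (y' : Fin 2 → ℤ), |x'| ≤ |x| →
    N (errV θ x' y') ≤ N (errV θ x y) →
    (x' = 0 ∧ y' = 0) ∨ (x' = x ∧ y' = y) ∨ (x' = -x ∧ y' = -y)

/-- `k = |x|` for some best approximation vector `(x, y)`. -/
def IsDen0 (N : (Fin 2 → ℝ) → ℝ) (θ : Fin 2 → ℝ) (k : ℕ) : Prop :=
  ∃ (x : ℤ) (y : Fin 2 → ℤ), IsBest0 N θ x y ∧ x.natAbs = k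

/-- `M_ν` for `ν = 1, 2, 3, ...`: the values `|x|` of the best approximation vectors in increasing
order (`Nat.nth P 0` is the least `k` with `P k`). -/
noncomputable def M0 (N : (Fin 2 → ℝ) → ℝ) (θ : Fin 2 → ℝ) (ν : ℕ) : ℕ :=
  Nat.nth (IsDen0 N θ) (ν - 1)

/-- `G(θ) = liminf M_ν ^ (1 / ν)`. -/
noncomputable def G0 (N : (Fin 2 → ℝ) → ℝ) (θ : Fin 2 → ℝ) : EReal :=
  liminf (fun ν : ℕ => (((M0 N θ ν : ℝ) ^ (1 / (ν : ℝ)) : ℝ) : EReal)) atTop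

lemma G0_eq {N : (Fin 2 → ℝ) → ℝ} {θ : Fin 2 → ℝ}
    (hrot : ∀ y : Fin 2 → ℤ, N (errV θ 0 ![-(y 1), y 0]) = N (errV θ 0 y)) :
    G0 N θ = G N θ := by
  have h : IsDen0 N θ = IsDen N θ := by
    ext k
    constructor
    · rintro ⟨x, y, ⟨h0, hb⟩, hk⟩
      refine ⟨x, y, ⟨?_, hb⟩, hk⟩
      intro hx
      have hy : y ≠ 0 := fun hy => h0 ⟨hx, hy⟩
      apply hy
      have h1 := hb 0 ![-(y 1), y 0] (by rw [hx]) (by rw [hx, hrot])
      rcases h1 with ⟨-, h2⟩ | ⟨-, h2⟩ | ⟨-, h2⟩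
      · have a0 := congrFun h2 0
        have a1 := congrFun h2 1
        simp at a0 a1
        ext i; fin_cases i
        · simpa using a1
        · simpa using a0
      · have a0 := congrFun h2 0
        have a1 := congrFun h2 1
        simp at a0 a1
        have b0 : y 0 = 0 := by omega
        have b1 : y 1 = 0 := by omega
        ext i; fin_cases i
        · simpa using b0
        · simpa using b1
      · have a0 := congrFun h2 0
        have a1 := congrFun h2 1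
        simp at a0 a1
        have b0 : y 0 = 0 := by omega
        have b1 : y 1 = 0 := by omega
        ext i; fin_cases i
        · simpa using b0
        · simpa using b1
    · rintro ⟨x, y, ⟨h0, hb⟩, hk⟩
      exact ⟨x, y, ⟨fun h => h0 h.1, hb⟩, hk⟩
  have hM : M0 N θ = M N θ := by
    ext ν; rw [M0, M, h]
  rw [G0, G, hM]

lemma rot_sup (θ : Fin 2 → ℝ) (y : Fin 2 → ℤ) :
    supN (errV θ 0 ![-(y 1), y 0]) = supN (errV θ 0 y) := by
  simp only [supN, errV]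
  simp [max_comm]

lemma rot_euclid (θ : Fin 2 → ℝ) (y : Fin 2 → ℤ) :
    euclid (errV θ 0 ![-(y 1), y 0]) = euclid (errV θ 0 y) := by
  simp only [euclid, errV]
  simp [add_comm]

theorem value_sup {φ : ℝ} (hφ : φ ^ 3 = φ + 1) : G0 supN ![φ, φ ^ 2]
    = ((φ ^ (Real.pi / Real.arctan (φ * Real.sqrt (3 * φ ^ 2 - 4) / (3 * φ ^ 2 - 2 * φ - 2))) : ℝ)
      : EReal) ∧ (φ : EReal) < G0 supN ![φ, φ ^ 2] := by
  obtain ⟨p1, p2⟩ := phi_fine hφ
  obtain ⟨q1, q2⟩ := phi_sq_fine hφ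
  rw [G0_eq (rot_sup _)]
  have h := (good_sup hφ).G_value hφ (by linarith)
  have e : φ ^ 2 - 2 * (1 + φ - φ ^ 2) = 3 * φ ^ 2 - 2 * φ - 2 := by ring
  rw [e] at h
  refine ⟨h.1, lt_trans ?_ h.2⟩
  have : φ < φ ^ 2 := by nlinarith
  exact_mod_cast this

theorem value_euclid {φ : ℝ} (hφ : φ ^ 3 = φ + 1) : G0 euclid ![φ, φ ^ 2]
    = ((φ ^ (Real.pi / Real.arctan (φ ^ 2 * (2 * φ + 3) * Real.sqrt (3 * φ ^ 2 - 4)
      / (2 * Real.sqrt (φ ^ 2 + 4 * φ + 1) + 1 - φ))) : ℝ) : EReal) ∧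
    (φ : EReal) < G0 euclid ![φ, φ ^ 2] := by
  obtain ⟨p1, p2⟩ := phi_fine hφ
  obtain ⟨q1, q2⟩ := phi_sq_fine hφ
  obtain ⟨r1, r2, -⟩ := tE_fine hφ
  obtain ⟨s1, s2⟩ := sqrt_fine hφ
  rw [G0_eq (rot_euclid _)]
  have h := (good_euclid hφ).G_value hφ (by linarith)
  have hd : 2 * φ ^ 2 + 3 * φ ≠ 0 := by linarith
  have hφ0 : φ ≠ 0 := by linarith
  have h23 : 2 * φ + 3 ≠ 0 := by linarith
  have e1 : (2 * φ ^ 2 + 3 * φ) * tE φ = φ ^ 2 + 3 * φ + 1 - Real.sqrt (φ ^ 2 + 4 * φ + 1) := by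
    rw [tE, mul_div_assoc', mul_div_cancel_left₀ _ hd]
  have e2 : (φ * (2 * φ + 3)) * (φ ^ 2 - 2 * tE φ)
      = 2 * Real.sqrt (φ ^ 2 + 4 * φ + 1) + 1 - φ := by
    linear_combination (-2 : ℝ) * e1 + (2 * φ + 3) * hφ
  have hne : φ ^ 2 - 2 * tE φ ≠ 0 := by linarith
  have e : φ * Real.sqrt (3 * φ ^ 2 - 4) / (φ ^ 2 - 2 * tE φ)
      = φ ^ 2 * (2 * φ + 3) * Real.sqrt (3 * φ ^ 2 - 4)
      / (2 * Real.sqrt (φ ^ 2 + 4 * φ + 1) + 1 - φ) := by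
    rw [← e2]
    field_simp
  rw [e] at h
  refine ⟨h.1, lt_trans ?_ h.2⟩
  have : φ < φ ^ 2 := by nlinarith
  exact_mod_cast this

end Pool.Agent.Helper54.Growth
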