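import Pool.Agent.Lib.Helper54.Growth.Classify

/-!
# The denominators of `(φ, φ ^ 2)` for a norm satisfying finitely many comparison inequalities
-/

set_option autoImplicit false

namespace Pool.Agent.Helper54.Growth

open Filter

/-- The cone of directions of the record units. -/
def EC (tR : ℝ) (v : Fin 2 → ℝ) : Prop := 0 < v 1 * (tR * v 1 - v 0)

/-- The inequalities needed for the norm `N`. -/
structure Good (φ : ℝ) (N : (Fin 2 → ℝ) → ℝ) (tR K1 K2 : ℝ) : Prop where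
  norm : IsNorm2 N
  K1pos : 0 < K1
  K2pos : 0 < K2
  hK : K1 * K2 ≤ 98 / 10
  h1 : ∀ v, eN φ v ^ 2 ≤ K1 * N v ^ 2
  h2 : ∀ v, N v ^ 2 ≤ K2 * eN φ v ^ 2
  h5 : ∀ v, N (mS φ (mS φ v)) ≤ N (mL φ (-1) (-1) 2 v)
  h7 : ∀ v, N v ≤ N (mL φ (-2) 1 1 v)
  h11 : ∀ v, N v ≤ N (mL φ 3 0 (-1) v)
  hI : ∀ v, v ≠ 0 → ¬ EC tR v → N (mS φ v) ≤ N v ∨ N (mS φ (mS φ v)) ≤ N v ∨
    N (mS φ (mS φ (mS φ v))) ≤ N v
  hII : ∀ v, EC tR v → v 0 ≠ 0 → ∀ k, 1 ≤ k → k ≤ 8 → N v < N ((mS φ)^[k] v)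

section

variable {φ : ℝ} (hφ : φ ^ 3 = φ + 1)
include hφ

lemma mL_two (v : Fin 2 → ℝ) : mL φ 2 2 (-2) v = (2 : ℝ) • mS φ (mS φ v) := by
  ext i; fin_cases i
  · simp only [mL, mA, mS, Fin.zero_eta, Matrix.cons_val_zero, Matrix.cons_val_one, Pi.add_apply,
      Pi.smul_apply, smul_eq_mul]
    push_cast
    linear_combination (-2 * v 1) * hφ
  · simp only [mL, mA, mS, Fin.mk_one, Matrix.cons_val_zero, Matrix.cons_val_one, Pi.add_apply,
      Pi.smul_apply, smul_eq_mul]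
    push_cast
    linear_combination (-2 * φ * v 1 - 2 * v 0) * hφ

lemma mS_iter_vU (k n : ℕ) : (mS φ)^[k] (vU φ (n + k)) = vU φ n := by
  induction k with
  | zero => rfl
  | succ k ih =>
    rw [Function.iterate_succ_apply, ← add_assoc, mS_vU hφ]
    exact ih

omit hφ in
lemma mL_one (v : Fin 2 → ℝ) : mL φ 1 0 0 v = v := by
  simp [mL]

lemma vU_zero_ne (n : ℕ) (hn : (U n).1 ≠ 0) : vU φ n 0 ≠ 0 := by
  intro h
  simp only [vU, vE, Matrix.cons_val_zero] at h
  exact phi_irr hφ (U n).1 (U n).2.2 hn (by linarith)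

end

namespace Good

variable {φ : ℝ} {N : (Fin 2 → ℝ) → ℝ} {tR K1 K2 : ℝ} (hG : Good φ N tR K1 K2)
  (hφ : φ ^ 3 = φ + 1)
include hG hφ

/-- Unit vectors are short also for `N`. -/
lemma N_vU_eventually (ε : ℝ) (hε : 0 < ε) : ∃ n1, ∀ n, n1 ≤ n → N (vU φ n) < ε := by
  obtain ⟨n1, hn1⟩ := eN_vU_eventually hφ (ε / (1 + K2)) (by have := hG.K2pos; positivity)
  refine ⟨n1, fun n hn => ?_⟩
  have h1 := hn1 n hn
  have h2 := hG.h2 (vU φ n)
  have h3 : 0 ≤ eN φ (vU φ n) := norm_nonneg _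
  have hK2 := hG.K2pos
  have h4 : eN φ (vU φ n) * (1 + K2) < ε := by rwa [lt_div_iff₀ (by positivity)] at h1
  have h5 : N (vU φ n) ^ 2 < ε ^ 2 := by
    calc N (vU φ n) ^ 2 ≤ K2 * eN φ (vU φ n) ^ 2 := h2
      _ ≤ (eN φ (vU φ n) * (1 + K2)) ^ 2 := by
          rw [mul_pow]
          have : K2 ≤ (1 + K2) ^ 2 := by nlinarith
          nlinarith [sq_nonneg (eN φ (vU φ n))]
      _ < ε ^ 2 := pow_lt_pow_left₀ h4 (by positivity) (by norm_num)
  exact lt_of_pow_lt_pow_left₀ 2 hε.le h5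

/-- A point between consecutive units which beats the units is impossible. -/
lemma no_better {m : ℕ} (hm : 2 ≤ m)
    (hs : eN φ (vU φ m) < 1 / 400) (hb : 10000 < φ ^ m) (hp : 0 < (U (m + 1)).1)
    (hX : |(2 * φ + 3) * (XU m : ℝ) - φ ^ m| ≤ 1 / 20)
    (hX' : |(2 * φ + 3) * (XU (m + 1) : ℝ) - φ ^ (m + 1)| ≤ 1 / 20)
    (x : ℤ) (y : Fin 2 → ℤ) (hx : (XU m : ℤ) ≤ x) (hx' : x < (XU (m + 1) : ℤ))
    (hN1 : N (errV (eθ φ) x y) < N (vU φ m)) (hN2 : N (errV (eθ φ) x y) < N (vU φ (m - 2))) :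
    False := by
  have hφ1 := phi_gt_one hφ
  have hN := hG.norm
  rw [errV_eq] at hN1 hN2
  obtain ⟨a, b, c, e1, e2, e3⟩ := decomp m x (y 1) (y 0)
  have hR := decomp_R hφ m a b c
  have hW := decomp_W hφ m a b c
  have hv := decomp_v hφ m a b c
  rw [← e1, ← e2, ← e3] at hR hW hv
  set vz := vE φ x (y 1) (y 0) with hvz
  -- size of the error
  have s1 : eN φ vz ^ 2 < 98 / 10 * eN φ (vU φ m) ^ 2 := by
    have a1 : N vz ^ 2 < N (vU φ m) ^ 2 := pow_lt_pow_left₀ hN1 (hN.nonneg _) (by norm_num)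
    calc eN φ vz ^ 2 ≤ K1 * N vz ^ 2 := hG.h1 _
      _ < K1 * N (vU φ m) ^ 2 := mul_lt_mul_of_pos_left a1 hG.K1pos
      _ ≤ K1 * (K2 * eN φ (vU φ m) ^ 2) := mul_le_mul_of_nonneg_left (hG.h2 _) hG.K1pos.le
      _ = (K1 * K2) * eN φ (vU φ m) ^ 2 := by ring
      _ ≤ 98 / 10 * eN φ (vU φ m) ^ 2 := mul_le_mul_of_nonneg_right hG.hK (sq_nonneg _)
  have hT0 : 0 ≤ eN φ (vU φ m) := norm_nonneg _
  have hT0' : 0 ≤ eN φ vz := norm_nonneg _
  have s2 : eN φ vz < 1 / 100 := by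
    have : eN φ vz ^ 2 < (1 / 100) ^ 2 := by nlinarith
    exact lt_of_pow_lt_pow_left₀ 2 (by norm_num) this
  -- size of the real embedding
  have hh := height_eq hφ x (y 1) (y 0)
  rw [← hvz] at hh
  have hc := corr_le hφ vz
  obtain ⟨c1, c2⟩ := abs_le.1 hc
  obtain ⟨d1, d2⟩ := abs_le.1 hX
  obtain ⟨d1', d2'⟩ := abs_le.1 hX'
  have hxr : (XU m : ℝ) ≤ x := by exact_mod_cast hx
  have hxr' : (x : ℝ) ≤ (XU (m + 1) : ℝ) := by exact_mod_cast hx'.le
  have g1 : (2 * φ + 3) * (XU m : ℝ) ≤ (2 * φ + 3) * x := mul_le_mul_of_nonneg_left hxr (by linarith)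
  have g2 : (2 * φ + 3) * (x : ℝ) ≤ (2 * φ + 3) * (XU (m + 1) : ℝ) :=
    mul_le_mul_of_nonneg_left hxr' (by linarith)
  have hpos : 0 < φ ^ m := by linarith
  have r1 : 999 / 1000 ≤ Rr φ a b c := by
    have : φ ^ m * (999 / 1000) ≤ φ ^ m * Rr φ a b c := by rw [← hR]; linarith
    exact le_of_mul_le_mul_left this hpos
  have r2 : Rr φ a b c ≤ φ + 1 / 1000 := by
    have e : φ ^ (m + 1) = φ ^ m * φ := by ring
    rw [e] at d1' d2'
    have : φ ^ m * Rr φ a b c ≤ φ ^ m * (φ + 1 / 1000) := by rw [← hR]; linarith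
    exact le_of_mul_le_mul_left this hpos
  -- size of the complex embedding
  have r3 : ‖Wc φ a b c‖ ^ 2 < 98 / 10 := by
    have t1 := norm_Wc_sq hφ x (y 1) (y 0)
    rw [← hvz, hW, norm_mul, norm_pow, mul_pow] at t1
    have t2 := norm_pc_pow_sq hφ m
    have t3 := eN_vU_sq hφ m
    have t4 : eN φ vz ^ 2 * φ ^ m < 98 / 10 * (eN φ (vU φ m) ^ 2 * φ ^ m) := by
      calc eN φ vz ^ 2 * φ ^ m < (98 / 10 * eN φ (vU φ m) ^ 2) * φ ^ m :=
            mul_lt_mul_of_pos_right s1 hpos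
        _ = _ := by ring
    rw [t3, ← t1] at t4
    have t5 : (‖pc φ‖ ^ m) ^ 2 * ‖Wc φ a b c‖ ^ 2 * φ * φ ^ m
        = ((‖pc φ‖ ^ m) ^ 2 * φ ^ m) * ‖Wc φ a b c‖ ^ 2 * φ := by ring
    rw [t5, t2] at t4
    have t6 : ‖Wc φ a b c‖ ^ 2 * φ < 98 / 10 * φ := by linarith
    exact lt_of_mul_lt_mul_right t6 (by linarith)
  have hlist := classify hφ a b c r1 r2 r3
  have hSS : mS φ (mS φ (vU φ m)) = vU φ (m - 2) := by
    have := mS_iter_vU hφ 2 (m - 2)
    rw [show m - 2 + 2 = m by omega] at this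
    exact this
  rcases hlist with ⟨rfl, rfl, rfl⟩ | ⟨rfl, rfl, rfl⟩ | ⟨rfl, rfl, rfl⟩ | ⟨rfl, rfl, rfl⟩ |
    ⟨rfl, rfl, rfl⟩ | ⟨rfl, rfl, rfl⟩
  · rw [hv, mL_one] at hN1
    exact lt_irrefl _ hN1
  · have : x = (U (m + 1)).1 := by rw [e1]; ring
    rw [this, XU, Int.natAbs_of_nonneg hp.le] at hx'
    exact lt_irrefl _ hx'
  · have := hG.h5 (vU φ m)
    rw [hSS, ← hv] at this
    linarith
  · have := hG.h7 (vU φ m)
    rw [← hv] at this
    linarith
  · rw [mL_two hφ, hSS] at hv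
    rw [hv, hN.hom] at hN2
    have := hN.nonneg (vU φ (m - 2))
    rw [abs_of_pos (by norm_num : (0:ℝ) < 2)] at hN2
    linarith
  · have := hG.h11 (vU φ m)
    rw [← hv] at this
    linarith

/-- Large record times are heights of units. -/
lemma rec_unit : ∃ n2, 5 ≤ n2 ∧ (∀ n, n2 ≤ n + 5 → 0 < (U n).1 ∧ XU n < XU (n + 1)) ∧
    (∀ n, n2 ≤ n → latDist N (eθ φ) (XU n) = N (vU φ n)) ∧
    ∀ x, XU n2 ≤ x → isRec N (eθ φ) x → ∃ m, n2 ≤ m ∧ XU m = x := by
  have hN := hG.norm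
  obtain ⟨n0, hn0⟩ := heights hφ
  obtain ⟨κ, hκ, hlow⟩ := err_ne_zero (N := N) (θ := eθ φ) hN
  obtain ⟨n1, hn1⟩ := hG.N_vU_eventually hφ (κ / 2) (by positivity)
  refine ⟨max n0 n1 + 5, by omega, fun n hn => ⟨(hn0 n (by omega)).2.1, (hn0 n (by omega)).2.2.1⟩,
    ?_, ?_⟩
  · intro n hn
    have hpos := (hn0 n (by omega)).2.1
    have hsm := hn1 n (by omega)
    have e : (XU n : ℤ) = (U n).1 := by rw [XU, Int.natAbs_of_nonneg hpos.le]
    have hle : latDist N (eθ φ) (XU n) ≤ N (vU φ n) := by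
      have := latDist_le_errV_nat hN (θ := eθ φ) (XU n) ![(U n).2.2, (U n).2.1]
      rwa [e, ← vE_eq] at this
    obtain ⟨y, hy⟩ := latDist_errV_attained hN (θ := eθ φ) (XU n)
    have hyy : y = ![(U n).2.2, (U n).2.1] := by
      by_contra hne
      have h1 := hlow (y - ![(U n).2.2, (U n).2.1]) (sub_ne_zero.2 hne)
      have h2 : errV (eθ φ) 0 (y - ![(U n).2.2, (U n).2.1])
          = -(vU φ n - errV (eθ φ) (XU n : ℤ) y) := by
        rw [vU, vE_eq, e]
        ext i; simp only [errV, Pi.sub_apply, Pi.neg_apply]; push_cast; ring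
      rw [h2, hN.neg] at h1
      have h3 := hN.sub_le (vU φ n) (errV (eθ φ) (XU n : ℤ) y)
      linarith
    rw [← hy, hyy, e, ← vE_eq]; rfl
  · intro x hx hrec
    set n2 := max n0 n1 + 5 with hn2
    -- the unit just below `x`
    have hunb : ∃ n, n2 ≤ n ∧ x < XU (n + 1) := by
      have hgrow : ∀ d, d ≤ XU (n2 + d) := by
        intro d
        induction d with
        | zero => exact Nat.zero_le _
        | succ d ih =>
          have := (hn0 (n2 + d) (by omega)).2.2.1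
          have e : n2 + (d + 1) = n2 + d + 1 := rfl
          rw [e]; omega
      refine ⟨n2 + x, by omega, ?_⟩
      have := hgrow (x + 1)
      have e : n2 + (x + 1) = n2 + x + 1 := rfl
      rw [e] at this; omega
    classical
    set m := Nat.find hunb with hm
    obtain ⟨hm1, hm2⟩ := Nat.find_spec hunb
    have hm3 : XU m ≤ x := by
      rcases Nat.lt_or_ge n2 m with h | h
      · have := Nat.find_min hunb (m := m - 1) (by omega)
        push Not at this
        have h4 := this (by omega)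
        rwa [show m - 1 + 1 = m by omega] at h4
      · have : m = n2 := le_antisymm h hm1
        rw [this]; exact hx
    refine ⟨m, hm1, ?_⟩
    by_contra hne
    have hlt : XU m < x := lt_of_le_of_ne hm3 hne
    obtain ⟨y, hy⟩ := latDist_errV_attained hN (θ := eθ φ) x
    obtain ⟨a1, a2, a3, a4, a5⟩ := hn0 m (by omega)
    obtain ⟨b1, b2, b3, b4, b5⟩ := hn0 (m + 1) (by omega)
    have hdist : ∀ n, n0 ≤ n → n ≤ m → N (errV (eθ φ) (x : ℤ) y) < N (vU φ n) := by
      intro n hn hnm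
      have hpos := (hn0 n hn).2.1
      have e : (XU n : ℤ) = (U n).1 := by rw [XU, Int.natAbs_of_nonneg hpos.le]
      have hle : latDist N (eθ φ) (XU n) ≤ N (vU φ n) := by
        have := latDist_le_errV_nat hN (θ := eθ φ) (XU n) ![(U n).2.2, (U n).2.1]
        rwa [e, ← vE_eq] at this
      have hXle : XU n ≤ XU m := by
        rcases Nat.lt_or_ge n m with h | h
        · exact (X_mono (X := XU) (n0 := n0) (fun k hk => (hn0 k hk).2.2.1) hn h).le
        · have : n = m := le_antisymm hnm h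
          rw [this]
      have hX0 : 0 < XU n := by rw [XU]; omega
      have := hrec.2 (XU n) hX0 (by omega)
      rw [hy]; linarith
    exact hG.no_better hφ (m := m) (by omega) a1 a4 b2 a5 b5 (x : ℤ) y (by exact_mod_cast hlt.le)
      (by exact_mod_cast hm2) (hdist m (by omega) le_rfl) (hdist (m - 2) (by omega) (by omega))

/-- The unit `φ ^ m` gives a record if its error vector lies in the cone. -/
lemma beats {m k : ℕ} (hk : 1 ≤ k) (hE : EC tR (vU φ (m + k))) (h0 : vU φ (m + k) 0 ≠ 0) :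
    N (vU φ (m + k)) < N (vU φ m) := by
  have hN := hG.norm
  have hφ1 := phi_gt_one hφ
  obtain ⟨p1, p2⟩ := phi_fine hφ
  rcases Nat.lt_or_ge 8 k with h | h
  · -- by the size of the units
    have t1 := eN_vU_sq hφ m
    have t2 := eN_vU_sq hφ (m + k)
    have t3 : φ ^ 9 ≤ φ ^ k := pow_le_pow_right₀ hφ1.le h
    have t4 : 98 / 10 < φ ^ 9 := by
      have e : φ ^ 9 = (φ + 1) ^ 3 := by rw [← hφ]; ring
      rw [e]; nlinarith
    have t5 : eN φ (vU φ (m + k)) ^ 2 * φ ^ k = eN φ (vU φ m) ^ 2 := by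
      have hpos : 0 < φ ^ m := by positivity
      have : eN φ (vU φ (m + k)) ^ 2 * φ ^ k * φ ^ m = eN φ (vU φ m) ^ 2 * φ ^ m := by
        calc eN φ (vU φ (m + k)) ^ 2 * φ ^ k * φ ^ m = eN φ (vU φ (m + k)) ^ 2 * φ ^ (m + k) := by
              rw [pow_add]; ring
          _ = eN φ (vU φ m) ^ 2 * φ ^ m := by rw [t1, t2]
      exact mul_right_cancel₀ hpos.ne' this
    have hTpos : 0 < eN φ (vU φ (m + k)) := by
      have h3 : 0 ≤ eN φ (vU φ (m + k)) := norm_nonneg _
      rcases lt_or_eq_of_le h3 with h4 | h4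
      · exact h4
      · rw [← h4] at t2; norm_num at t2; linarith
    have h4 : N (vU φ (m + k)) ^ 2 < N (vU φ m) ^ 2 := by
      have u1 := hG.h2 (vU φ (m + k))
      have u2 := hG.h1 (vU φ m)
      have u3 : 98 / 10 * eN φ (vU φ (m + k)) ^ 2 < eN φ (vU φ m) ^ 2 := by
        rw [← t5]
        nlinarith [pow_pos hTpos 2]
      have u4 : K1 * N (vU φ (m + k)) ^ 2 < K1 * N (vU φ m) ^ 2 := by
        calc K1 * N (vU φ (m + k)) ^ 2 ≤ K1 * (K2 * eN φ (vU φ (m + k)) ^ 2) :=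
              mul_le_mul_of_nonneg_left u1 hG.K1pos.le
          _ = (K1 * K2) * eN φ (vU φ (m + k)) ^ 2 := by ring
          _ ≤ 98 / 10 * eN φ (vU φ (m + k)) ^ 2 := mul_le_mul_of_nonneg_right hG.hK (sq_nonneg _)
          _ < eN φ (vU φ m) ^ 2 := u3
          _ ≤ K1 * N (vU φ m) ^ 2 := u2
      exact lt_of_mul_lt_mul_left u4 hG.K1pos.le
    exact lt_of_pow_lt_pow_left₀ 2 (hN.nonneg _) h4
  · have := hG.hII _ hE h0 k hk h
    rwa [mS_iter_vU hφ] at this

/-- The structure of the denominators. -/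
theorem main : ∃ n0 : ℕ, (∀ n, n0 ≤ n → XU n < XU (n + 1)) ∧
    ∀ k, XU n0 ≤ k → (IsDen N (eθ φ) k ↔ ∃ n, n0 ≤ n ∧ XU n = k ∧ EC tR (vU φ n)) := by
  have hN := hG.norm
  obtain ⟨n2, hn5, hpos, hval, hunit⟩ := hG.rec_unit hφ
  obtain ⟨K, hK⟩ := exists_isDen_of_isRec hN (θ := eθ φ)
  -- a positive lower bound for small heights
  have hlow : ∃ ε : ℝ, 0 < ε ∧ ∀ j : ℕ, 0 < j → j ≤ XU n2 → ε ≤ latDist N (eθ φ) j := by
    generalize XU n2 = L
    induction L with
    | zero => exact ⟨1, one_pos, fun j h1 h2 => by omega⟩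
    | succ L ih =>
      obtain ⟨ε, hε, hle⟩ := ih
      refine ⟨min ε (latDist N (eθ φ) (L + 1)), lt_min hε (latDist_pos hN (eθ_adm hφ) _ (by omega)), ?_⟩
      intro j h1 h2
      rcases Nat.lt_or_ge j (L + 1) with h | h
      · exact (min_le_left _ _).trans (hle j h1 (by omega))
      · have : j = L + 1 := by omega
        rw [this]; exact min_le_right _ _
  obtain ⟨ε, hε, hle⟩ := hlow
  obtain ⟨n3, hn3⟩ := hG.N_vU_eventually hφ ε hε
  have hXmono : ∀ {i j : ℕ}, n2 ≤ i + 5 → i < j → XU i < XU j := by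
    intro i j hi hij
    exact X_mono (X := XU) (n0 := i) (fun k hk => (hpos k (by omega)).2) le_rfl hij
  set n4 := max n2 (max n3 K) with hn4
  have hgrow : ∀ d, d ≤ XU (n2 + d) := by
    intro d
    induction d with
    | zero => exact Nat.zero_le _
    | succ d ih =>
      have := (hpos (n2 + d) (by omega)).2
      have e : n2 + (d + 1) = n2 + d + 1 := rfl
      rw [e]; omega
  refine ⟨n2 + n4, fun n hn => (hpos n (by omega)).2, ?_⟩
  have hKle : K ≤ XU (n2 + n4) := by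
    have := hgrow n4
    omega
  intro k hk
  constructor
  · intro hden
    have hrec := isRec_of_isDen hN hden
    have hXle : XU n2 ≤ XU (n2 + n4) := by
      rcases Nat.eq_zero_or_pos n4 with h | h
      · rw [h, add_zero]
      · exact (hXmono (by omega) (by omega)).le
    obtain ⟨m, hm, rfl⟩ := hunit k (hXle.trans hk) hrec
    have hm4 : n2 + n4 ≤ m := by
      by_contra hcon
      have := hXmono (i := m) (j := n2 + n4) (by omega) (by omega)
      omega
    refine ⟨m, hm4, rfl, ?_⟩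
    by_contra hE
    have hne : vU φ m ≠ 0 := by
      intro h
      exact vU_zero_ne hφ m (hpos m (by omega)).1.ne' (by rw [h]; rfl)
    have hdist := hval m (by omega)
    have key : ∀ j, 1 ≤ j → j ≤ 3 → N (vU φ (m - j)) ≤ N (vU φ m) → False := by
      intro j hj1 hj3 hjN
      have h1 : XU (m - j) < XU m := hXmono (by omega) (by omega)
      have h0 : 0 < XU (m - j) := by
        have := (hpos (m - j) (by omega)).1
        rw [XU]; omega
      have h2 := hrec.2 (XU (m - j)) h0 h1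
      have h3 : latDist N (eθ φ) (XU (m - j)) ≤ N (vU φ (m - j)) := by
        have hp := (hpos (m - j) (by omega)).1
        have e : (XU (m - j) : ℤ) = (U (m - j)).1 := by rw [XU, Int.natAbs_of_nonneg hp.le]
        have := latDist_le_errV_nat hN (θ := eθ φ) (XU (m - j)) ![(U (m - j)).2.2, (U (m - j)).2.1]
        rwa [e, ← vE_eq] at this
      linarith
    have hS1 : mS φ (vU φ m) = vU φ (m - 1) := by
      have := mS_iter_vU hφ 1 (m - 1)
      rwa [show m - 1 + 1 = m by omega] at this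
    have hS2 : mS φ (mS φ (vU φ m)) = vU φ (m - 2) := by
      have := mS_iter_vU hφ 2 (m - 2)
      rwa [show m - 2 + 2 = m by omega] at this
    have hS3 : mS φ (mS φ (mS φ (vU φ m))) = vU φ (m - 3) := by
      have := mS_iter_vU hφ 3 (m - 3)
      rwa [show m - 3 + 3 = m by omega] at this
    rcases hG.hI (vU φ m) hne hE with h | h | h
    · rw [hS1] at h; exact key 1 le_rfl (by norm_num) h
    · rw [hS2] at h; exact key 2 (by norm_num) (by norm_num) h
    · rw [hS3] at h; exact key 3 (by norm_num) le_rfl h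
  · rintro ⟨n, hn, rfl, hE⟩
    apply hK _ (hKle.trans hk)
    have hX0 : 0 < XU n := by
      have := (hpos n (by omega)).1
      rw [XU]; omega
    have hdist := hval n (by omega)
    have hex : ∃ x : ℕ, 0 < x ∧ latDist N (eθ φ) x ≤ N (vU φ n) := ⟨XU n, hX0, hdist.le⟩
    classical
    set x := Nat.find hex with hx
    obtain ⟨hx0, hx1⟩ := Nat.find_spec hex
    have hxle : x ≤ XU n := Nat.find_min' hex ⟨hX0, hdist.le⟩
    have hrecx : isRec N (eθ φ) x := by
      refine ⟨hx0, ?_⟩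
      intro j hj hjx
      have := Nat.find_min hex hjx
      push Not at this
      exact lt_of_le_of_lt hx1 (this hj)
    have hxbig : XU n2 ≤ x := by
      by_contra hcon
      have h1 := hle x hx0 (by omega)
      have h2 := hn3 n (by omega)
      have h3 : latDist N (eθ φ) x ≤ N (vU φ n) := hx1
      linarith
    obtain ⟨m, hm, hmx⟩ := hunit x hxbig hrecx
    rcases Nat.lt_trichotomy m n with h | h | h
    · exfalso
      obtain ⟨k, rfl⟩ := Nat.exists_eq_add_of_lt h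
      have hb := hG.beats hφ (m := m) (k := k + 1) (by omega) (by rwa [← add_assoc])
        (by rw [← add_assoc]; exact vU_zero_ne hφ _ (hpos _ (by omega)).1.ne')
      have h2 := hval m hm
      have h3 : latDist N (eθ φ) (XU m) ≤ N (vU φ (m + k + 1)) := by rw [hmx]; exact hx1
      rw [h2] at h3
      rw [← add_assoc] at hb
      linarith
    · rw [← h, hmx]; exact hrecx
    · exfalso
      have := hXmono (i := n) (j := m) (by omega) h
      omega

end Good

end Pool.Agent.Helper54.Growth
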