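import Pool.Agent.Lib.Helper54.Growth.Norms

/-!
# The sup norm
-/

set_option autoImplicit false

namespace Pool.Agent.Helper54.Growth

lemma supN_norm : IsNorm2 supN := by
  refine ⟨?_, ?_, ?_⟩
  · intro x hx
    rw [supN] at hx
    have h0 : |x 0| ≤ 0 := by rw [← hx]; exact le_max_left _ _
    have h1 : |x 1| ≤ 0 := by rw [← hx]; exact le_max_right _ _
    ext i; fin_cases i
    · exact abs_eq_zero.1 (le_antisymm h0 (abs_nonneg _))
    · exact abs_eq_zero.1 (le_antisymm h1 (abs_nonneg _))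
  · intro x y
    simp only [supN, Pi.add_apply]
    apply max_le
    · exact (abs_add_le _ _).trans (add_le_add (le_max_left _ _) (le_max_left _ _))
    · exact (abs_add_le _ _).trans (add_le_add (le_max_right _ _) (le_max_right _ _))
  · intro r x
    simp only [supN, Pi.smul_apply, smul_eq_mul, abs_mul]
    rw [mul_max_of_nonneg _ _ (abs_nonneg r)]

lemma supN_vec (a b : ℝ) : supN ![a, b] = max |a| |b| := rfl

lemma sup_lt {v w : Fin 2 → ℝ} (r : ℝ) (hr : |r| ≤ supN w) (h1 : -r < v 0) (h2 : v 0 < r)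
    (h3 : -r < v 1) (h4 : v 1 < r) : supN v < supN w := by
  rw [supN]
  have hr0 : r ≤ |r| := le_abs_self r
  apply max_lt
  · rw [abs_lt]; constructor <;> linarith
  · rw [abs_lt]; constructor <;> linarith

lemma sup_le {v w : Fin 2 → ℝ} (r s : ℝ) (hr : |r| ≤ supN w) (hs : |s| ≤ supN w)
    (h1 : -r ≤ v 0) (h2 : v 0 ≤ r) (h3 : -s ≤ v 1) (h4 : v 1 ≤ s) : supN v ≤ supN w := by
  rw [supN]
  have hr0 : r ≤ |r| := le_abs_self r
  have hs0 : s ≤ |s| := le_abs_self s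
  apply max_le
  · rw [abs_le]; constructor <;> linarith
  · rw [abs_le]; constructor <;> linarith

lemma abs_le_sup0 (w : Fin 2 → ℝ) : |w 0| ≤ supN w := le_max_left _ _
lemma abs_le_sup1 (w : Fin 2 → ℝ) : |w 1| ≤ supN w := le_max_right _ _
lemma abs_le_sup0' (w : Fin 2 → ℝ) : |-(w 0)| ≤ supN w := by rw [abs_neg]; exact le_max_left _ _
lemma abs_le_sup1' (w : Fin 2 → ℝ) : |-(w 1)| ≤ supN w := by rw [abs_neg]; exact le_max_right _ _

section

variable {φ : ℝ} (hφ : φ ^ 3 = φ + 1)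
include hφ

/-- Numerical bounds for the products with `φ` and `φ ^ 2`. -/
lemma prod_bounds (y : ℝ) (hy : 0 ≤ y) :
    1.32471 * y ≤ φ * y ∧ φ * y ≤ 1.32472 * y ∧ 1.75485 * y ≤ φ ^ 2 * y ∧ φ ^ 2 * y ≤ 1.75489 * y := by
  obtain ⟨p1, p2⟩ := phi_fine hφ
  obtain ⟨q1, q2⟩ := phi_sq_fine hφ
  refine ⟨?_, ?_, ?_, ?_⟩ <;> apply mul_le_mul_of_nonneg_right _ hy <;> linarith

lemma prod_bounds' (y : ℝ) (hy : y ≤ 0) :
    1.32472 * y ≤ φ * y ∧ φ * y ≤ 1.32471 * y ∧ 1.75489 * y ≤ φ ^ 2 * y ∧ φ ^ 2 * y ≤ 1.75485 * y := by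
  obtain ⟨p1, p2⟩ := phi_fine hφ
  obtain ⟨q1, q2⟩ := phi_sq_fine hφ
  refine ⟨?_, ?_, ?_, ?_⟩ <;> apply mul_le_mul_of_nonpos_right _ hy <;> linarith

lemma tR_fine : 0.5698 < 1 + φ - φ ^ 2 ∧ 1 + φ - φ ^ 2 < 0.5699 := by
  obtain ⟨p1, p2⟩ := phi_fine hφ
  obtain ⟨q1, q2⟩ := phi_sq_fine hφ
  constructor <;> linarith

theorem good_sup : Good φ supN (1 + φ - φ ^ 2) (308 / 100) (317 / 100) := by
  obtain ⟨p1, p2⟩ := phi_fine hφ
  obtain ⟨q1, q2⟩ := phi_sq_fine hφ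
  obtain ⟨r1, r2⟩ := tR_fine hφ
  have hφ0 : 0 < φ := by linarith
  apply Good.mk' supN_norm (by norm_num) (by norm_num) (by norm_num)
  · -- h1
    intro v
    rw [eN_sq hφ]
    set m := supN v with hm
    obtain ⟨a1, a2⟩ := abs_le.1 (abs_le_sup0 v)
    obtain ⟨b1, b2⟩ := abs_le.1 (abs_le_sup1 v)
    rw [← hm] at a1 a2 b1 b2
    have c0 : v 0 ^ 2 ≤ m ^ 2 := by nlinarith
    have c1 : v 1 ^ 2 ≤ m ^ 2 := by nlinarith
    have c2 : -(v 0 * v 1) ≤ m ^ 2 := by nlinarith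
    have d1 : φ * (-(v 0 * v 1)) ≤ φ * m ^ 2 := mul_le_mul_of_nonneg_left c2 hφ0.le
    have d2 : (φ ^ 2 - 1) * v 0 ^ 2 ≤ (φ ^ 2 - 1) * m ^ 2 :=
      mul_le_mul_of_nonneg_left c0 (by linarith)
    have d3 : (φ + φ ^ 2) * m ^ 2 ≤ 308 / 100 * m ^ 2 :=
      mul_le_mul_of_nonneg_right (by linarith) (sq_nonneg m)
    linarith
  · -- h2
    intro v
    rw [eN_sq hφ]
    have e1 : v 0 ^ 2 ≤ 317 / 100 * ((v 1) ^ 2 - φ * v 0 * v 1 + (φ ^ 2 - 1) * (v 0) ^ 2) := by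
      have k1 : v 1 ^ 2 - φ * v 0 * v 1 + (φ ^ 2 - 1) * v 0 ^ 2
          = (v 1 - φ / 2 * v 0) ^ 2 + (3 * φ ^ 2 - 4) / 4 * v 0 ^ 2 := by ring
      rw [k1]
      have k2 : 0.3161 * v 0 ^ 2 ≤ (3 * φ ^ 2 - 4) / 4 * v 0 ^ 2 :=
        mul_le_mul_of_nonneg_right (by linarith) (sq_nonneg _)
      have k3 := sq_nonneg (v 1 - φ / 2 * v 0)
      have k4 := sq_nonneg (v 0)
      linarith
    have e2 : v 1 ^ 2 ≤ 317 / 100 * ((v 1) ^ 2 - φ * v 0 * v 1 + (φ ^ 2 - 1) * (v 0) ^ 2) := by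
      have k1 : 0 ≤ 2.17 * v 1 ^ 2 - 3.17 * φ * (v 0 * v 1) + 3.17 * (φ ^ 2 - 1) * v 0 ^ 2 := by
        have k2 : 2.17 * v 1 ^ 2 - 3.17 * φ * (v 0 * v 1) + 3.17 * (φ ^ 2 - 1) * v 0 ^ 2
            = 2.17 * (v 1 - 3.17 / 4.34 * φ * v 0) ^ 2
              + (3.17 * (φ ^ 2 - 1) - 3.17 ^ 2 / 8.68 * φ ^ 2) * v 0 ^ 2 := by ring
        rw [k2]
        have k3 : 0 ≤ 3.17 * (φ ^ 2 - 1) - 3.17 ^ 2 / 8.68 * φ ^ 2 := by linarith
        have k4 := sq_nonneg (v 1 - 3.17 / 4.34 * φ * v 0)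
        have k5 := mul_nonneg k3 (sq_nonneg (v 0))
        linarith
      linarith
    rw [supN]
    rcases max_cases |v 0| |v 1| with ⟨h, -⟩ | ⟨h, -⟩
    · rw [h, sq_abs]; exact e1
    · rw [h, sq_abs]; exact e2
  · -- h5
    intro v hy
    rw [S2_eq hφ v, M5_eq hφ v]
    set w : Fin 2 → ℝ := ![(1 + φ) * v 0 - (1 + 2 * φ) * v 1,
      (φ ^ 2 + 1) * v 0 - (2 * φ ^ 2 - 1) * v 1] with hw
    have w0 : w 0 = (1 + φ) * v 0 - (1 + 2 * φ) * v 1 := rfl
    have w1 : w 1 = (φ ^ 2 + 1) * v 0 - (2 * φ ^ 2 - 1) * v 1 := rfl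
    obtain ⟨y1, y2, y3, y4⟩ := prod_bounds hφ (v 1) hy
    rcases le_total (v 0) (1.25 * v 1) with h | h
    · apply sup_le (-(w 0)) (-(w 0)) (abs_le_sup0' w) (abs_le_sup0' w)
      all_goals
        simp only [Matrix.cons_val_zero, Matrix.cons_val_one]
        rw [w0]
        rcases le_total 0 (v 0) with hx | hx
        · obtain ⟨x1, x2, x3, x4⟩ := prod_bounds hφ (v 0) hx
          linarith
        · obtain ⟨x1, x2, x3, x4⟩ := prod_bounds' hφ (v 0) hx
          linarith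
    · have hx : 0 ≤ v 0 := by linarith
      obtain ⟨x1, x2, x3, x4⟩ := prod_bounds hφ (v 0) hx
      apply sup_le (w 1) (w 1) (abs_le_sup1 w) (abs_le_sup1 w)
      all_goals
        simp only [Matrix.cons_val_zero, Matrix.cons_val_one]
        rw [w1]
        linarith
  · -- h7
    intro v hy
    rw [M7_eq hφ v]
    set w : Fin 2 → ℝ := ![-(1 + φ) * v 0 + (1 - φ) * v 1,
      (2 - φ ^ 2) * v 0 - (φ ^ 2 + 1) * v 1] with hw
    have w0 : w 0 = -(1 + φ) * v 0 + (1 - φ) * v 1 := rfl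
    have w1 : w 1 = (2 - φ ^ 2) * v 0 - (φ ^ 2 + 1) * v 1 := rfl
    obtain ⟨y1, y2, y3, y4⟩ := prod_bounds hφ (v 1) hy
    rcases le_total (v 0) (-(v 1)) with h | h
    · have hx : v 0 ≤ 0 := by linarith
      obtain ⟨x1, x2, x3, x4⟩ := prod_bounds' hφ (v 0) hx
      apply sup_le (w 0) (w 0) (abs_le_sup0 w) (abs_le_sup0 w) <;> (rw [w0]; linarith)
    · rcases le_total (v 0) (v 1) with h' | h'
      · apply sup_le (-(w 1)) (-(w 1)) (abs_le_sup1' w) (abs_le_sup1' w)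
        all_goals
          rw [w1]
          rcases le_total 0 (v 0) with hx | hx
          · obtain ⟨x1, x2, x3, x4⟩ := prod_bounds hφ (v 0) hx
            linarith
          · obtain ⟨x1, x2, x3, x4⟩ := prod_bounds' hφ (v 0) hx
            linarith
      · have hx : 0 ≤ v 0 := by linarith
        obtain ⟨x1, x2, x3, x4⟩ := prod_bounds hφ (v 0) hx
        apply sup_le (-(w 0)) (-(w 0)) (abs_le_sup0' w) (abs_le_sup0' w) <;> (rw [w0]; linarith)
  · -- h11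
    intro v hy
    rw [M11_eq hφ v]
    set w : Fin 2 → ℝ := ![2 * v 0 + φ * v 1, -v 0 + (φ ^ 2 + 2) * v 1] with hw
    have w0 : w 0 = 2 * v 0 + φ * v 1 := rfl
    have w1 : w 1 = -v 0 + (φ ^ 2 + 2) * v 1 := rfl
    obtain ⟨y1, y2, y3, y4⟩ := prod_bounds hφ (v 1) hy
    rcases le_total (v 0) (v 1) with h | h
    · apply sup_le (w 1) (w 1) (abs_le_sup1 w) (abs_le_sup1 w) <;> (rw [w1]; linarith)
    · apply sup_le (w 0) (w 0) (abs_le_sup0 w) (abs_le_sup0 w) <;> (rw [w0]; linarith)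
  · -- hI0
    intro v hv
    rw [S1_eq, supN_vec, hv, mul_zero, mul_zero, sub_zero, abs_zero]
    exact max_le (abs_nonneg _ |>.trans (abs_le_sup0 v)) (abs_le_sup0 v)
  · -- hI
    intro v hy ht
    obtain ⟨y1, y2, y3, y4⟩ := prod_bounds hφ (v 1) hy.le
    have hx : 0 ≤ v 0 := by nlinarith
    obtain ⟨x1, x2, x3, x4⟩ := prod_bounds hφ (v 0) hx
    rcases le_total (v 0) (v 1) with h | h
    · right; right
      rw [S3_eq hφ v]
      have k1 : φ * v 1 ≤ (φ + 1) * v 0 := by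
        have : (φ + 1) * ((1 + φ - φ ^ 2) * v 1) ≤ (φ + 1) * v 0 :=
          mul_le_mul_of_nonneg_left ht (by linarith)
        have e : (φ + 1) * ((1 + φ - φ ^ 2) * v 1) = φ * v 1 := by
          linear_combination (-v 1) * hφ
        linarith
      have k2 : φ ^ 2 * v 0 ≤ φ ^ 2 * v 1 := mul_le_mul_of_nonneg_left h (sq_nonneg φ)
      apply sup_le (v 1) (v 1) (abs_le_sup1 v) (abs_le_sup1 v)
      all_goals
        simp only [Matrix.cons_val_zero, Matrix.cons_val_one]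
        linarith
    · rcases le_total (v 0) (2 * v 1) with h' | h'
      · right; left
        rw [S2_eq hφ v]
        have k1 : φ * v 1 ≤ φ * v 0 := mul_le_mul_of_nonneg_left h hφ0.le
        apply sup_le (v 0) (v 0) (abs_le_sup0 v) (abs_le_sup0 v)
        all_goals
          simp only [Matrix.cons_val_zero, Matrix.cons_val_one]
          linarith
      · left
        rw [S1_eq]
        apply sup_le (v 0) (v 0) (abs_le_sup0 v) (abs_le_sup0 v)
        all_goals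
          simp only [Matrix.cons_val_zero, Matrix.cons_val_one]
          linarith
  · -- hII
    intro v hy ht h0 k hk1 hk8
    obtain ⟨e1, e2, e3, e4, e5, e6, e7, e8⟩ := iter_eq hφ v
    obtain ⟨y1, y2, y3, y4⟩ := prod_bounds hφ (v 1) hy.le
    have ht' : v 0 < 0.57 * v 1 := by
      have : (1 + φ - φ ^ 2) * v 1 ≤ 0.57 * v 1 := mul_le_mul_of_nonneg_right (by linarith) hy.le
      linarith
    interval_cases k
    · rw [e1]
      set w : Fin 2 → ℝ := ![-φ * v 1, v 0 - φ ^ 2 * v 1] with hw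
      have w1 : w 1 = v 0 - φ ^ 2 * v 1 := rfl
      apply sup_lt (-(w 1)) (abs_le_sup1' w) <;> (rw [w1]; linarith)
    · rw [e2]
      set w : Fin 2 → ℝ := ![-φ * v 0 + (φ + 1) * v 1, -φ ^ 2 * v 0 + φ ^ 2 * v 1] with hw
      have w0 : w 0 = -φ * v 0 + (φ + 1) * v 1 := rfl
      apply sup_lt (w 0) (abs_le_sup0 w)
      all_goals
        rw [w0]
        rcases le_total 0 (v 0) with hx | hx
        · obtain ⟨x1, x2, x3, x4⟩ := prod_bounds hφ (v 0) hx
          linarith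
        · obtain ⟨x1, x2, x3, x4⟩ := prod_bounds' hφ (v 0) hx
          linarith
    · rw [e3]
      set w : Fin 2 → ℝ := ![(φ + 1) * v 0 - (φ + 1) * v 1, φ ^ 2 * v 0 - (φ ^ 2 - 1) * v 1] with hw
      have w0 : w 0 = (φ + 1) * v 0 - (φ + 1) * v 1 := rfl
      have k1 : (φ + 1) * v 0 < φ * v 1 := by
        have : (φ + 1) * v 0 < (φ + 1) * ((1 + φ - φ ^ 2) * v 1) :=
          mul_lt_mul_of_pos_left ht (by linarith)
        have e : (φ + 1) * ((1 + φ - φ ^ 2) * v 1) = φ * v 1 := by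
          linear_combination (-v 1) * hφ
        linarith
      apply sup_lt (-(w 0)) (abs_le_sup0' w)
      all_goals
        rw [w0]
        rcases le_total 0 (v 0) with hx | hx
        · obtain ⟨x1, x2, x3, x4⟩ := prod_bounds hφ (v 0) hx
          linarith
        · obtain ⟨x1, x2, x3, x4⟩ := prod_bounds' hφ (v 0) hx
          linarith
    · rw [e4]
      set w : Fin 2 → ℝ := ![-(φ + 1) * v 0 + v 1, -(φ ^ 2 - 1) * v 0 - v 1] with hw
      have w0 : w 0 = -(φ + 1) * v 0 + v 1 := rfl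
      have w1 : w 1 = -(φ ^ 2 - 1) * v 0 - v 1 := rfl
      rcases lt_or_gt_of_ne h0 with hx | hx
      · obtain ⟨x1, x2, x3, x4⟩ := prod_bounds' hφ (v 0) hx.le
        apply sup_lt (w 0) (abs_le_sup0 w) <;> (rw [w0]; linarith)
      · obtain ⟨x1, x2, x3, x4⟩ := prod_bounds hφ (v 0) hx.le
        apply sup_lt (-(w 1)) (abs_le_sup1' w) <;> (rw [w1]; linarith)
    · rw [e5]
      set w : Fin 2 → ℝ := ![v 0 + φ * v 1, -v 0 + (φ ^ 2 + 1) * v 1] with hw
      have w1 : w 1 = -v 0 + (φ ^ 2 + 1) * v 1 := rfl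
      apply sup_lt (w 1) (abs_le_sup1 w) <;> (rw [w1]; linarith)
    · rw [e6]
      set w : Fin 2 → ℝ := ![φ * v 0 - (2 * φ + 1) * v 1, (φ ^ 2 + 1) * v 0 - 2 * φ ^ 2 * v 1] with hw
      have w0 : w 0 = φ * v 0 - (2 * φ + 1) * v 1 := rfl
      apply sup_lt (-(w 0)) (abs_le_sup0' w)
      all_goals
        rw [w0]
        rcases le_total 0 (v 0) with hx | hx
        · obtain ⟨x1, x2, x3, x4⟩ := prod_bounds hφ (v 0) hx
          linarith
        · obtain ⟨x1, x2, x3, x4⟩ := prod_bounds' hφ (v 0) hx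
          linarith
    · rw [e7]
      set w : Fin 2 → ℝ := ![-(2 * φ + 1) * v 0 + (2 * φ + 2) * v 1,
        -2 * φ ^ 2 * v 0 + (2 * φ ^ 2 - 1) * v 1] with hw
      have w0 : w 0 = -(2 * φ + 1) * v 0 + (2 * φ + 2) * v 1 := rfl
      apply sup_lt (w 0) (abs_le_sup0 w)
      all_goals
        rw [w0]
        rcases le_total 0 (v 0) with hx | hx
        · obtain ⟨x1, x2, x3, x4⟩ := prod_bounds hφ (v 0) hx
          linarith
        · obtain ⟨x1, x2, x3, x4⟩ := prod_bounds' hφ (v 0) hx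
          linarith
    · rw [e8]
      set w : Fin 2 → ℝ := ![(2 * φ + 2) * v 0 - (φ + 2) * v 1,
        (2 * φ ^ 2 - 1) * v 0 + (2 - φ ^ 2) * v 1] with hw
      have w0 : w 0 = (2 * φ + 2) * v 0 - (φ + 2) * v 1 := rfl
      have w1 : w 1 = (2 * φ ^ 2 - 1) * v 0 + (2 - φ ^ 2) * v 1 := rfl
      rcases le_total (v 0) (0.45 * v 1) with h | h
      · apply sup_lt (-(w 0)) (abs_le_sup0' w)
        all_goals
          rw [w0]
          rcases le_total 0 (v 0) with hx | hx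
          · obtain ⟨x1, x2, x3, x4⟩ := prod_bounds hφ (v 0) hx
            linarith
          · obtain ⟨x1, x2, x3, x4⟩ := prod_bounds' hφ (v 0) hx
            linarith
      · have hx : 0 ≤ v 0 := by linarith
        obtain ⟨x1, x2, x3, x4⟩ := prod_bounds hφ (v 0) hx
        apply sup_lt (w 1) (abs_le_sup1 w) <;> (rw [w1]; linarith)

end

end Pool.Agent.Helper54.Growth
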