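import Pool.Agent.Lib.Helper54.Growth.Frame

/-!
# Upper bounds for `G` at the vectors attached to frames
-/

set_option autoImplicit false

namespace Pool.Agent.Helper54.Growth

open Filter

lemma nth_le_of_strictMono {P : ℕ → Prop} (hinf : {k | P k}.Infinite) {k : ℕ → ℕ}
    (hk : StrictMono k) (hP : ∀ j, P (k j)) (j : ℕ) : Nat.nth P j ≤ k j := by
  classical
  have hcount : ∀ j, j ≤ Nat.count P (k j) := by
    intro j
    induction j with
    | zero => exact Nat.zero_le _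
    | succ j ih =>
      have a1 : Nat.count P (k j + 1) ≤ Nat.count P (k (j + 1)) :=
        Nat.count_monotone _ (hk (Nat.lt_succ_self j))
      rw [Nat.count_succ, if_pos (hP j)] at a1
      omega
  have a1 := (Nat.nth_strictMono hinf).monotone (hcount j)
  rwa [Nat.nth_count (hP j)] at a1

namespace Frame

variable (F : Frame) {φ : ℝ} (hφ : φ ^ 3 = φ + 1) {N : (Fin 2 → ℝ) → ℝ} (hN : IsNorm2 N)
include hφ hN

/-- If `N` is within a factor `l2 / l1 < φ ^ m` (after squaring) of the adapted length, then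
`M_ν = O(φ ^ (m ν))`. -/
theorem upper {l1 l2 : ℝ} {m : ℕ} (hm : 0 < m) (hl1 : 0 < l1) (hl2 : 0 < l2)
    (h1 : ∀ v, l1 * F.T φ v ^ 2 ≤ N v ^ 2)
    (h2 : ∀ v, N v ^ 2 ≤ l2 * F.T φ v ^ 2) (h12 : l2 < φ ^ m * l1) :
    ∃ C : ℝ, 0 < C ∧ ∀ ν, 1 ≤ ν → (M N (F.θ φ) ν : ℝ) ≤ C * (φ ^ m) ^ ν := by
  have hφ1 := phi_gt_one hφ
  have hφ0 : 0 < φ := by linarith
  obtain ⟨D, hD, hDle⟩ := F.exists_D hφ
  obtain ⟨K, hK⟩ := exists_isDen_of_isRec hN (θ := F.θ φ)
  have hadm := F.adm hφ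
  have hκ := abs_pos.2 (F.κ0_ne hφ)
  have hq0 := norm_pc_pos hφ
  have hq1 := norm_pc_lt_one hφ
  set q := ‖pc φ‖ with hq
  set X : ℕ → ℕ := fun n => (F.ux n).natAbs with hX
  set v : ℕ → (Fin 2 → ℝ) := fun n => errV (F.θ φ) (F.ux n) (F.uy n) with hv
  have hvT : ∀ n, F.T φ (v n) = q ^ n := fun n => F.u_T hφ n
  have hqn : ∀ n, q ^ n ≤ 1 := fun n => pow_le_one₀ hq0.le hq1.le
  have hXabs : ∀ n, (X n : ℝ) = |(F.ux n : ℝ)| := by
    intro n
    rw [hX, ← Int.cast_abs, Int.abs_eq_natAbs]; simp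
  have hXup : ∀ n, |F.κ0 φ| * X n ≤ φ ^ n + D := by
    intro n
    have a1 := F.u_R hφ n
    have a2 := hDle (v n)
    rw [hvT] at a2
    have a3 : F.κ0 φ * F.ux n = φ ^ n + (v n 0 + v n 1 * F.ρ φ) := by
      simp only [hv]; linarith
    rw [hXabs, ← abs_mul, a3]
    have a4 := abs_add_le (φ ^ n) (v n 0 + v n 1 * F.ρ φ)
    rw [abs_of_pos (pow_pos hφ0 n)] at a4
    have a5 : D * q ^ n ≤ D * 1 := mul_le_mul_of_nonneg_left (hqn n) hD.le
    linarith
  have hXlow : ∀ n, φ ^ n - D ≤ |F.κ0 φ| * X n := by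
    intro n
    have a1 := F.u_R hφ n
    have a2 := hDle (v n)
    rw [hvT] at a2
    have a3 : φ ^ n = F.κ0 φ * F.ux n - (v n 0 + v n 1 * F.ρ φ) := by
      simp only [hv]; linarith
    have a4 := abs_sub (F.κ0 φ * F.ux n) (v n 0 + v n 1 * F.ρ φ)
    rw [← a3, abs_of_pos (pow_pos hφ0 n)] at a4
    rw [hXabs, ← abs_mul]
    have a5 : D * q ^ n ≤ D * 1 := mul_le_mul_of_nonneg_left (hqn n) hD.le
    linarith
  -- the threshold
  have hδpos : 0 < φ ^ m * l1 := by positivity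
  obtain ⟨n0, hn0⟩ := pow_unbounded_of_one_lt
    (max (2 * D * l2 / (φ ^ m * l1 - l2)) (max (D + |F.κ0 φ| * K) (l2 / (φ ^ m * l1)))) hφ1
  have hbig : ∀ n, n0 ≤ n → 2 * D * l2 < φ ^ n * (φ ^ m * l1 - l2) ∧
      D + |F.κ0 φ| * K < φ ^ n ∧ l2 < φ ^ n * (φ ^ m * l1) := by
    intro n hn
    have a1 : φ ^ n0 ≤ φ ^ n := pow_le_pow_right₀ hφ1.le hn
    have a2 := hn0.trans_le a1
    have a3 := (le_max_left _ _).trans_lt a2
    have a4 := (le_max_right _ _).trans_lt a2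
    refine ⟨?_, (le_max_left _ _).trans_lt a4, ?_⟩
    · rw [div_lt_iff₀ (by linarith)] at a3; exact a3
    · have a5 := (le_max_right _ _).trans_lt a4
      rw [div_lt_iff₀ hδpos] at a5; exact a5
  -- no good point up to `X n`
  have hclaim : ∀ n, n0 ≤ n → ∀ (x : ℤ) (y : Fin 2 → ℤ), x ≠ 0 → x.natAbs ≤ X n →
      N (v (n + m)) < N (errV (F.θ φ) x y) := by
    intro n hn x y hx hxX
    by_contra hcon
    have hcon := not_lt.1 hcon
    obtain ⟨b1, b2, b3⟩ := hbig n hn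
    set w := errV (F.θ φ) x y with hw
    have c1 : l1 * F.T φ w ^ 2 ≤ l2 * (q ^ (n + m)) ^ 2 := by
      calc l1 * F.T φ w ^ 2 ≤ N w ^ 2 := h1 w
        _ ≤ N (v (n + m)) ^ 2 := pow_le_pow_left₀ (hN.nonneg _) hcon 2
        _ ≤ l2 * F.T φ (v (n + m)) ^ 2 := h2 _
        _ = l2 * (q ^ (n + m)) ^ 2 := by rw [hvT]
    have c2 : (q ^ (n + m)) ^ 2 * φ ^ (n + m) = 1 := norm_pc_pow_sq hφ (n + m)
    have c3 : F.T φ w ^ 2 * (φ ^ n * (φ ^ m * l1)) ≤ l2 := by
      have e : F.T φ w ^ 2 * (φ ^ n * (φ ^ m * l1)) = (l1 * F.T φ w ^ 2) * φ ^ (n + m) := by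
        rw [pow_add]; ring
      rw [e]
      calc (l1 * F.T φ w ^ 2) * φ ^ (n + m) ≤ (l2 * (q ^ (n + m)) ^ 2) * φ ^ (n + m) :=
            mul_le_mul_of_nonneg_right c1 (by positivity)
        _ = l2 * ((q ^ (n + m)) ^ 2 * φ ^ (n + m)) := by ring
        _ = l2 := by rw [c2, mul_one]
    have hT0 : 0 ≤ F.T φ w := norm_nonneg _
    have c4 : F.T φ w ≤ 1 := by
      have : F.T φ w ^ 2 ≤ 1 := by
        by_contra hcc
        have hcc := not_le.1 hcc
        have h5 : 1 * (φ ^ n * (φ ^ m * l1)) < F.T φ w ^ 2 * (φ ^ n * (φ ^ m * l1)) :=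
          mul_lt_mul_of_pos_right hcc (by positivity)
        linarith
      nlinarith
    have c5 := F.one_le hφ x y hx
    rw [← hw] at c5
    have c6 : |F.κ0 φ * x - (w 0 + w 1 * F.ρ φ)| ≤ φ ^ n + 2 * D := by
      have d1 := abs_sub (F.κ0 φ * x) (w 0 + w 1 * F.ρ φ)
      have d2 := hDle w
      have d3 : |F.κ0 φ * x| ≤ φ ^ n + D := by
        refine le_trans ?_ (hXup n)
        rw [abs_mul]
        apply mul_le_mul_of_nonneg_left _ (abs_nonneg _)
        have : |(x : ℝ)| = (x.natAbs : ℝ) := by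
          rw [← Int.cast_abs, Int.abs_eq_natAbs]; simp
        rw [this]
        exact_mod_cast hxX
      have d4 : D * F.T φ w ≤ D * 1 := mul_le_mul_of_nonneg_left c4 hD.le
      linarith
    have c7 : 1 ≤ (φ ^ n + 2 * D) * F.T φ w ^ 2 :=
      c5.trans (mul_le_mul_of_nonneg_right c6 (by positivity))
    have c8 : φ ^ n * (φ ^ m * l1) ≤ (φ ^ n + 2 * D) * l2 := by
      calc φ ^ n * (φ ^ m * l1) = 1 * (φ ^ n * (φ ^ m * l1)) := by ring
        _ ≤ ((φ ^ n + 2 * D) * F.T φ w ^ 2) * (φ ^ n * (φ ^ m * l1)) :=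
            mul_le_mul_of_nonneg_right c7 (by positivity)
        _ = (φ ^ n + 2 * D) * (F.T φ w ^ 2 * (φ ^ n * (φ ^ m * l1))) := by ring
        _ ≤ (φ ^ n + 2 * D) * l2 := mul_le_mul_of_nonneg_left c3 (by positivity)
    nlinarith
  have hXpos : ∀ n, n0 ≤ n → K < X n := by
    intro n hn
    obtain ⟨-, b2, -⟩ := hbig n hn
    have := hXlow n
    have h3 : |F.κ0 φ| * K < |F.κ0 φ| * X n := by linarith
    exact_mod_cast lt_of_mul_lt_mul_left h3 hκ.le
  -- record times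
  have hrec : ∀ n, n0 ≤ n → ∃ k, X n < k ∧ k ≤ X (n + m) ∧ IsDen N (F.θ φ) k := by
    intro n hn
    have hex : ∃ k : ℕ, 0 < k ∧ latDist N (F.θ φ) k ≤ N (v (n + m)) :=
      ⟨X (n + m), by have := hXpos (n + m) (by omega); omega,
        latDist_le_errV hN (F.ux (n + m)) (F.uy (n + m))⟩
    classical
    set k := Nat.find hex with hk
    obtain ⟨hk0, hk1⟩ := Nat.find_spec hex
    have hkle : k ≤ X (n + m) := Nat.find_min' hex
      ⟨by have := hXpos (n + m) (by omega); omega, latDist_le_errV hN (F.ux (n + m)) (F.uy (n + m))⟩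
    have hkgt : X n < k := by
      by_contra hcon
      obtain ⟨y, hy⟩ := latDist_errV_attained hN (θ := F.θ φ) k
      have := hclaim n hn (k : ℤ) y (by exact_mod_cast hk0.ne') (by simpa using hcon)
      rw [hy] at this
      exact absurd hk1 (not_le.2 this)
    refine ⟨k, hkgt, hkle, hK k (by have := hXpos n hn; omega) ⟨hk0, ?_⟩⟩
    intro j hj hjk
    have := Nat.find_min hex hjk
    push Not at this
    exact lt_of_le_of_lt hk1 (this hj)
  choose! k hk1 hk2 hk3 using hrec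
  have hmono : StrictMono (fun j => k (n0 + m * j)) := by
    apply strictMono_nat_of_lt_succ
    intro j
    have a1 := hk2 (n0 + m * j) (by omega)
    have a2 := hk1 (n0 + m * (j + 1)) (by omega)
    have e : n0 + m * j + m = n0 + m * (j + 1) := by ring
    rw [e] at a1
    exact lt_of_le_of_lt a1 a2
  have hnth := nth_le_of_strictMono (isDen_infinite hN hadm) hmono
    (fun j => hk3 (n0 + m * j) (by omega))
  refine ⟨(1 + D) * φ ^ n0 / |F.κ0 φ|, by positivity, ?_⟩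
  intro ν hν
  obtain ⟨j, rfl⟩ := Nat.exists_eq_add_of_le' hν
  have a1 : M N (F.θ φ) (j + 1) ≤ X (n0 + m * j + m) := by
    rw [M, Nat.add_sub_cancel]
    exact (hnth j).trans (hk2 (n0 + m * j) (by omega))
  have a2 : (M N (F.θ φ) (j + 1) : ℝ) ≤ X (n0 + m * j + m) := by exact_mod_cast a1
  have a3 := hXup (n0 + m * j + m)
  have e : φ ^ (n0 + m * j + m) = φ ^ n0 * (φ ^ m) ^ (j + 1) := by
    rw [← pow_mul, ← pow_add]; congr 1; ring
  have a4 : (1 : ℝ) ≤ φ ^ n0 * (φ ^ m) ^ (j + 1) := by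
    rw [← e]; exact one_le_pow₀ hφ1.le
  calc (M N (F.θ φ) (j + 1) : ℝ) ≤ X (n0 + m * j + m) := a2
    _ ≤ (φ ^ (n0 + m * j + m) + D) / |F.κ0 φ| := by
        rw [le_div_iff₀ hκ]; linarith
    _ ≤ ((1 + D) * (φ ^ n0 * (φ ^ m) ^ (j + 1))) / |F.κ0 φ| := by
        apply div_le_div_of_nonneg_right _ hκ.le
        rw [e]; nlinarith
    _ = _ := by ring

theorem G_le {l1 l2 : ℝ} {m : ℕ} (hm : 0 < m) (hl1 : 0 < l1) (hl2 : 0 < l2)
    (h1 : ∀ v, l1 * F.T φ v ^ 2 ≤ N v ^ 2)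
    (h2 : ∀ v, N v ^ 2 ≤ l2 * F.T φ v ^ 2) (h12 : l2 < φ ^ m * l1) :
    G N (F.θ φ) ≤ ((φ ^ m : ℝ) : EReal) := by
  have hφ1 := phi_gt_one hφ
  obtain ⟨C, hC, hle⟩ := F.upper hφ hN hm hl1 hl2 h1 h2 h12
  apply Growth.G_le (φ ^ m) C (by positivity) hC
  filter_upwards [eventually_ge_atTop 1] with ν hν
  exact hle ν hν

end Frame

end Pool.Agent.Helper54.Growth
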