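import Pool.Agent.Lib.Helper54.Growth.Near
import Pool.Agent.Lib.Helper54.Growth.EuclidNorm
import Pool.Agent.Lib.Helper54.Growth.Lower

set_option autoImplicit false

namespace Pool.Agent.Helper54.Growth

open Filter

/-- `N ^ 2` lies between a positive definite quadratic form and `κ` times that form for some
`κ < φ`; that is, the plane with the norm `N` has Banach-Mazur distance less than `√φ` from the
Euclidean plane. -/
def NearQuadratic (φ : ℝ) (N : (Fin 2 → ℝ) → ℝ) : Prop :=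
  ∃ A B C κ : ℝ, 0 < A ∧ 0 < A * C - B ^ 2 ∧ κ < φ ∧ ∀ v : Fin 2 → ℝ,
    A * v 0 ^ 2 + 2 * B * (v 0 * v 1) + C * v 1 ^ 2 ≤ N v ^ 2 ∧
    N v ^ 2 ≤ κ * (A * v 0 ^ 2 + 2 * B * (v 0 * v 1) + C * v 1 ^ 2)

lemma euclid_near {φ : ℝ} (hφ : φ ^ 3 = φ + 1) : NearQuadratic φ euclid := by
  refine ⟨1, 0, 1, 1, one_pos, by norm_num, phi_gt_one hφ, ?_⟩
  intro v
  rw [euclid_sq]
  constructor <;> linarith

theorem value_of_near {φ : ℝ} (hφ : φ ^ 3 = φ + 1) {N : (Fin 2 → ℝ) → ℝ} (hN : IsNorm2 N)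
    (h : NearQuadratic φ N) : g N = φ ∧ ∃ θ : Fin 2 → ℝ, Adm θ ∧ G N θ = φ := by
  obtain ⟨A, B, C, κ, hA, hdisc, hκ, hv⟩ := h
  obtain ⟨θ, hθ, hG⟩ := near_quadratic hφ hN (m := 1) one_pos hA hdisc (by simpa using hκ)
    (fun v => (hv v).1) (fun v => (hv v).2)
  rw [pow_one] at hG
  have hG2 : G N θ = φ := le_antisymm hG (phi_le_G hN hθ hφ)
  refine ⟨le_antisymm ?_ (phi_le_g hN hφ), θ, hθ, hG2⟩
  exact (iInf_le (fun θ : {θ : Fin 2 → ℝ // Adm θ} => G N θ.1) ⟨θ, hθ⟩).trans hG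

end Pool.Agent.Helper54.Growth
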